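import Mathlib

set_option autoImplicit false

namespace Pool.Agent.Lib.MP_f40e16_al

open FreeGroup

variable {Z Z' S S' : Type}

/-- reduced words -/
abbrev Rd (w : List (S × Bool)) : Prop := FreeGroup.IsReduced w

/-- inverse letter -/
def iv (l : S × Bool) : S × Bool := (l.1, !l.2)

@[simp] theorem iv_iv (l : S × Bool) : iv (iv l) = l := by simp [iv]

theorem iv_ne (l : S × Bool) : iv l ≠ l := by
  rcases l with ⟨s, b⟩; cases b <;> simp [iv]

theorem iv_inj {l l' : S × Bool} (h : iv l = iv l') : l = l' := by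
  rw [← iv_iv l, h, iv_iv]

@[simp] theorem invRev_single (l : S × Bool) : invRev [l] = [iv l] := by simp [invRev, iv]

theorem invRev_cons' (l : S × Bool) (w : List (S × Bool)) :
    invRev (l :: w) = invRev w ++ [iv l] := by simp [invRev, iv]

theorem invRev_snoc (l : S × Bool) (w : List (S × Bool)) :
    invRev (w ++ [l]) = iv l :: invRev w := by simp [invRev, iv]

/-- walks in a labelled graph -/
inductive Wk (D : Z → S × Bool → Z → Prop) : Z → List (S × Bool) → Z → Prop
  | nil (z : Z) : Wk D z [] z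
  | cons {a b c : Z} {l : S × Bool} {w : List (S × Bool)} : D a l b → Wk D b w c → Wk D a (l :: w) c

/-- folded symmetric labelled graph -/
structure Fold (D : Z → S × Bool → Z → Prop) : Prop where
  symm : ∀ {a b : Z} {l : S × Bool}, D a l b → D b (iv l) a
  func : ∀ {a b c : Z} {l : S × Bool}, D a l b → D a l c → b = c

variable {D : Z → S × Bool → Z → Prop}

@[simp] theorem wk_nil {a b : Z} : Wk D a [] b ↔ a = b :=
  ⟨fun h => by cases h; rfl, fun h => h ▸ Wk.nil a⟩

theorem wk_cons {a c : Z} {l : S × Bool} {w : List (S × Bool)} :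
    Wk D a (l :: w) c ↔ ∃ b, D a l b ∧ Wk D b w c :=
  ⟨fun h => by cases h with | cons h1 h2 => exact ⟨_, h1, h2⟩, fun ⟨_, h1, h2⟩ => Wk.cons h1 h2⟩

@[simp] theorem wk_single {a b : Z} {l : S × Bool} : Wk D a [l] b ↔ D a l b := by
  simp [wk_cons]

theorem wk_append {a c : Z} {w w' : List (S × Bool)} :
    Wk D a (w ++ w') c ↔ ∃ b, Wk D a w b ∧ Wk D b w' c := by
  induction w generalizing a with
  | nil => simp
  | cons l w ih =>
    simp only [List.cons_append, wk_cons, ih]
    constructor
    · rintro ⟨b, h1, d, h2, h3⟩; exact ⟨d, ⟨b, h1, h2⟩, h3⟩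
    · rintro ⟨d, ⟨b, h1, h2⟩, h3⟩; exact ⟨b, h1, d, h2, h3⟩

theorem Wk.append {a b c : Z} {w w' : List (S × Bool)} (h : Wk D a w b) (h' : Wk D b w' c) :
    Wk D a (w ++ w') c := wk_append.2 ⟨b, h, h'⟩

theorem wk_snoc {a c : Z} {w : List (S × Bool)} {l : S × Bool} :
    Wk D a (w ++ [l]) c ↔ ∃ b, Wk D a w b ∧ D b l c := by
  simp [wk_append]

theorem Wk.snoc {a b c : Z} {w : List (S × Bool)} {l : S × Bool} (h : Wk D a w b) (h' : D b l c) :
    Wk D a (w ++ [l]) c := wk_snoc.2 ⟨b, h, h'⟩

theorem Wk.map {D' : Z' → S × Bool → Z' → Prop} (f : Z → Z')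
    (hf : ∀ a l b, D a l b → D' (f a) l (f b)) {a b : Z} {w : List (S × Bool)} (h : Wk D a w b) :
    Wk D' (f a) w (f b) := by
  induction h with
  | nil z => exact Wk.nil _
  | cons h1 _ ih => exact Wk.cons (hf _ _ _ h1) ih

theorem Wk.mono {D' : Z → S × Bool → Z → Prop}
    (hf : ∀ a l b, D a l b → D' a l b) {a b : Z} {w : List (S × Bool)} (h : Wk D a w b) :
    Wk D' a w b := h.map id hf

theorem Wk.rev' (hs : ∀ (a b : Z) (l : S × Bool), D a l b → D b (iv l) a)
    {a b : Z} {w : List (S × Bool)} (h : Wk D a w b) : Wk D b (invRev w) a := by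
  induction h with
  | nil z => exact Wk.nil _
  | cons h1 _ ih => rw [invRev_cons']; exact ih.snoc (hs _ _ _ h1)

theorem Wk.rev (hD : Fold D) {a b : Z} {w : List (S × Bool)} (h : Wk D a w b) :
    Wk D b (invRev w) a := Wk.rev' (D := D) (fun _ _ _ => hD.symm) h

theorem Wk.func (hD : Fold D)
    {a b c : Z} {w : List (S × Bool)} (h : Wk D a w b) (h' : Wk D a w c) : b = c := by
  induction h with
  | nil z => exact wk_nil.1 h'
  | cons h1 _ ih =>
    obtain ⟨b', h2, h3⟩ := wk_cons.1 h'
    obtain rfl := hD.func h1 h2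
    exact ih h3

theorem Wk.ind_end (P : Z → Prop) (hP : ∀ a l b, P a → D a l b → P b)
    {a b : Z} {w : List (S × Bool)} (h : Wk D a w b) (ha : P a) : P b := by
  induction h with
  | nil z => exact ha
  | cons h1 _ ih => exact ih (hP _ _ _ ha h1)

theorem Wk.red_step (hD : Fold D) {a b : Z} {w w' : List (S × Bool)} (hr : Red.Step w w')
    (h : Wk D a w b) : Wk D a w' b := by
  cases hr with
  | @not L₁ L₂ x c =>
    obtain ⟨p, h1, h2⟩ := wk_append.1 h
    obtain ⟨q, h3, h4⟩ := wk_cons.1 h2
    obtain ⟨r, h5, h6⟩ := wk_cons.1 h4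
    have : r = p := hD.func h5 (hD.symm h3)
    subst this
    exact h1.append h6

theorem Wk.red (hD : Fold D) {a b : Z} {w w' : List (S × Bool)} (hr : Red w w')
    (h : Wk D a w b) : Wk D a w' b := by
  induction hr with
  | refl => exact h
  | tail _ h2 ih => exact ih.red_step hD h2

theorem Wk.exists_reduced (hD : Fold D) {a b : Z} {w : List (S × Bool)} (h : Wk D a w b) :
    ∃ w', Rd w' ∧ Wk D a w' b ∧ w'.length ≤ w.length ∧ mk w' = mk w := by
  classical
  exact ⟨reduce w, FreeGroup.IsReduced.of_reduce_eq reduce.idem, h.red hD reduce.red,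
    Red.length_le reduce.red, reduce.self⟩

theorem reduced_eq {w w' : List (S × Bool)} (h : Rd w) (h' : Rd w')
    (e : mk w = mk w') : w = w' := by
  classical
  rw [← FreeGroup.IsReduced.reduce_eq h, ← FreeGroup.IsReduced.reduce_eq h']; exact reduce.sound e

theorem Wk.eq_of_mk (hD : Fold D) {a b b' : Z} {w w' : List (S × Bool)} (h : Wk D a w b)
    (h' : Wk D a w' b') (e : mk w = mk w') : b = b' := by
  obtain ⟨u, hu, h1, -, e1⟩ := h.exists_reduced hD
  obtain ⟨u', hu', h1', -, e1'⟩ := h'.exists_reduced hD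
  obtain rfl := reduced_eq hu hu' (by rw [e1, e1', e])
  exact h1.func hD h1'

/-- a reduced word freely equal to a readable word is readable -/
theorem Wk.of_mk (hD : Fold D) {a b : Z} {w w' : List (S × Bool)} (h : Wk D a w b)
    (hr : Rd w') (e : mk w = mk w') : Wk D a w' b := by
  obtain ⟨u, hu, h1, -, e1⟩ := h.exists_reduced hD
  obtain rfl := reduced_eq hu hr (by rw [e1, e])
  exact h1

theorem red_pair {a b : S × Bool} : (a.1 = b.1 → a.2 = b.2) ↔ b ≠ iv a := by
  rcases a with ⟨s, c⟩; rcases b with ⟨t, d⟩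
  cases c <;> cases d <;> simp [iv, eq_comm]

theorem isReduced_cons' {l : S × Bool} {w : List (S × Bool)} :
    Rd (l :: w) ↔ Rd w ∧ ∀ l', w.head? = some l' → l' ≠ iv l := by
  cases w with
  | nil => simp
  | cons m w => unfold Rd; rw [isReduced_cons_cons, red_pair]; simp [and_comm]

theorem isReduced_append {w w' : List (S × Bool)} :
    Rd (w ++ w') ↔ Rd w ∧ Rd w' ∧
      ∀ a, w.getLast? = some a → ∀ b, w'.head? = some b → b ≠ iv a := by
  unfold Rd FreeGroup.IsReduced
  rw [List.isChain_append]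
  simp only [Option.mem_def, red_pair]

theorem Rd.left' {w w' : List (S × Bool)} (h : Rd (w ++ w')) : Rd w :=
  (isReduced_append.1 h).1

theorem Rd.right' {w w' : List (S × Bool)} (h : Rd (w ++ w')) : Rd w' :=
  (isReduced_append.1 h).2.1

theorem isReduced_snoc {w : List (S × Bool)} {l : S × Bool} :
    Rd (w ++ [l]) ↔ Rd w ∧ ∀ a, w.getLast? = some a → l ≠ iv a := by
  simp [isReduced_append]

theorem isReduced_invRev {w : List (S × Bool)} (h : Rd w) : Rd (invRev w) := by
  classical
  apply FreeGroup.IsReduced.of_reduce_eq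
  rw [reduce_invRev, FreeGroup.IsReduced.reduce_eq h]

theorem mk_append (w w' : List (S × Bool)) : mk (w ++ w') = mk w * mk w' := mul_mk.symm

theorem mk_invRev (w : List (S × Bool)) : mk (invRev w) = (mk w)⁻¹ := inv_mk.symm

theorem mk_nil : mk ([] : List (S × Bool)) = 1 := rfl

/-- heights change by at most one along darts -/
theorem Wk.height_le (h : Z → ℕ) (hh : ∀ a l b, D a l b → h b ≤ h a + 1)
    {a b : Z} {w : List (S × Bool)} (hw : Wk D a w b) : h b ≤ h a + w.length := by
  induction hw with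
  | nil z => simp
  | cons h1 _ ih => have := hh _ _ _ h1; simp only [List.length_cons]; omega

/-- a walk all of whose darts go down is reduced -/
theorem Wk.reduced_of_down (hD : Fold D) (h : Z → ℕ) {D' : Z → S × Bool → Z → Prop}
    (hD' : ∀ a l b, D' a l b → D a l b ∧ h b < h a)
    {a b : Z} {w : List (S × Bool)} (hw : Wk D' a w b) : Rd w := by
  induction hw with
  | nil z => simp
  | @cons a b c l w h1 h2 ih =>
    rw [isReduced_cons']
    refine ⟨ih, fun l' hl' e => ?_⟩
    cases w with
    | nil => simp at hl'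
    | cons m w =>
      simp only [List.head?_cons, Option.some.injEq] at hl'
      subst hl'
      obtain ⟨d, h3, -⟩ := wk_cons.1 h2
      have e1 := hD.symm (hD' _ _ _ h1).1
      rw [← e] at e1
      have := hD.func e1 (hD' _ _ _ h3).1
      subst this
      have := (hD' _ _ _ h1).2
      have := (hD' _ _ _ h3).2
      omega

theorem exists_split_len (w : List S') (k : ℕ) (hk : k ≤ w.length) :
    ∃ w₁ w₂, w = w₁ ++ w₂ ∧ w₁.length = k :=
  ⟨w.take k, w.drop k, (List.take_append_drop k w).symm, by simp [hk]⟩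

end Pool.Agent.Lib.MP_f40e16_al
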