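import Pool.Agent.Lib.MP_f40e16_al.Overlap

set_option autoImplicit false

namespace Pool.Agent.Lib.MP_f40e16_al

open FreeGroup Base

variable {B : Base}

def InT (σ : Set (Cell B)) (v : U B) (x : B.V) (y : B.W) : Prop := ∃ p, Rch σ v x p ∧ p.2.1 = y

open Classical in
noncomputable def pt (σ : Set (Cell B)) (v : U B) (x : B.V) (y : B.W) : U B × B.W × ℤ :=
  if h : InT σ v x y then h.choose else (U.o, y, 0)

noncomputable def H (σ : Set (Cell B)) (v : U B) (x : B.V) (y : B.W) : ℕ :=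
  sInf {n | ∃ p w, Rch σ v x p ∧ Wk B.XD p.2.1 w y ∧ n = p.1.ht + w.length}

def HasName (σ : Set (Cell B)) (v : U B) (x : B.V) (e : B.Ed) (a : Nm B) : Prop :=
  ∃ p q l, Rch σ v x p ∧ Rch σ v x q ∧ B.XX p.2.1 l e q.2.1 ∧
    ∃ Q ∈ σ, ∃ z e₁ z', Q.In z ∧ B.XX z l e₁ z' ∧ Q.φ z = p.1 ∧ Q.ν e₁ = a

open Classical in
noncomputable def newCell (σ : Set (Cell B)) (v : U B) (x : B.V) : Cell B where
  v := v
  x := x
  φ y := if InT σ v x y then (pt σ v x y).1 else U.new v x y (H σ v x y)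
  ψ y := (pt σ v x y).2.2
  ν e := if h : ∃ a, HasName σ v x e a then h.choose else ((v, x), e)

variable {σ : Set (Cell B)} {v : U B} {x : B.V}

theorem Rch.inT {p : U B × B.W × ℤ} (h : Rch σ v x p) : InT σ v x p.2.1 := ⟨p, h, rfl⟩

theorem phi_not {y : B.W} (h : ¬ InT σ v x y) :
    (newCell σ v x).φ y = U.new v x y (H σ v x y) := by simp [newCell, h]

theorem H_le {p : U B × B.W × ℤ} (h : Rch σ v x p) {w : List B.L} {y : B.W}
    (hw : Wk B.XD p.2.1 w y) : H σ v x y ≤ p.1.ht + w.length :=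
  Nat.sInf_le ⟨p, w, h, hw, rfl⟩

theorem H_spec {y : B.W} (h : B.Cp x y) : ∃ p w, Rch σ v x p ∧ Rd w ∧ Wk B.XD p.2.1 w y ∧
    H σ v x y = p.1.ht + w.length := by
  obtain ⟨w₀, h₀⟩ := h
  have : H σ v x y ∈ {n | ∃ p w, Rch σ v x p ∧ Wk B.XD p.2.1 w y ∧ n = p.1.ht + w.length} :=
    Nat.sInf_mem ⟨_, _, w₀, Rch.base, h₀, rfl⟩
  obtain ⟨p, w, h1, h2, h3⟩ := this
  obtain ⟨w', a1, a2, a3, -⟩ := h2.exists_reduced fold_XD
  have := H_le h1 a2
  exact ⟨p, w', h1, a1, a2, by omega⟩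

theorem H_step {y y' : B.W} {l : B.L} (h : B.Cp x y) (h' : B.XD y l y') :
    H σ v x y' ≤ H σ v x y + 1 := by
  obtain ⟨p, w, h1, -, h3, h4⟩ := H_spec (σ := σ) (v := v) h
  have := H_le h1 (h3.snoc h')
  simp at this; omega

namespace Att

variable (A : Att σ v x)
include A

theorem pt_eq {p : U B × B.W × ℤ} (h : Rch σ v x p) : pt σ v x p.2.1 = p := by
  have h' := h.inT
  rw [pt, dif_pos h']
  exact A.inj_x h'.choose_spec.1 h h'.choose_spec.2

theorem phi_T {p : U B × B.W × ℤ} (h : Rch σ v x p) : (newCell σ v x).φ p.2.1 = p.1 := by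
  simp [newCell, h.inT, A.pt_eq h]

theorem psi_T {p : U B × B.W × ℤ} (h : Rch σ v x p) : (newCell σ v x).ψ p.2.1 = p.2.2 := by
  simp [newCell, A.pt_eq h]

theorem fresh {u : U B} (h : Ex σ u) (y : B.W) (k : ℕ) : u ≠ U.new v x y k := by
  rintro rfl
  obtain ⟨Q, hQ, z, -, ⟨k', h2⟩, h3⟩ := A.good.exists_owner h (by simp)
  rw [h3] at h2
  injection h2 with e1 e2 e3 e4
  exact A.nsat ⟨Q, hQ, _, Q.in_root, by rw [A.good.root Q hQ, e1], e2.symm⟩

theorem new_iff {y : B.W} : (newCell σ v x).New y ↔ ¬ InT σ v x y := by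
  constructor
  · rintro ⟨k, h⟩ ⟨p, hp, rfl⟩
    rw [A.phi_T hp] at h
    exact A.fresh (A.rch_ex hp) _ _ h
  · intro h; exact ⟨_, phi_not h⟩

theorem inT_of_ex {y : B.W} (h : Ex σ ((newCell σ v x).φ y)) :
    ∃ p, Rch σ v x p ∧ p.2.1 = y ∧ p.1 = (newCell σ v x).φ y := by
  by_cases hy : InT σ v x y
  · obtain ⟨p, hp, rfl⟩ := hy
    exact ⟨p, hp, rfl, (A.phi_T hp).symm⟩
  · rw [phi_not hy] at h
    exact absurd rfl (A.fresh h _ _)

theorem pd_ht {p q : U B × B.W × ℤ} {w : List B.L} (h : Wk (PD σ) p w q) :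
    q.1.ht ≤ p.1.ht + w.length :=
  h.height_le (fun p => p.1.ht) fun a l b h => by
    have := A.good.dart_step h.dart
    omega

theorem ht_lt {p : U B × B.W × ℤ} (h : Rch σ v x p) : p.1.ht < v.ht + 3 * B.ell x := by
  obtain ⟨w, -, a2, a3⟩ := A.exists_red h
  have := A.pd_ht a2
  simp only at this; omega

theorem ht_le_walk {p q : U B × B.W × ℤ} (hp : Rch σ v x p) (hq : Rch σ v x q) {w : List B.L}
    (hw : Wk B.XD p.2.1 w q.2.1) : q.1.ht ≤ p.1.ht + w.length := by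
  obtain ⟨w', a1, a2, a3, -⟩ := hw.exists_reduced fold_XD
  by_cases hl : w'.length ≤ 34 * B.ell x
  · have := A.pd_ht (A.tw hp hq a2 a1 hl); omega
  · have := A.ht_lt hq
    have := A.f2 hp
    omega

theorem H_T {p : U B × B.W × ℤ} (h : Rch σ v x p) : H σ v x p.2.1 = p.1.ht := by
  obtain ⟨q, w, h1, -, h3, h4⟩ := H_spec (σ := σ) (v := v) h.cp
  have := A.ht_le_walk h1 h h3
  have := H_le h (Wk.nil _)
  simp at this; omega

theorem h_eq (y : B.W) : (newCell σ v x).h y = H σ v x y := by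
  by_cases hy : InT σ v x y
  · obtain ⟨p, hp, rfl⟩ := hy
    rw [Cell.h, A.phi_T hp, A.H_T hp]
  · rw [Cell.h, phi_not hy]; rfl

theorem rch_par {p : U B × B.W × ℤ} (h : Rch σ v x p) :
    (p.1.ht : ZMod 2) = v.ht + tot p.2.1.2 := by
  obtain ⟨w, h⟩ := h
  refine h.ind_end (fun p => (p.1.ht : ZMod 2) = v.ht + tot p.2.1.2) ?_ (by simp [tot])
  intro a l b ha hab
  have h1 := tot_walk (wk_single.2 hab.xd)
  simp only [List.length_singleton, Nat.cast_one] at h1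
  rw [h1, ← add_assoc, ← ha]
  rcases A.good.dart_step hab.dart with h2 | h2
  · rw [h2]; simp
  · rw [h2]; push_cast; rw [add_assoc, CharTwo.add_self_eq_zero, add_zero]

theorem H_par {y : B.W} (h : B.Cp x y) : (H σ v x y : ZMod 2) = v.ht + tot y.2 := by
  obtain ⟨p, w, h1, -, h3, h4⟩ := H_spec (σ := σ) (v := v) h
  rw [h4, tot_walk h3]; push_cast; rw [A.rch_par h1]; ring

theorem H_step' {y y' : B.W} {l : B.L} (h : B.Cp x y) (h' : B.XD y l y') :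
    H σ v x y' = H σ v x y + 1 ∨ H σ v x y = H σ v x y' + 1 := by
  have a1 := H_step (σ := σ) (v := v) h h'
  have a2 := H_step (σ := σ) (v := v) (h.step h') (fold_XD.symm h')
  have a3 : H σ v x y ≠ H σ v x y' := by
    intro e
    have b1 := A.H_par h
    have b2 := A.H_par (h.step h')
    rw [tot_walk (wk_single.2 h'), ← e, b1] at b2
    simp at b2
  omega

theorem le_H {y : B.W} (h : B.Cp x y) : v.ht ≤ H σ v x y := by
  obtain ⟨p, w, h1, -, -, h4⟩ := H_spec (σ := σ) (v := v) h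
  have := A.f2 h1; omega

omit A in
theorem H_down {y : B.W} (h : B.Cp x y) (hy : ¬ InT σ v x y) :
    ∃ l y', B.XD y l y' ∧ H σ v x y' < H σ v x y := by
  obtain ⟨p, w, h1, -, h3, h4⟩ := H_spec (σ := σ) (v := v) h
  induction w using List.reverseRecOn with
  | nil => exact absurd ⟨p, h1, wk_nil.1 h3⟩ hy
  | append_singleton w l _ =>
    obtain ⟨y', a1, a2⟩ := wk_snoc.1 h3
    have := H_le h1 a1
    exact ⟨iv l, y', fold_XD.symm a2, by simp at h4; omega⟩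

theorem lt_H {y : B.W} (h : B.Cp x y) (hy : ¬ InT σ v x y) : v.ht < H σ v x y := by
  obtain ⟨l, y', a1, a2⟩ := H_down h hy
  have := A.le_H (h.step a1); omega

theorem H_up {q : U B × B.W × ℤ} (hq : Rch σ v x q) {l : B.L} {y' : B.W} (h : B.XD q.2.1 l y')
    (hy : ¬ InT σ v x y') : q.1.ht < H σ v x y' := by
  by_contra hc
  obtain ⟨p, w, h1, h2, h3, h4⟩ := H_spec (σ := σ) (v := v) (hq.cp.step h)
  have b1 := A.ht_lt hq
  have b2 := A.f2 h1
  have b3 := B.ell_pos x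
  by_cases hr : Rd (w ++ [iv l])
  · have := A.tw h1 hq (h3.snoc (fold_XD.symm h)) hr (by simp; omega)
    obtain ⟨r, a1, -⟩ := wk_snoc.1 this
    exact hy ⟨r, h1.walk a1, (pd_walk_xd a1).func fold_XD h3⟩
  · rw [isReduced_snoc] at hr
    push Not at hr
    obtain ⟨a, ha, e⟩ := hr h2
    obtain rfl := iv_inj e
    obtain ⟨w', rfl⟩ : ∃ w', w = w' ++ [l] := List.getLast?_eq_some_iff.1 ha
    obtain ⟨y₁, a1, a2⟩ := wk_snoc.1 h3
    obtain rfl : y₁ = q.2.1 := fold_XD.func (fold_XD.symm a2) (fold_XD.symm h)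
    have := A.ht_le_walk h1 hq a1
    simp at h4; omega

theorem tt {p q : U B × B.W × ℤ} (hp : Rch σ v x p) (hq : Rch σ v x q) {l : B.L}
    (h : B.XD p.2.1 l q.2.1) : PD σ p l q := by
  have := B.ell_pos x
  exact wk_single.1 (A.tw hp hq (wk_single.2 h) (by simp) (by simp; omega))

theorem inj_new {z z' : B.W} (h : (newCell σ v x).φ z = (newCell σ v x).φ z') : z = z' := by
  by_cases hz : InT σ v x z
  · obtain ⟨p, hp, rfl⟩ := hz
    obtain ⟨q, hq, rfl, e⟩ := A.inT_of_ex (y := z') (by rw [← h, A.phi_T hp]; exact A.rch_ex hp)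
    rw [A.inj_u hp hq (by rw [e, ← h, A.phi_T hp])]
  · by_cases hz' : InT σ v x z'
    · obtain ⟨p, hp, rfl⟩ := hz'
      rw [A.phi_T hp, phi_not hz] at h
      exact absurd h.symm (A.fresh (A.rch_ex hp) _ _)
    · rw [phi_not hz, phi_not hz'] at h
      injection h

/-- a dart shared between the new cell and an old one -/
theorem shared {Q : Cell B} (hQ : Q ∈ σ) {y y₁ z z₁ : B.W} {l : B.L} {e e' : B.Ed} (h1 : Q.In z)
    (h2 : B.XX y l e y₁) (h3 : B.XX z l e' z₁) (h4 : (newCell σ v x).φ y = Q.φ z) :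
    ∃ p q, Rch σ v x p ∧ Rch σ v x q ∧ p.2.1 = y ∧ q.2.1 = y₁ ∧ p.1 = Q.φ z ∧ q.1 = Q.φ z₁ ∧
      q.2.2 = p.2.2 + (sg l (B.J e') + Q.ψ z₁ - Q.ψ z) - sg l (B.J e) := by
  obtain ⟨p, hp, rfl, e1⟩ := A.inT_of_ex (y := y) (Or.inr ⟨Q, hQ, z, h1, h4.symm⟩)
  have : PD σ p l (Q.φ z₁, y₁, p.2.2 + (sg l (B.J e') + Q.ψ z₁ - Q.ψ z) - sg l (B.J e)) :=
    ⟨Q, hQ, z, z₁, e', e, h1, h3, h4.symm.trans e1.symm, rfl, h2, rfl⟩
  exact ⟨p, _, hp, hp.step this, rfl, rfl, e1.trans h4, rfl, rfl⟩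

theorem name_uniq {e : B.Ed} {a a' : Nm B} (h : HasName σ v x e a) (h' : HasName σ v x e a') :
    a = a' := by
  obtain ⟨p, q, l, h1, h2, h3, Q, hQ, z, e₁, z', h4, h5, h6, rfl⟩ := h
  obtain ⟨p', q', l', k1, k2, k3, Q', hQ', y, f₁, y', k4, k5, k6, rfl⟩ := h'
  obtain ⟨τ, -, a2, a3⟩ := A.exists_red h1
  obtain ⟨τ', -, b2, b3⟩ := A.exists_red k1
  have := B.ell_pos x
  have c := pd_walk_xd ((a2.rev A.good.fold_pd).append b2)
  rcases same_edge h3 k3 c (by rw [h1.cp.ell_eq]; simp; omega) with ⟨e1, rfl, -⟩ | ⟨e1, rfl, e2⟩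
  · obtain rfl := A.inj_x k1 h1 e1
    exact A.good.nu Q hQ Q' hQ' z y _ e₁ f₁ z' y' h4 k4 h5 k5 (h6.trans k6.symm)
  · obtain rfl := A.inj_x k1 h2 e1
    have d1 := (A.tt h1 k1 ⟨e, h3⟩).dart
    have d2 := dart_of hQ h4 ⟨e₁, h5⟩
    rw [h6] at d2
    exact A.good.nu Q hQ Q' hQ' z' y _ e₁ f₁ z y' (h4.step ⟨e₁, h5⟩) k4 h5.symm k5
      ((A.good.fold_dart.func d2 d1).trans k6.symm)

theorem nu_eq {e : B.Ed} {a : Nm B} (h : HasName σ v x e a) : (newCell σ v x).ν e = a := by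
  have h' : ∃ a, HasName σ v x e a := ⟨a, h⟩
  simp only [newCell, dif_pos h']
  exact A.name_uniq h'.choose_spec h

theorem good_insert : Good (insert (newCell σ v x) σ) := by
  have G := A.good
  have hs : σ ⊆ insert (newCell σ v x) σ := Set.subset_insert _ _
  have exo : ∀ {Q : Cell B}, Q ∈ σ → ∀ {z}, Q.In z → Ex σ (Q.φ z) :=
    fun hQ z h => Or.inr ⟨_, hQ, z, h, rfl⟩
  have notNew : ∀ {z}, ¬ (newCell σ v x).New z → ∃ p, Rch σ v x p ∧ p.2.1 = z := by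
    intro z h
    rw [A.new_iff, not_not] at h
    exact h
  have notNew' : ∀ {p}, Rch σ v x p → ¬ (newCell σ v x).New p.2.1 := by
    intro p h
    rw [A.new_iff, not_not]
    exact h.inT
  have foldC : ∀ Q' ∈ σ, ∀ z z' l z₁ z₁', Q'.In z' → B.XD z l z₁ → B.XD z' l z₁' →
      (newCell σ v x).φ z = Q'.φ z' → (newCell σ v x).φ z₁ = Q'.φ z₁' := by
    rintro Q' hQ' z z' l z₁ z₁' h2 ⟨e, h3⟩ ⟨e', h4⟩ h5
    obtain ⟨p, q, -, a2, -, rfl, -, a6, -⟩ := A.shared hQ' h2 h3 h4 h5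
    rw [A.phi_T a2, a6]
  have uniqC : ∀ Q' ∈ σ, ∀ z z', Q'.In z' → (newCell σ v x).φ z = Q'.φ z' → z.1 ≠ z'.1 := by
    intro Q' hQ' z z' h2 h3 h4
    obtain ⟨p, hp, rfl, e⟩ := A.inT_of_ex (y := z) (h3 ▸ exo hQ' h2)
    exact A.f1 hp ⟨Q', hQ', z', h2, h3.symm.trans e.symm, h4.symm⟩
  have psiC : ∀ Q' ∈ σ, ∀ z z' l e e' z₁ z₁', Q'.In z' → B.XX z l e z₁ →
      B.XX z' l e' z₁' → (newCell σ v x).φ z = Q'.φ z' →
      sg l (B.J e) + (newCell σ v x).ψ z₁ - (newCell σ v x).ψ z =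
        sg l (B.J e') + Q'.ψ z₁' - Q'.ψ z' := by
    intro Q' hQ' z z' l e e' z₁ z₁' h2 h3 h4 h5
    obtain ⟨p, q, a1, a2, rfl, rfl, -, -, a7⟩ := A.shared hQ' h2 h3 h4 h5
    rw [A.psi_T a1, A.psi_T a2, a7]; ring
  have nuC : ∀ Q' ∈ σ, ∀ z z' l e e' z₁ z₁', Q'.In z' → B.XX z l e z₁ →
      B.XX z' l e' z₁' → (newCell σ v x).φ z = Q'.φ z' → (newCell σ v x).ν e = Q'.ν e' := by
    intro Q' hQ' z z' l e e' z₁ z₁' h2 h3 h4 h5
    obtain ⟨p, q, a1, a2, rfl, rfl, a5, -, -⟩ := A.shared hQ' h2 h3 h4 h5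
    exact A.nu_eq ⟨p, q, l, a1, a2, h3, Q', hQ', z', e', z₁', h2, h4, a5.symm, rfl⟩
  refine
    { root := ?_, inj := ?_, own := ?_, fold := ?_, uniq := ?_, step := ?_, down := ?_,
      downo := ?_, tree := ?_, old := ?_, lvl_le := ?_, g10 := ?_, pred := ?_, compl := ?_,
      psi := ?_, nu := ?_, nuo := ?_ }
  · rintro Q (rfl | hQ)
    · exact A.phi_T Rch.base
    · exact G.root Q hQ
  · rintro Q (rfl | hQ) z z' h1 h2 h3
    · exact A.inj_new h3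
    · exact G.inj Q hQ z z' h1 h2 h3
  · rintro Q (rfl | hQ) z h1
    · by_cases hn : (newCell σ v x).New z
      · exact Or.inl hn
      · obtain ⟨p, hp, rfl⟩ := notNew hn
        right
        rw [A.phi_T hp]
        by_cases ho : p.1 = U.o
        · exact Or.inl ho
        · obtain ⟨Q', hQ', z', a1, a2, a3⟩ := G.exists_owner (A.rch_ex hp) ho
          exact Or.inr ⟨Q', hs hQ', z', a1, a2, a3, A.all_old hQ'⟩
    · rcases G.own Q hQ z h1 with h | h | ⟨Q', hQ', h⟩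
      · exact Or.inl h
      · exact Or.inr (Or.inl h)
      · exact Or.inr (Or.inr ⟨Q', hs hQ', h⟩)
  · rintro Q (rfl | hQ) Q' (rfl | hQ') z z' l z₁ z₁' h1 h2 h3 h4 h5
    · obtain rfl := A.inj_new h5
      rw [fold_XD.func h3 h4]
    · exact foldC Q' hQ' z z' l z₁ z₁' h2 h3 h4 h5
    · exact (foldC Q hQ z' z l z₁' z₁ h1 h4 h3 h5.symm).symm
    · exact G.fold Q hQ Q' hQ' z z' l z₁ z₁' h1 h2 h3 h4 h5
  · rintro Q (rfl | hQ) Q' (rfl | hQ') z z' h1 h2 h3 h4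
    · rfl
    · exact absurd h4 (uniqC Q' hQ' z z' h2 h3)
    · exact absurd h4.symm (uniqC Q hQ z' z h1 h3.symm)
    · exact G.uniq Q hQ Q' hQ' z z' h1 h2 h3 h4
  · rintro Q (rfl | hQ) z l z' h1 h2
    · rw [A.h_eq, A.h_eq]; exact A.H_step' h1 h2
    · exact G.step Q hQ z l z' h1 h2
  · rintro Q (rfl | hQ) z h1 h2
    · simp only [A.h_eq]; exact H_down h1 (A.new_iff.1 h2)
    · exact G.down Q hQ z h1 h2
  · rintro Q (rfl | hQ) Q' (rfl | hQ') z z₁ l z₁' h1 h2 h3 h4 h5 h6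
    · obtain rfl := A.inj_new h5
      exact ⟨z₁', h4⟩
    · obtain ⟨k, hk⟩ := h2
      exact absurd (h5.trans hk) (A.fresh (exo hQ' h3) _ _)
    · obtain ⟨p, hp, rfl, e⟩ := A.inT_of_ex (y := z₁) (h5 ▸ exo hQ h1)
      rw [A.h_eq, A.h_eq, A.H_T hp] at h6
      by_cases hy : InT σ v x z₁'
      · obtain ⟨q, hq, rfl⟩ := hy
        rw [A.H_T hq] at h6
        have d := (A.tt hp hq h4).dart
        rw [e, h5] at d h6
        obtain ⟨z', a1, -⟩ := G.down_in hQ h1 h2 d h6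
        exact ⟨z', a1⟩
      · have := A.H_up hp h4 hy
        omega
    · exact G.downo Q hQ Q' hQ' z z₁ l z₁' h1 h2 h3 h4 h5 h6
  · rintro Q (rfl | hQ) z h1 h2
    · obtain ⟨p, hp, rfl⟩ := notNew h2
      obtain ⟨τ, a1, a2, a3⟩ := A.exists_red hp
      refine ⟨τ, a1, ?_, a3⟩
      have key : ∀ {a b : U B × B.W × ℤ} {w}, Wk (PD σ) a w b → Rch σ v x a →
          Wk (newCell σ v x).TD a.2.1 w b.2.1 := by
        intro a b w hw
        induction hw with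
        | nil _ => intro _; exact Wk.nil _
        | cons h3 _ ih =>
          intro ha
          exact Wk.cons ⟨h3.xd, notNew' ha, notNew' (ha.step h3)⟩ (ih (ha.step h3))
      exact key a2 Rch.base
    · exact G.tree Q hQ z h1 h2
  · rintro Q (rfl | hQ) z l z' h1 h2
    · obtain ⟨p, hp, rfl⟩ := notNew h2.2.1
      obtain ⟨q, hq, rfl⟩ := notNew h2.2.2
      obtain ⟨Q', hQ', z₁, z₁', a1, a2, a3, -⟩ := (A.tt hp hq h2.1).dart
      exact ⟨Q', hs hQ', A.all_old hQ', z₁, z₁', a1, a2, by rw [A.phi_T hp, a3]⟩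
    · obtain ⟨Q', hQ', h⟩ := G.old Q hQ z l z' h1 h2
      exact ⟨Q', hs hQ', h⟩
  · rintro Q (rfl | hQ) z h1
    · rw [A.h_eq]; exact A.le_H h1
    · exact G.lvl_le Q hQ z h1
  · rintro Q (rfl | hQ) z h1 h2
    · obtain ⟨p, hp, rfl⟩ := notNew h2
      obtain ⟨τ, a1, a2, -⟩ := A.exists_red hp
      rcases A.g10 a1 a2 with rfl | ⟨w', l, q, -, h⟩ | h
      · rw [wk_nil] at a2; subst a2; exact Or.inl rfl
      · refine Or.inr (Or.inl ⟨l, q.2.1, h.1.xd, ?_⟩)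
        rw [A.h_eq, A.h_eq, A.H_T hp, A.H_T (hp.step h.1)]
        exact h.2
      · rw [A.phi_T hp]; exact Or.inr (Or.inr (h.mono hs))
    · rcases G.g10 Q hQ z h1 h2 with h | h | h
      · exact Or.inl h
      · exact Or.inr (Or.inl h)
      · exact Or.inr (Or.inr (h.mono hs))
  · rintro Q (rfl | hQ) Z (rfl | hZ) z z' h1 h2 h3 h4 h5 h6
    · obtain rfl := A.inj_new h5
      exact absurd h4 h2
    · obtain ⟨p, hp, rfl⟩ := notNew h2
      obtain ⟨τ, a1, a2, -⟩ := A.exists_red hp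
      rw [A.phi_T hp] at h5
      obtain ⟨z₀, b1, b2, b3, b4⟩ := A.goal3 a1 a2 hZ h3 h5 (by rw [← h5]; exact h6)
      exact ⟨z₀, b1, b2, b3, τ, a1, pd_walk_xd a2, b4⟩
    · obtain ⟨k, hk⟩ := h4
      exact absurd (h5.symm.trans hk) (A.fresh (exo hQ h1) _ _)
    · exact G.pred Q hQ Z hZ z z' h1 h2 h3 h4 h5 h6
  · intro Q hQ u y h1 h2
    have hex : Ex σ u := by
      rcases h1 with rfl | ⟨Q', rfl | hQ', z, a1, rfl⟩
      · exact Or.inl rfl
      · by_cases hz : InT σ v x z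
        · obtain ⟨p, hp, rfl⟩ := hz
          rw [A.phi_T hp]; exact A.rch_ex hp
        · exfalso
          have b1 := A.lt_H a1 hz
          have b2 := h2.le
          rw [← A.h_eq] at b1
          have b3 : Q.id.1.ht ≤ v.ht := by
            rcases hQ with rfl | hQ
            · exact le_rfl
            · exact A.lvl_le hQ
          simp only [Cell.h] at b1 b2
          omega
      · exact exo hQ' a1
    rcases hQ with rfl | hQ
    · exact (A.min u y hex h2).mono hs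
    · exact (G.compl Q hQ u y hex h2).mono hs
  · rintro Q (rfl | hQ) Q' (rfl | hQ') z z' l e e' z₁ z₁' h1 h2 h3 h4 h5
    · obtain rfl := A.inj_new h5
      obtain ⟨rfl, rfl⟩ := h3.func h4
      rfl
    · exact psiC Q' hQ' z z' l e e' z₁ z₁' h2 h3 h4 h5
    · exact (psiC Q hQ z' z l e' e z₁' z₁ h1 h4 h3 h5.symm).symm
    · exact G.psi Q hQ Q' hQ' z z' l e e' z₁ z₁' h1 h2 h3 h4 h5
  · rintro Q (rfl | hQ) Q' (rfl | hQ') z z' l e e' z₁ z₁' h1 h2 h3 h4 h5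
    · obtain rfl := A.inj_new h5
      obtain ⟨rfl, rfl⟩ := h3.func h4
      rfl
    · exact nuC Q' hQ' z z' l e e' z₁ z₁' h2 h3 h4 h5
    · exact (nuC Q hQ z' z l e' e z₁' z₁ h1 h4 h3 h5.symm).symm
    · exact G.nu Q hQ Q' hQ' z z' l e e' z₁ z₁' h1 h2 h3 h4 h5
  · rintro Q (rfl | hQ) e
    · by_cases h : ∃ a, HasName σ v x e a
      · obtain ⟨a, p, q, l, a1, a2, a3, -⟩ := h
        exact Or.inl ⟨p.2.1, l, q.2.1, a1.cp, a3, notNew' a1, notNew' a2⟩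
      · right
        simp only [newCell, dif_neg h]; rfl
    · exact G.nuo Q hQ e

end Att

end Pool.Agent.Lib.MP_f40e16_al
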