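import Pool.Agent.Lib.MP_f40e16_al.Walk

set_option autoImplicit false

namespace Pool.Agent.Lib.MP_f40e16_al

open FreeGroup

/-- darts of an oriented multigraph, the letter being the edge itself -/
def YE {V Ed : Type} (tl hd : Ed → V) (x : V) (m : Ed × Bool) (y : V) : Prop :=
  (m.2 = true ∧ tl m.1 = x ∧ hd m.1 = y) ∨ (m.2 = false ∧ hd m.1 = x ∧ tl m.1 = y)

theorem fold_YE {V Ed : Type} (tl hd : Ed → V) : Fold (YE tl hd) where
  symm := by
    rintro a b ⟨e, c⟩ h
    cases c <;> simp [YE, iv] at h ⊢ <;> tauto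
  func := by
    rintro a b c ⟨e, d⟩ h h'
    cases d <;> simp [YE] at h h' <;> rw [← h.2, ← h'.2]

theorem YE.det {V Ed : Type} {tl hd : Ed → V} {x y x' y' : V} {m : Ed × Bool}
    (h : YE tl hd x m y) (h' : YE tl hd x' m y') : x = x' ∧ y = y' := by
  rcases h with ⟨a1, a2, a3⟩ | ⟨a1, a2, a3⟩ <;> rcases h' with ⟨b1, b2, b3⟩ | ⟨b1, b2, b3⟩
  · exact ⟨a2.symm.trans b2, a3.symm.trans b3⟩
  · rw [a1] at b1; cases b1
  · rw [a1] at b1; cases b1
  · exact ⟨a2.symm.trans b2, a3.symm.trans b3⟩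

/-- relabelling of letters -/
def lm {Ed S : Type} (lab : Ed → S) (m : Ed × Bool) : S × Bool := (lab m.1, m.2)

/-- the edges used by a walk -/
def edgeSet {Ed : Type} (es : List (Ed × Bool)) : Set Ed := {e | ∃ b, (e, b) ∈ es}

theorem edgeSet_finite {Ed : Type} (es : List (Ed × Bool)) : (edgeSet es).Finite := by
  refine ((List.finite_toSet es).image Prod.fst).subset ?_
  rintro e ⟨b, h⟩
  exact ⟨(e, b), h, rfl⟩

/-- the combinatorial input of the construction -/
structure Base where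
  mkBase ::
  S : Type
  V : Type
  Ed : Type
  tl : Ed → V
  hd : Ed → V
  lab : Ed → S
  ell : V → ℕ
  J : Ed → ℤ
  tl_inj : ∀ e e', tl e = tl e' → lab e = lab e' → e = e'
  hd_inj : ∀ e e', hd e = hd e' → lab e = lab e' → e = e'
  ell_hd : ∀ e, ell (hd e) = ell (tl e)
  ell_pos : ∀ x, 1 ≤ ell x
  girth : ∀ x es, Wk (YE tl hd) x es x → Rd es → es.length < 40 * ell x → es = []
  piece : ∀ x y es fs x' y', x ≠ y → ell y ≤ ell x → Wk (YE tl hd) x es x' →
    Wk (YE tl hd) y fs y' → es.map (lm lab) = fs.map (lm lab) → es.length = 2 * ell y →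
    (edgeSet es).ncard < ell y
  finV : ∀ R, {x | ell x ≤ R}.Finite
  finE : ∀ R, {e | ell (tl e) ≤ R}.Finite
  surj : ∀ s, ∃ e, lab e = s
  finS : Finite S

namespace Base

variable (B : Base)

/-- letters -/
abbrev L := B.S × Bool

/-- vertices of the mod two homology cover -/
abbrev W := B.V × (B.Ed →₀ ZMod 2)

def YX (x : B.V) (l : B.L) (e : B.Ed) (y : B.V) : Prop :=
  l.1 = B.lab e ∧ YE B.tl B.hd x (e, l.2) y

def YD (x : B.V) (l : B.L) (y : B.V) : Prop := ∃ e, B.YX x l e y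

def XX (z : B.W) (l : B.L) (e : B.Ed) (z' : B.W) : Prop :=
  B.YX z.1 l e z'.1 ∧ z'.2 = z.2 + Finsupp.single e 1

def XD (z : B.W) (l : B.L) (z' : B.W) : Prop := ∃ e, B.XX z l e z'

/-- the component of the base point over `x` -/
def Cp (x : B.V) (z : B.W) : Prop := ∃ w, Wk B.XD (x, 0) w z

variable {B}

theorem YX.symm {x y : B.V} {l : B.L} {e : B.Ed} (h : B.YX x l e y) : B.YX y (iv l) e x :=
  ⟨h.1, (fold_YE B.tl B.hd).symm h.2⟩

theorem YX.func {x y y' : B.V} {l : B.L} {e e' : B.Ed} (h : B.YX x l e y) (h' : B.YX x l e' y') :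
    e = e' ∧ y = y' := by
  obtain ⟨s, b⟩ := l
  obtain ⟨h1, h2⟩ := h
  obtain ⟨h1', h2'⟩ := h'
  have : e = e' := by
    cases b
    · simp [YE] at h2 h2'
      exact B.hd_inj _ _ (h2.1.trans h2'.1.symm) (h1.symm.trans h1')
    · simp [YE] at h2 h2'
      exact B.tl_inj _ _ (h2.1.trans h2'.1.symm) (h1.symm.trans h1')
  subst this
  exact ⟨rfl, (fold_YE B.tl B.hd).func h2 h2'⟩

theorem fold_YD : Fold B.YD where
  symm := fun ⟨e, h⟩ => ⟨e, h.symm⟩
  func := fun ⟨_, h⟩ ⟨_, h'⟩ => (h.func h').2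

theorem add_single_single (ξ : B.Ed →₀ ZMod 2) (e : B.Ed) :
    ξ + Finsupp.single e 1 + Finsupp.single e 1 = ξ := by
  rw [add_assoc, ← Finsupp.single_add]
  have : (1 : ZMod 2) + 1 = 0 := by decide
  simp [this]

theorem add_self2 {α : Type} (ξ : α →₀ ZMod 2) : ξ + ξ = 0 := by
  ext a; simp [CharTwo.add_self_eq_zero]

theorem XX.symm {z z' : B.W} {l : B.L} {e : B.Ed} (h : B.XX z l e z') : B.XX z' (iv l) e z :=
  ⟨h.1.symm, by rw [h.2, add_single_single]⟩

theorem XX.func {z z₁ z₂ : B.W} {l : B.L} {e e' : B.Ed} (h : B.XX z l e z₁)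
    (h' : B.XX z l e' z₂) : e = e' ∧ z₁ = z₂ := by
  obtain ⟨rfl, h2⟩ := h.1.func h'.1
  exact ⟨rfl, Prod.ext h2 (by rw [h.2, h'.2])⟩

theorem fold_XD : Fold B.XD where
  symm := fun ⟨e, h⟩ => ⟨e, h.symm⟩
  func := fun ⟨_, h⟩ ⟨_, h'⟩ => (h.func h').2

theorem YX.ell_eq {x y : B.V} {l : B.L} {e : B.Ed} (h : B.YX x l e y) :
    B.ell y = B.ell x ∧ B.ell (B.tl e) = B.ell x := by
  have := B.ell_hd e
  rcases h.2 with ⟨-, h1, h2⟩ | ⟨-, h1, h2⟩ <;> simp only at h1 h2 <;> subst h1 h2 <;> omega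

theorem ell_YE {x y : B.V} {es : List (B.Ed × Bool)} (h : Wk (YE B.tl B.hd) x es y) :
    B.ell y = B.ell x := by
  refine h.ind_end (fun z => B.ell z = B.ell x) ?_ rfl
  rintro a ⟨e, c⟩ b ha h
  have := B.ell_hd e
  rcases h with ⟨-, h1, h2⟩ | ⟨-, h1, h2⟩ <;> simp only at h1 h2 <;> subst h1 h2 <;> omega

theorem ell_YD {x y : B.V} {w : List B.L} (h : Wk B.YD x w y) : B.ell y = B.ell x := by
  refine h.ind_end (fun z => B.ell z = B.ell x) ?_ rfl
  rintro a l b ha ⟨e, h⟩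
  rw [h.ell_eq.1, ha]

theorem proj {z z' : B.W} {w : List B.L} (h : Wk B.XD z w z') : Wk B.YD z.1 w z'.1 :=
  h.map Prod.fst fun _ _ _ ⟨e, h⟩ => ⟨e, h.1⟩

theorem ell_XD {z z' : B.W} {w : List B.L} (h : Wk B.XD z w z') : B.ell z'.1 = B.ell z.1 :=
  ell_YD (proj h)

theorem Cp.ell_eq {x : B.V} {z : B.W} (h : B.Cp x z) : B.ell z.1 = B.ell x := by
  obtain ⟨w, h⟩ := h; exact ell_XD h

theorem Cp.root (x : B.V) : B.Cp x (x, 0) := ⟨[], Wk.nil _⟩

theorem Cp.walk {x : B.V} {z z' : B.W} {w : List B.L} (h : B.Cp x z) (h' : Wk B.XD z w z') :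
    B.Cp x z' := by
  obtain ⟨w', h⟩ := h; exact ⟨_, h.append h'⟩

theorem Cp.step {x : B.V} {z z' : B.W} {l : B.L} (h : B.Cp x z) (h' : B.XD z l z') :
    B.Cp x z' := h.walk (wk_single.2 h')

theorem liftX {x y : B.V} {w : List B.L} (h : Wk B.YD x w y) (ξ : B.Ed →₀ ZMod 2) :
    ∃ ξ', Wk B.XD (x, ξ) w (y, ξ') := by
  induction h generalizing ξ with
  | nil z => exact ⟨ξ, Wk.nil _⟩
  | @cons a b c l w h1 _ ih =>
    obtain ⟨e, h1⟩ := h1
    obtain ⟨ξ', h⟩ := ih (ξ + Finsupp.single e 1)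
    exact ⟨ξ', Wk.cons ⟨e, h1, rfl⟩ h⟩

theorem liftE {x y : B.V} {w : List B.L} (h : Wk B.YD x w y) :
    ∃ es, Wk (YE B.tl B.hd) x es y ∧ es.map (lm B.lab) = w := by
  induction h with
  | nil z => exact ⟨[], Wk.nil _, rfl⟩
  | @cons a b c l w h1 _ ih =>
    obtain ⟨e, h1⟩ := h1
    obtain ⟨es, h, rfl⟩ := ih
    refine ⟨(e, l.2) :: es, Wk.cons h1.2 h, ?_⟩
    simp [lm, ← h1.1]

theorem projE {x y : B.V} {es : List (B.Ed × Bool)} (h : Wk (YE B.tl B.hd) x es y) :
    Wk B.YD x (es.map (lm B.lab)) y := by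
  induction h with
  | nil z => exact Wk.nil _
  | @cons a b c l w h1 _ ih => exact Wk.cons ⟨l.1, rfl, h1⟩ ih

theorem rd_of_map {Ed S : Type} (lab : Ed → S) {es : List (Ed × Bool)}
    (h : Rd (es.map (lm lab))) : Rd es := by
  induction es with
  | nil => simp
  | cons m es ih =>
    rw [List.map_cons, isReduced_cons'] at h
    rw [isReduced_cons']
    refine ⟨ih h.1, fun l' hl' e => h.2 (lm lab l') (by simp [hl']) ?_⟩
    rw [e]; rfl

theorem girthY {x : B.V} {w : List B.L} (h : Wk B.YD x w x) (hl : w.length < 40 * B.ell x) :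
    mk w = 1 := by
  obtain ⟨w', hr, hw, hle, e⟩ := h.exists_reduced fold_YD
  obtain ⟨es, h1, rfl⟩ := liftE hw
  have := B.girth x es h1 (rd_of_map _ hr) (by simp at hle; omega)
  subst this
  exact e.symm

theorem girthX {z z' : B.W} {w : List B.L} (h : Wk B.XD z w z') (e : z.1 = z'.1)
    (hl : w.length < 40 * B.ell z.1) : z = z' ∧ mk w = 1 := by
  have h1 := proj h
  rw [← e] at h1
  have h2 := girthY h1 hl
  exact ⟨(h.eq_of_mk fold_XD (Wk.nil z) h2).symm, h2⟩

theorem mk_eq_of_short {z z' : B.W} {w w' : List B.L} (h : Wk B.XD z w z') (h' : Wk B.XD z w' z')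
    (hl : w.length + w'.length < 40 * B.ell z.1) : mk w = mk w' := by
  have := (girthX (h.append (h'.rev fold_XD)) rfl (by simpa using hl)).2
  rw [mk_append, mk_invRev] at this
  exact mul_inv_eq_one.1 this

theorem translate {z z' : B.W} {w : List B.L} (h : Wk B.XD z w z') (η : B.Ed →₀ ZMod 2) :
    Wk B.XD (z.1, z.2 + η) w (z'.1, z'.2 + η) :=
  h.map (fun z => (z.1, z.2 + η)) fun a _ b ⟨e, h⟩ => ⟨e, h.1, by
    show b.2 + η = a.2 + η + _
    rw [h.2]; abel⟩

/-- two darts over the same edge that are close coincide up to orientation -/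
theorem same_edge {y y' y₁ y₁' : B.W} {l l₁ : B.L} {e : B.Ed} {w : List B.L}
    (h : B.XX y l e y') (h₁ : B.XX y₁ l₁ e y₁') (hw : Wk B.XD y w y₁)
    (hl : w.length + 1 < 40 * B.ell y.1) :
    (y₁ = y ∧ l₁ = l ∧ y₁' = y') ∨ (y₁ = y' ∧ l₁ = iv l ∧ y₁' = y) := by
  have key : ∀ {y y' y₁ y₁' : B.W} {l l₁ : B.L} {w : List B.L}, B.XX y l e y' → B.XX y₁ l₁ e y₁' →
      l₁.2 = l.2 → Wk B.XD y w y₁ → w.length < 40 * B.ell y.1 → (y₁ = y ∧ l₁ = l ∧ y₁' = y') := by
    intro y y' y₁ y₁' l l₁ w h h₁ hb hw hl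
    have e1 : l₁ = l := Prod.ext (h₁.1.1.trans h.1.1.symm) hb
    subst e1
    have e2 : y.1 = y₁.1 := (h.1.2.det h₁.1.2).1
    obtain ⟨rfl, -⟩ := girthX hw e2 hl
    exact ⟨rfl, rfl, (h₁.func h).2⟩
  by_cases hb : l₁.2 = l.2
  · exact Or.inl (key h h₁ hb hw (by omega))
  · right
    have hb' : l₁.2 = (iv l).2 := by
      simp only [iv]; exact Bool.eq_not_of_ne hb
    have hw' : Wk B.XD y' (iv l :: w) y₁ := Wk.cons ⟨e, h.symm⟩ hw
    exact key h.symm h₁ hb' hw' (by simp [h.1.ell_eq.1]; omega)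

/-- total parity of a chain -/
noncomputable def tot (ξ : B.Ed →₀ ZMod 2) : ZMod 2 := ξ.sum fun _ c => c

theorem tot_walk {z z' : B.W} {w : List B.L} (h : Wk B.XD z w z') :
    tot z'.2 = tot z.2 + (w.length : ZMod 2) := by
  induction h with
  | nil z => simp
  | @cons a b c l w h1 _ ih =>
    obtain ⟨e, -, h1⟩ := h1
    have : tot b.2 = tot a.2 + 1 := by
      rw [h1, tot, Finsupp.sum_add_index' (by simp) (by simp)]
      simp [tot]
    rw [ih, this]; simp; ring

theorem nodup_of_reduced {x y : B.V} {es : List (B.Ed × Bool)} (h : Wk (YE B.tl B.hd) x es y)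
    (hr : Rd es) (hl : es.length ≤ 40 * B.ell x) : (es.map Prod.fst).Nodup := by
  induction h with
  | nil z => simp
  | @cons a b c m es h1 h2 ih =>
    have hb : B.ell b = B.ell a := ell_YE (wk_single.2 h1)
    simp only [List.length_cons] at hl
    rw [List.map_cons, List.nodup_cons]
    refine ⟨?_, ih (isReduced_cons'.1 hr).1 (by omega)⟩
    intro hm
    obtain ⟨m', hm', e⟩ := List.mem_map.1 hm
    obtain ⟨s, t, rfl⟩ := List.append_of_mem hm'
    obtain ⟨p, hp, hq⟩ := wk_append.1 h2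
    obtain ⟨q, hq, -⟩ := wk_cons.1 hq
    simp only [List.length_append, List.length_cons] at hl
    by_cases hd : m'.2 = m.2
    · have : m' = m := Prod.ext e hd
      subst this
      have : p = a := (hq.det h1).1
      subst this
      have hr' : Rd (m' :: s) := Rd.left' (w' := m' :: t) (by simpa using hr)
      have := B.girth _ _ (Wk.cons h1 hp) hr' (by simp; omega)
      simp at this
    · have e' : m' = iv m := by
        refine Prod.ext e ?_
        simp only [iv]; exact Bool.eq_not_of_ne hd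
      subst e'
      have : p = b := by
        have h3 := (fold_YE B.tl B.hd).symm hq
        rw [iv_iv] at h3
        exact (h3.det h1).2
      subst this
      have hr' : Rd s := Rd.left' (isReduced_cons'.1 hr).1
      have := B.girth _ _ hp hr' (by omega)
      subst this
      exact (isReduced_cons'.1 hr).2 (iv m) (by simp) rfl

theorem ncard_edgeSet_of_nodup {Ed : Type} {es : List (Ed × Bool)} (h : (es.map Prod.fst).Nodup) :
    (edgeSet es).ncard = es.length := by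
  classical
  have : edgeSet es = ((es.map Prod.fst).toFinset : Set Ed) := by
    ext e; simp [edgeSet]
  rw [this, Set.ncard_coe_finset, List.toFinset_card_of_nodup h, List.length_map]

theorem edgeSet_append {Ed : Type} (es fs : List (Ed × Bool)) :
    edgeSet (es ++ fs) = edgeSet es ∪ edgeSet fs := by
  ext e; simp [edgeSet, exists_or]

theorem map_lm_invRev {Ed S : Type} (lab : Ed → S) (es : List (Ed × Bool)) :
    (invRev es).map (lm lab) = invRev (es.map (lm lab)) := by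
  simp [invRev, lm, Function.comp_def]

theorem piece_aux {x y x' y' : B.V} {w : List B.L} (hne : x ≠ y) (hle : B.ell y ≤ B.ell x)
    (h : Wk B.YD x w x') (h' : Wk B.YD y w y') (hr : Rd w) : w.length < B.ell y := by
  by_contra hc
  obtain ⟨w₁, w₂, rfl, hk⟩ := exists_split_len w (B.ell y) (by omega)
  obtain ⟨x₁, h1, -⟩ := wk_append.1 h
  obtain ⟨y₁, h1', -⟩ := wk_append.1 h'
  obtain ⟨es, h2, e2⟩ := liftE h1
  obtain ⟨fs, h2', e2'⟩ := liftE h1'
  have hlen : es.length = B.ell y := by rw [← hk, ← e2]; simp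
  have hre : Rd es := rd_of_map B.lab (by rw [e2]; exact hr.left')
  have hn := ncard_edgeSet_of_nodup (nodup_of_reduced h2 hre (by omega))
  have := B.piece x y (es ++ invRev es) (fs ++ invRev fs) x y hne hle
    (h2.append (h2.rev (fold_YE _ _))) (h2'.append (h2'.rev (fold_YE _ _)))
    (by simp [map_lm_invRev, e2, e2']) (by simp; omega)
  have h3 : (edgeSet es).ncard ≤ (edgeSet (es ++ invRev es)).ncard :=
    Set.ncard_le_ncard (by rw [edgeSet_append]; exact Set.subset_union_left) (edgeSet_finite _)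
  omega

/-- reduced pieces are short -/
theorem piece_lt {x y x' y' : B.V} {w : List B.L} (hne : x ≠ y)
    (h : Wk B.YD x w x') (h' : Wk B.YD y w y') (hr : Rd w) :
    w.length < B.ell x ∧ w.length < B.ell y := by
  rcases le_total (B.ell y) (B.ell x) with hle | hle
  · have := piece_aux hne hle h h' hr; omega
  · have := piece_aux hne.symm hle h' h hr; omega

end Base

end Pool.Agent.Lib.MP_f40e16_al
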