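import Pool.Agent.Lib.MP_f40e16_al.Base

set_option autoImplicit false

namespace Pool.Agent.Lib.MP_f40e16_al

open FreeGroup

theorem Wk.mapL {Z Z' S S' : Type} {D : Z → S × Bool → Z → Prop} {D' : Z' → S' × Bool → Z' → Prop}
    (f : Z → Z') (g : S × Bool → S' × Bool) (hf : ∀ a l b, D a l b → D' (f a) (g l) (f b))
    {a b : Z} {w : List (S × Bool)} (h : Wk D a w b) : Wk D' (f a) (w.map g) (f b) := by
  induction h with
  | nil z => exact Wk.nil _
  | cons h1 _ ih => exact Wk.cons (hf _ _ _ h1) ih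

theorem dfs {Z T : Type} {D : Z → T × Bool → Z → Prop}
    (hs : ∀ a b m, D a m b → D b (iv m) a)
    (hd : ∀ a b a' b' m, D a m b → D a' m b' → a = a' ∧ b = b') (z₀ : Z) (k : ℕ)
    (F : Finset T) (hF : ∀ t ∈ F, ∃ w a b c, Wk D z₀ w a ∧ D a (t, c) b) (hk : k ≤ F.card) :
    ∃ es, Wk D z₀ es z₀ ∧ es.length = 2 * k ∧ k ≤ (edgeSet es).ncard := by
  induction k with
  | zero => exact ⟨[], Wk.nil _, rfl, Nat.zero_le _⟩
  | succ k ih =>
    obtain ⟨es, h1, h2, h3⟩ := ih (by omega)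
    by_cases hc : k + 1 ≤ (edgeSet es).ncard
    · cases es with
      | nil => simp [edgeSet] at hc
      | cons m es =>
        obtain ⟨b, hb, -⟩ := wk_cons.1 h1
        refine ⟨m :: iv m :: m :: es, Wk.cons hb (Wk.cons (hs _ _ _ hb) h1),
          by simp at h2 ⊢; omega, hc.trans (Set.ncard_le_ncard ?_ (edgeSet_finite _))⟩
        rintro e ⟨c, he⟩
        exact ⟨c, List.mem_cons_of_mem _ (List.mem_cons_of_mem _ he)⟩
    · have : ∃ t ∈ F, t ∉ edgeSet es := by
        by_contra hn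
        push Not at hn
        have : (F : Set T).ncard ≤ (edgeSet es).ncard :=
          Set.ncard_le_ncard (fun t ht => hn t ht) (edgeSet_finite _)
        rw [Set.ncard_coe_finset] at this
        omega
      obtain ⟨t, ht, hte⟩ := this
      obtain ⟨w, a, b, c, hw, hab⟩ := hF t ht
      have key : ∀ {s a : Z} {w : List (T × Bool)}, Wk D s w a → D a (t, c) b →
          (∃ A B, es = A ++ B ∧ Wk D z₀ A s) →
          ∃ a b m A B, es = A ++ B ∧ Wk D z₀ A a ∧ D a m b ∧ m.1 ∉ edgeSet es := by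
        intro s a w hw hab
        induction hw with
        | nil z => rintro ⟨A, B, e, h⟩; exact ⟨_, _, _, A, B, e, h, hab, hte⟩
        | @cons s s' a m w hm _ ih =>
          rintro ⟨A, B, e, h⟩
          by_cases hme : m.1 ∈ edgeSet es
          · apply ih hab
            obtain ⟨c', hc'⟩ := hme
            obtain ⟨A', B', e'⟩ := List.append_of_mem hc'
            have h1' := h1
            rw [e'] at h1'
            obtain ⟨p, hp, hq⟩ := wk_append.1 h1'
            obtain ⟨q, hq, -⟩ := wk_cons.1 hq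
            by_cases hcc : c' = m.2
            · subst hcc
              obtain ⟨-, rfl⟩ := hd _ _ _ _ _ hm hq
              exact ⟨A' ++ [m], B', by simp [e'], hp.snoc hq⟩
            · have : (m.1, c') = iv m := Prod.ext rfl (Bool.eq_not_of_ne hcc)
              rw [this] at hq
              obtain ⟨rfl, -⟩ := hd _ _ _ _ _ (hs _ _ _ hm) hq
              exact ⟨A', _, e', hp⟩
          · exact ⟨_, _, _, A, B, e, h, hm, hme⟩
      obtain ⟨a, b, m, A, B, rfl, hA, hm, hme⟩ := key hw hab ⟨[], es, rfl, Wk.nil _⟩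
      obtain ⟨a', hA', hB⟩ := wk_append.1 h1
      have haa : a' = a := by
        have hf : Fold D := ⟨fun h => hs _ _ _ h, fun h h' => (hd _ _ _ _ _ h h').2⟩
        exact hA'.func hf hA
      subst haa
      refine ⟨A ++ m :: iv m :: B, hA.append (Wk.cons hm (Wk.cons (hs _ _ _ hm) hB)),
        by simp at h2 ⊢; omega, ?_⟩
      have : insert m.1 (edgeSet (A ++ B)) ⊆ edgeSet (A ++ m :: iv m :: B) := by
        rintro e (rfl | ⟨c, he⟩)
        · exact ⟨m.2, by simp⟩
        · refine ⟨c, ?_⟩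
          simp only [List.mem_append, List.mem_cons] at he ⊢
          tauto
      have h4 := Set.ncard_le_ncard this (edgeSet_finite _)
      rw [Set.ncard_insert_of_notMem hme (edgeSet_finite _)] at h4
      omega

namespace Base

variable {B : Base}

def PiD (B : Base) (p : B.V × B.V) (m : (B.Ed × B.Ed) × Bool) (q : B.V × B.V) : Prop :=
  YE B.tl B.hd p.1 (m.1.1, m.2) q.1 ∧ YE B.tl B.hd p.2 (m.1.2, m.2) q.2 ∧ B.lab m.1.1 = B.lab m.1.2

def PD2 (B : Base) (p : B.V × B.V) (l : B.L) (q : B.V × B.V) : Prop :=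
  B.YD p.1 l q.1 ∧ B.YD p.2 l q.2

theorem fold_PD2 : Fold B.PD2 where
  symm := fun h => ⟨fold_YD.symm h.1, fold_YD.symm h.2⟩
  func := fun h h' => Prod.ext (fold_YD.func h.1 h'.1) (fold_YD.func h.2 h'.2)

theorem PiD.symm {p q : B.V × B.V} {m : (B.Ed × B.Ed) × Bool} (h : B.PiD p m q) :
    B.PiD q (iv m) p :=
  ⟨(fold_YE _ _).symm h.1, (fold_YE _ _).symm h.2.1, h.2.2⟩

theorem PiD.pd2 {p q : B.V × B.V} {m : (B.Ed × B.Ed) × Bool} (h : B.PiD p m q) :
    B.PD2 p (B.lab m.1.1, m.2) q :=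
  ⟨⟨m.1.1, rfl, h.1⟩, ⟨m.1.2, h.2.2, h.2.1⟩⟩

theorem pd2_inj {x y : B.V} (hne : x ≠ y) {p q : B.V × B.V} {w w' : List B.L}
    (h : Wk B.PD2 (x, y) w p) (h' : Wk B.PD2 (x, y) w' q) (e : p.1 = q.1) : p = q := by
  obtain ⟨u, hu, h1, -, -⟩ := h.exists_reduced fold_PD2
  obtain ⟨u', hu', h1', -, -⟩ := h'.exists_reduced fold_PD2
  have a1 : Wk B.YD x u p.1 := h1.map Prod.fst fun _ _ _ h => h.1
  have a2 : Wk B.YD y u p.2 := h1.map Prod.snd fun _ _ _ h => h.2
  have b1 : Wk B.YD x u' q.1 := h1'.map Prod.fst fun _ _ _ h => h.1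
  have b2 : Wk B.YD y u' q.2 := h1'.map Prod.snd fun _ _ _ h => h.2
  have l1 := (piece_lt hne a1 a2 hu).1
  have l2 := (piece_lt hne b1 b2 hu').1
  rw [← e] at b1
  have := girthY (a1.append (b1.rev fold_YD)) (by simp; omega)
  rw [mk_append, mk_invRev] at this
  exact h1.eq_of_mk fold_PD2 h1' (mul_inv_eq_one.1 this)

theorem pi_card {x y : B.V} (hne : x ≠ y) (hle : B.ell y ≤ B.ell x) (F : Finset (B.Ed × B.Ed))
    (hF : ∀ t ∈ F, ∃ w a b c, Wk B.PiD (x, y) w a ∧ B.PiD a (t, c) b) : F.card < B.ell y := by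
  by_contra hc
  obtain ⟨es, h1, h2, h3⟩ := dfs (D := B.PiD) (fun _ _ _ h => h.symm)
    (fun a b a' b' m h h' => ⟨Prod.ext (h.1.det h'.1).1 (h.2.1.det h'.2.1).1,
      Prod.ext (h.1.det h'.1).2 (h.2.1.det h'.2.1).2⟩) (x, y) (B.ell y) F hF (by omega)
  have a1 := h1.mapL (D' := YE B.tl B.hd) Prod.fst (fun m => (m.1.1, m.2)) fun _ _ _ h => h.1
  have a2 := h1.mapL (D' := YE B.tl B.hd) Prod.snd (fun m => (m.1.2, m.2)) fun _ _ _ h => h.2.1
  have hmem : ∀ m ∈ es, ∃ w a b, Wk B.PiD (x, y) w a ∧ B.PiD a m b := by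
    intro m hm
    obtain ⟨A, C, rfl⟩ := List.append_of_mem hm
    obtain ⟨a, ha, hb⟩ := wk_append.1 h1
    obtain ⟨b, hb, -⟩ := wk_cons.1 hb
    exact ⟨A, a, b, ha, hb⟩
  have := B.piece x y _ _ x y hne hle a1 a2 (by
    simp only [List.map_map]
    refine List.map_congr_left fun m hm => ?_
    obtain ⟨w, a, b, -, h⟩ := hmem m hm
    simp [lm, h.2.2]) (by simpa using h2)
  have e1 : edgeSet (es.map fun m => (m.1.1, m.2)) = Prod.fst '' edgeSet es := by
    ext e; simp only [edgeSet, List.mem_map, Set.mem_ofPred_eq, Set.mem_image]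
    constructor
    · rintro ⟨b, m, hm, h⟩
      simp only [Prod.mk.injEq] at h
      exact ⟨m.1, ⟨m.2, hm⟩, h.1⟩
    · rintro ⟨t, ⟨b, hb⟩, rfl⟩
      exact ⟨b, (t, b), hb, rfl⟩
  have toPD : ∀ {w a}, Wk B.PiD (x, y) w a → ∃ w', Wk B.PD2 (x, y) w' a := fun h =>
    ⟨_, h.mapL id (fun m => (B.lab m.1.1, m.2)) fun _ _ _ h => h.pd2⟩
  have key : ∀ {e f f' c w w' a b a' b'}, Wk B.PiD (x, y) w a → B.PiD a ((e, f), c) b →
      Wk B.PiD (x, y) w' a' → B.PiD a' ((e, f'), c) b' → f = f' := by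
    intro e f f' c w w' a b a' b' ha hb ha' hb'
    obtain ⟨u, hu⟩ := toPD ha
    obtain ⟨u', hu'⟩ := toPD ha'
    obtain rfl := pd2_inj hne hu hu' (hb.1.det hb'.1).1
    have q1 : B.YX a.2 (B.lab e, c) f b.2 := ⟨hb.2.2, hb.2.1⟩
    have q2 : B.YX a.2 (B.lab e, c) f' b'.2 := ⟨hb'.2.2, hb'.2.1⟩
    exact (q1.func q2).1
  rw [e1, Set.InjOn.ncard_image] at this
  · omega
  · rintro ⟨e, f⟩ ⟨c, hc⟩ ⟨e', f'⟩ ⟨c', hc'⟩ (rfl : e = e')
    obtain ⟨w, a, b, ha, hb⟩ := hmem _ hc
    obtain ⟨w', a', b', ha', hb'⟩ := hmem _ hc'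
    by_cases hcc : c' = c
    · subst hcc; rw [key ha hb ha' hb']
    · have : c = !c' := Bool.eq_not_of_ne (Ne.symm hcc)
      subst this
      rw [key ha hb (ha'.snoc hb') hb'.symm]

/-- edges of the common part of two pointed graphs -/
def PS (B : Base) (x y : B.V) : Set B.Ed :=
  {e | ∃ w l x₁ x₂ y₁ y₂, Wk B.YD x w x₁ ∧ B.YX x₁ l e x₂ ∧ Wk B.YD y w y₁ ∧ B.YD y₁ l y₂}

theorem pi_lift {x y x₁ y₁ : B.V} {w : List B.L} (h : Wk B.YD x w x₁) (h' : Wk B.YD y w y₁) :
    ∃ es, Wk B.PiD (x, y) es (x₁, y₁) := by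
  induction h generalizing y with
  | nil z => rw [wk_nil] at h'; subst h'; exact ⟨[], Wk.nil _⟩
  | @cons a b c l w h1 _ ih =>
    obtain ⟨b', ⟨f, h2⟩, h3⟩ := wk_cons.1 h'
    obtain ⟨e, h1⟩ := h1
    obtain ⟨es, h⟩ := ih h3
    exact ⟨((e, f), l.2) :: es, Wk.cons ⟨h1.2, h2.2, h1.1.symm.trans h2.1⟩ h⟩

theorem PS_finite (x y : B.V) : (B.PS x y).Finite := by
  refine (B.finE (B.ell x)).subset ?_
  rintro e ⟨w, l, x₁, x₂, y₁, y₂, h1, h2, -, -⟩
  show B.ell (B.tl e) ≤ B.ell x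
  rw [h2.ell_eq.2, ell_YD h1]

theorem PS_card {x y : B.V} (hne : x ≠ y) : (B.PS x y).ncard < B.ell x := by
  classical
  have hch : ∀ e ∈ B.PS x y, ∃ f, ∃ w a b c, Wk B.PiD (x, y) w a ∧ B.PiD a ((e, f), c) b := by
    rintro e ⟨w, l, x₁, x₂, y₁, y₂, h1, h2, h3, f, h4⟩
    obtain ⟨es, h⟩ := pi_lift h1 h3
    exact ⟨f, es, _, (x₂, y₂), l.2, h, h2.2, h4.2, h2.1.symm.trans h4.1⟩
  choose! g hg using hch
  set P := (PS_finite x y).toFinset with hP
  have hc : (B.PS x y).ncard = P.card := Set.ncard_eq_toFinset_card _ _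
  rw [hc]
  rcases le_total (B.ell y) (B.ell x) with hle | hle
  · have := pi_card hne hle (P.image fun e => (e, g e)) (by
      intro t ht
      obtain ⟨e, he, rfl⟩ := Finset.mem_image.1 ht
      exact hg e (by simpa [hP] using he))
    rw [Finset.card_image_of_injective _ (fun a b h => (Prod.ext_iff.1 h).1)] at this
    omega
  · have := pi_card hne.symm hle (P.image fun e => (g e, e)) (by
      intro t ht
      obtain ⟨e, he, rfl⟩ := Finset.mem_image.1 ht
      obtain ⟨w, a, b, c, h1, h2⟩ := hg e (by simpa [hP] using he)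
      refine ⟨_, a.swap, b.swap, c, h1.mapL Prod.swap (fun m => (m.1.swap, m.2))
        fun _ _ _ h => ⟨h.2.1, h.1, h.2.2.symm⟩, h2.2.1, h2.1, h2.2.2.symm⟩)
    rwa [Finset.card_image_of_injective _ (fun a b h => (Prod.ext_iff.1 h).2)] at this

/-- boundary of a chain -/
noncomputable def bd (ξ : B.Ed →₀ ZMod 2) : B.V →₀ ZMod 2 :=
  ξ.mapDomain B.tl + ξ.mapDomain B.hd

theorem bd_add_single (ξ : B.Ed →₀ ZMod 2) {x y : B.V} {e : B.Ed} {c : Bool}
    (h : YE B.tl B.hd x (e, c) y) :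
    bd (ξ + Finsupp.single e 1) = bd ξ + (Finsupp.single x 1 + Finsupp.single y 1) := by
  simp only [bd, Finsupp.mapDomain_add, Finsupp.mapDomain_single]
  rcases h with ⟨-, h1, h2⟩ | ⟨-, h1, h2⟩ <;> simp only at h1 h2 <;> subst h1 h2 <;> abel

theorem bd_walk {z z' : B.W} {w : List B.L} (h : Wk B.XD z w z') :
    bd z'.2 = bd z.2 + (Finsupp.single z.1 1 + Finsupp.single z'.1 1) := by
  induction h with
  | nil z => simp [add_self2]
  | @cons a b c l w h1 _ ih =>
    obtain ⟨e, h1, h2⟩ := h1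
    rw [ih, h2, bd_add_single _ h1.2]
    have := add_self2 (Finsupp.single b.1 (1 : ZMod 2))
    calc _ = bd a.2 + (Finsupp.single a.1 1 + Finsupp.single c.1 1) +
        (Finsupp.single b.1 1 + Finsupp.single b.1 1) := by abel
      _ = _ := by rw [this, add_zero]

theorem supp_walk {z z' : B.W} {w : List B.L} (h : Wk B.XD z w z') (k : ℕ) (hk : B.ell z.1 = k)
    (hz : ∀ e ∈ z.2.support, B.ell (B.tl e) = k) : ∀ e ∈ z'.2.support, B.ell (B.tl e) = k := by
  classical
  refine (h.ind_end (fun z => B.ell z.1 = k ∧ ∀ e ∈ z.2.support, B.ell (B.tl e) = k) ?_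
    ⟨hk, hz⟩).2
  rintro a l b ⟨h1, h2⟩ ⟨e, h3, h4⟩
  refine ⟨h3.ell_eq.1.trans h1, fun f hf => ?_⟩
  rw [h4] at hf
  rcases Finset.mem_union.1 (Finsupp.support_add hf) with hf | hf
  · exact h2 f hf
  · obtain rfl := Finset.mem_singleton.1 (Finsupp.support_single_subset hf)
    exact h3.ell_eq.2.trans h1

theorem support_add_single {α : Type} [DecidableEq α] {ξ : α →₀ ZMod 2} {e : α}
    (he : e ∈ ξ.support) : (ξ + Finsupp.single e 1).support = ξ.support.erase e := by
  ext f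
  rw [Finset.mem_erase, Finsupp.mem_support_iff, Finsupp.mem_support_iff]
  by_cases hf : f = e
  · subst hf
    have : ξ f = 1 := by
      have := Finsupp.mem_support_iff.1 he
      revert this; generalize ξ f = c; revert c; decide
    simp [this]; decide
  · simp [hf]

theorem rd_of_nodup {Ed : Type} {es : List (Ed × Bool)} (h : (es.map Prod.fst).Nodup) : Rd es := by
  induction es with
  | nil => simp
  | cons m es ih =>
    rw [List.map_cons, List.nodup_cons] at h
    rw [isReduced_cons']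
    refine ⟨ih h.2, fun l' hl' e => h.1 ?_⟩
    exact List.mem_map.2 ⟨l', List.mem_of_mem_head? hl', by rw [e]; rfl⟩

theorem euler (k : ℕ) : ∀ (ξ : B.Ed →₀ ZMod 2) (a b : B.V), ξ.support.card = k →
    (∀ e ∈ ξ.support, k < 40 * B.ell (B.tl e)) →
    bd ξ = Finsupp.single a 1 + Finsupp.single b 1 →
    ∃ es, Wk (YE B.tl B.hd) a es b ∧ (es.map Prod.fst).Nodup ∧ es.length = k ∧
      (∀ m ∈ es, m.1 ∈ ξ.support) ∧ ∀ η, Wk B.XD (a, η) (es.map (lm B.lab)) (b, η + ξ) := by
  classical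
  induction k with
  | zero =>
    intro ξ a b h1 _ h3
    obtain rfl : ξ = 0 := by simpa using h1
    have : a = b := by
      by_contra hab
      have := DFunLike.congr_fun h3 a
      simp [bd, hab] at this
    subst this
    exact ⟨[], Wk.nil _, by simp, rfl, by simp, fun η => by simp⟩
  | succ k ih =>
    intro ξ a b h1 h2 h3
    have step : ∀ e ∈ ξ.support, ∀ a a' b c, YE B.tl B.hd a (e, c) a' →
        bd ξ = Finsupp.single a 1 + Finsupp.single b 1 →
        ∃ es, Wk (YE B.tl B.hd) a es b ∧ (es.map Prod.fst).Nodup ∧ es.length = k + 1 ∧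
      (∀ m ∈ es, m.1 ∈ ξ.support) ∧ ∀ η, Wk B.XD (a, η) (es.map (lm B.lab)) (b, η + ξ) := by
      intro e he a a' b c hy h3
      have hs := support_add_single he
      obtain ⟨es, q1, q2, q3, q4, q5⟩ := ih (ξ + Finsupp.single e 1) a' b
        (by rw [hs, Finset.card_erase_of_mem he]; omega)
        (fun f hf => by
          rw [hs] at hf
          have := h2 f (Finset.mem_of_mem_erase hf); omega)
        (by
          rw [bd_add_single _ hy, h3]
          rw [← add_zero (Finsupp.single a' (1 : ZMod 2) + Finsupp.single b 1),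
            ← add_self2 (Finsupp.single a (1 : ZMod 2))]
          abel)
      refine ⟨(e, c) :: es, Wk.cons hy q1, ?_, by simp [q3], ?_, fun η => ?_⟩
      · rw [List.map_cons, List.nodup_cons]
        refine ⟨fun hm => ?_, q2⟩
        obtain ⟨m, hm', hme⟩ := List.mem_map.1 hm
        have := q4 m hm'
        rw [hs, hme] at this
        simp at this
      · intro m hm
        rcases List.mem_cons.1 hm with rfl | hm
        · exact he
        · have := q4 m hm
          rw [hs] at this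
          exact Finset.mem_of_mem_erase this
      · refine Wk.cons (b := (a', η + Finsupp.single e 1)) ⟨e, ⟨rfl, hy⟩, rfl⟩ ?_
        have := q5 (η + Finsupp.single e 1)
        have e2 : η + Finsupp.single e 1 + (ξ + Finsupp.single e 1) = η + ξ := by
          rw [← add_single_single (η + ξ) e]; abel
        rwa [e2] at this
    by_cases hab : a = b
    · subst hab
      obtain ⟨e, he⟩ : ξ.support.Nonempty := Finset.card_pos.1 (by omega)
      obtain ⟨es, q1, q2, q3, -⟩ := step e he (B.tl e) (B.hd e) (B.tl e) true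
        (Or.inl ⟨rfl, rfl, rfl⟩) (by rw [h3, add_self2, add_self2])
      have := B.girth _ _ q1 (rd_of_nodup q2) (by have := h2 e he; omega)
      subst this
      simp at q3
    · have h4 : bd ξ a ≠ 0 := by
        rw [h3]; simp [hab]
      have h5 : a ∈ (ξ.mapDomain B.tl).support ∨ a ∈ (ξ.mapDomain B.hd).support := by
        by_contra hn
        simp only [Finsupp.mem_support_iff, not_or, not_not] at hn
        simp [bd, hn.1, hn.2] at h4
      rcases h5 with h5 | h5
      · obtain ⟨e, he, rfl⟩ := Finset.mem_image.1 (Finsupp.mapDomain_support h5)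
        exact step e he _ (B.hd e) b true (Or.inl ⟨rfl, rfl, rfl⟩) h3
      · obtain ⟨e, he, rfl⟩ := Finset.mem_image.1 (Finsupp.mapDomain_support h5)
        exact step e he _ (B.tl e) b false (Or.inr ⟨rfl, rfl, rfl⟩) h3

/-- the wall distance agrees with the graph distance below the girth -/
theorem ags {x : B.V} {z : B.W} (h : B.Cp x z) (hl : z.2.support.card < 40 * B.ell x) :
    ∃ w, Wk B.XD (x, 0) w z ∧ w.length = z.2.support.card := by
  obtain ⟨w, h⟩ := h
  have h1 := supp_walk h (B.ell x) rfl (by simp)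
  obtain ⟨es, -, -, q3, -, q5⟩ := euler _ z.2 x z.1 rfl (fun e he => by rw [h1 e he]; exact hl)
    (by rw [bd_walk h]; simp [bd])
  exact ⟨_, by simpa using q5 0, by simp [q3]⟩

theorem diam (B : Base) (R : ℕ) : ∃ M, ∀ x z, B.ell x ≤ R → B.Cp x z →
    ∃ w, Wk B.XD (x, 0) w z ∧ w.length ≤ M := by
  classical
  have hfin : {p : B.V × B.W | B.ell p.1 ≤ R ∧ B.Cp p.1 p.2}.Finite := by
    have h1 : {ξ : B.Ed →₀ ZMod 2 | ∀ e ∈ ξ.support, B.ell (B.tl e) ≤ R}.Finite := by
      refine Set.Finite.of_finite_image (f := fun ξ => ξ.support) ?_ ?_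
      · refine ((B.finE R).toFinset.powerset.finite_toSet).subset ?_
        rintro _ ⟨ξ, h, rfl⟩
        simp only [Finset.coe_powerset, Set.mem_preimage, Set.mem_powerset_iff]
        intro e he
        simpa using h e he
      · intro ξ _ ξ' _ h
        ext e
        have : e ∈ ξ.support ↔ e ∈ ξ'.support := by simp only at h; rw [h]
        simp only [Finsupp.mem_support_iff] at this
        revert this; generalize ξ e = c; generalize ξ' e = d; revert c d; decide
    refine (((B.finV R).prod ((B.finV R).prod h1))).subset ?_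
    rintro ⟨x, z⟩ ⟨h2, h3⟩
    refine ⟨h2, by simpa [h3.ell_eq] using h2, fun e he => ?_⟩
    obtain ⟨w, hw⟩ := h3
    rw [supp_walk hw (B.ell x) rfl (by simp) e he]; exact h2
  have : ∀ p : B.V × B.W, ∃ n : ℕ, B.Cp p.1 p.2 → ∃ w, Wk B.XD (p.1, 0) w p.2 ∧ w.length ≤ n := by
    intro p
    by_cases h : B.Cp p.1 p.2
    · obtain ⟨w, hw⟩ := h; exact ⟨w.length, fun _ => ⟨w, hw, le_rfl⟩⟩
    · exact ⟨0, fun h' => absurd h' h⟩
  choose f hf using this
  obtain ⟨M, hM⟩ := (hfin.image f).bddAbove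
  refine ⟨M, fun x z h1 h2 => ?_⟩
  obtain ⟨w, hw, hl⟩ := hf (x, z) h2
  exact ⟨w, hw, hl.trans (hM ⟨(x, z), ⟨h1, h2⟩, rfl⟩)⟩

end Base

end Pool.Agent.Lib.MP_f40e16_al
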