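import Pool.Agent.Lib.MP_f40e16_al.Poincare
import Pool.Agent.Lib.MP_f40e16_al.Base

set_option autoImplicit false

namespace Pool.Agent.Lib.MP_f40e16_al

open Finset

section count
variable {V T : Type} {D : V → T × Bool → V → Prop} {Δ : ℕ}

theorem walks_card (hD : Fold D) (hdeg : ∀ x, ∃ A : Finset (T × Bool), #A ≤ Δ ∧ ∀ m y, D x m y → m ∈ A)
    (L : ℕ) : ∀ x, ∃ A : Finset (List (T × Bool)), #A ≤ Δ ^ L ∧
      ∀ w y, Wk D x w y → w.length = L → w ∈ A := by
  classical
  induction L with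
  | zero => exact fun x => ⟨{[]}, by simp, fun w y _ h => by simpa using h⟩
  | succ L ih =>
    intro x
    choose A hA1 hA2 using ih
    obtain ⟨M, hM1, hM2⟩ := hdeg x
    have : ∀ m, ∃ y, ∀ y', D x m y' → y' = y := by
      intro m
      by_cases h : ∃ y, D x m y
      · obtain ⟨y, h⟩ := h; exact ⟨y, fun y' h' => hD.func h' h⟩
      · exact ⟨x, fun y' h' => absurd ⟨y', h'⟩ h⟩
    choose nx hnx using this
    refine ⟨M.biUnion fun m => (A (nx m)).image (List.cons m), ?_, ?_⟩
    · refine (card_biUnion_le_card_mul _ _ (Δ ^ L) fun m _ => card_image_le.trans (hA1 _)).trans ?_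
      rw [pow_succ, mul_comm]
      exact Nat.mul_le_mul_left _ hM1
    · intro w y hw hl
      cases hw with
      | nil => simp at hl
      | @cons _ b _ m w h1 h2 =>
        obtain rfl := hnx m b h1
        exact mem_biUnion.2 ⟨m, hM2 _ _ h1, mem_image_of_mem _ (hA2 _ _ _ h2 (by simpa using hl))⟩

theorem ball_card (hD : Fold D) (hdeg : ∀ x, ∃ A : Finset (T × Bool), #A ≤ Δ ∧ ∀ m y, D x m y → m ∈ A)
    (L : ℕ) : ∀ x, ∃ A : Finset V, #A ≤ (Δ + 1) ^ L ∧
      ∀ w y, Wk D x w y → w.length ≤ L → y ∈ A := by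
  classical
  induction L with
  | zero =>
    refine fun x => ⟨{x}, by simp, fun w y hw h => ?_⟩
    obtain rfl : w = [] := by simpa using h
    simpa using (wk_nil.1 hw).symm
  | succ L ih =>
    intro x
    choose A hA1 hA2 using ih
    obtain ⟨M, hM1, hM2⟩ := hdeg x
    have : ∀ m, ∃ y, ∀ y', D x m y' → y' = y := by
      intro m
      by_cases h : ∃ y, D x m y
      · obtain ⟨y, h⟩ := h; exact ⟨y, fun y' h' => hD.func h' h⟩
      · exact ⟨x, fun y' h' => absurd ⟨y', h'⟩ h⟩
    choose nx hnx using this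
    refine ⟨A x ∪ M.biUnion fun m => A (nx m), ?_, ?_⟩
    · refine (card_union_le _ _).trans ?_
      have h1 := (card_biUnion_le_card_mul M (fun m => A (nx m)) _ fun m _ => hA1 _).trans
        (Nat.mul_le_mul_right _ hM1)
      have h2 := hA1 x
      rw [pow_succ]; nlinarith
    · intro w y hw hl
      cases hw with
      | nil => exact mem_union_left _ (hA2 _ _ _ (Wk.nil _) (by simp))
      | @cons _ b _ m w h1 h2 =>
        obtain rfl := hnx m b h1
        exact mem_union_right _ (mem_biUnion.2 ⟨m, hM2 _ _ h1, hA2 _ _ _ h2 (by simpa using hl)⟩)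

end count

theorem split_first {α : Type} (p : α → Prop) (l : List α) :
    (∀ a ∈ l, ¬ p a) ∨ ∃ A m C, l = A ++ m :: C ∧ p m ∧ ∀ a ∈ A, ¬ p a := by
  induction l with
  | nil => simp
  | cons a l ih =>
    by_cases h : p a
    · exact Or.inr ⟨[], a, l, rfl, h, by simp⟩
    · rcases ih with h' | ⟨A, m, C, rfl, h1, h2⟩
      · left; simpa [h] using h'
      · exact Or.inr ⟨a :: A, m, C, rfl, h1, by simpa [h] using h2⟩

/-- darts of the part of the graph built so far -/
def YF {V Ed : Type} (tl hd : Ed → V) (F : Set Ed) (x : V) (m : Ed × Bool) (y : V) : Prop :=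
  YE tl hd x m y ∧ m.1 ∈ F

theorem fold_YF {V Ed : Type} (tl hd : Ed → V) (F : Set Ed) : Fold (YF tl hd F) where
  symm := fun h => ⟨(fold_YE tl hd).symm h.1, h.2⟩
  func := fun h h' => (fold_YE tl hd).func h.1 h'.1

theorem girth_step {V Ed : Type} [DecidableEq Ed] (tl hd : Ed → V) (F : Set Ed) (e : Ed)
    (he : e ∉ F) (y : V) (g : ℕ)
    (h1 : ∀ x es, Wk (YF tl hd F) x es x → Rd es → es.length < g → es = [])
    (h2 : ∀ w, Wk (YF tl hd F) (tl e) w y → ¬ w.length ≤ g) (x : V) (es : List (Ed × Bool))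
    (hw : Wk (YF tl (Function.update hd e y) (insert e F)) x es x) (hr : Rd es)
    (hl : es.length < g) : es = [] := by
  have old : ∀ {a w b}, Wk (YF tl (Function.update hd e y) (insert e F)) a w b →
      (∀ m ∈ w, ¬ m.1 = e) → Wk (YF tl hd F) a w b := by
    intro a w b h
    induction h with
    | nil _ => intro _; exact Wk.nil _
    | @cons a b c m w h _ ih =>
      intro hm
      have hme : m.1 ≠ e := hm m (by simp)
      refine Wk.cons ⟨?_, h.2.resolve_left hme⟩ (ih fun m' h' => hm m' (by simp [h']))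
      simpa [YE, Function.update_of_ne hme] using h.1
  have new : ∀ {a m b}, YF tl (Function.update hd e y) (insert e F) a m b → m.1 = e →
      (m = (e, true) ∧ a = tl e ∧ b = y) ∨ (m = (e, false) ∧ a = y ∧ b = tl e) := by
    rintro a ⟨e', c⟩ b h rfl
    rcases h.1 with ⟨rfl, h3, h4⟩ | ⟨rfl, h3, h4⟩ <;> simp at h3 h4 <;> simp [h3, h4]
  have h2' : ∀ w, Wk (YF tl hd F) y w (tl e) → ¬ w.length ≤ g := fun w h => by
    simpa using h2 _ (h.rev (fold_YF _ _ _))
  rcases split_first (fun m : Ed × Bool => m.1 = e) es with h | ⟨A, m, C, rfl, hm, hA⟩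
  · exact h1 x es (old hw h) hr hl
  exfalso
  obtain ⟨p, a1, a0⟩ := wk_append.1 hw
  obtain ⟨q, a2, a3⟩ := wk_cons.1 a0
  simp only [List.length_append, List.length_cons] at hl
  rcases split_first (fun m : Ed × Bool => m.1 = e) C with h | ⟨A', m', C', rfl, hm', hA'⟩
  · have a4 := (old a3 h).append (old a1 hA)
    rcases new a2 hm with ⟨-, rfl, rfl⟩ | ⟨-, rfl, rfl⟩
    · exact h2' _ a4 (by simp; omega)
    · exact h2 _ a4 (by simp; omega)
  · obtain ⟨p', b1, b0⟩ := wk_append.1 a3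
    obtain ⟨q', b2, -⟩ := wk_cons.1 b0
    have b4 := old b1 hA'
    simp only [List.length_append, List.length_cons] at hl
    have r1 := isReduced_cons'.1 hr.right'
    rcases new a2 hm with ⟨rfl, rfl, rfl⟩ | ⟨rfl, rfl, rfl⟩ <;>
      rcases new b2 hm' with ⟨rfl, rfl, -⟩ | ⟨rfl, rfl, -⟩
    · exact h2' _ b4 (by omega)
    · obtain rfl := h1 _ _ b4 r1.1.left' (by omega)
      exact r1.2 (e, false) rfl rfl
    · obtain rfl := h1 _ _ b4 r1.1.left' (by omega)
      exact r1.2 (e, true) rfl rfl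
    · exact h2 _ b4 (by omega)

theorem deg_YF {V : Type} [DecidableEq V] {K : ℕ} (hd : V × Fin 33 → V) (F : Set (V × Fin 33))
    (h : ∀ y, ∃ A : Finset (V × Fin 33), #A ≤ K ∧ ∀ ε ∈ F, hd ε = y → ε ∈ A) (x : V) :
    ∃ A : Finset ((V × Fin 33) × Bool), #A ≤ 33 + K ∧ ∀ m y, YF Prod.fst hd F x m y → m ∈ A := by
  obtain ⟨A, h1, h2⟩ := h x
  refine ⟨(univ.image fun i => ((x, i), true)) ∪ A.image fun ε => (ε, false), ?_, ?_⟩
  · refine (card_union_le _ _).trans (add_le_add (card_image_le.trans (by simp))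
      (card_image_le.trans h1))
  · rintro ⟨⟨z, i⟩, c⟩ y ⟨⟨rfl, rfl, -⟩ | ⟨rfl, h3, -⟩, h4⟩
    · simp
    · exact mem_union_right _ (mem_image_of_mem _ (h2 _ h4 h3))

section greedy
variable {V : Type} [Fintype V] [DecidableEq V]

/-- inverse density -/
noncomputable def lam (S : Finset V) : ℝ := Fintype.card V / #S
/-- normalising factor -/
noncomputable def muu (S : Finset V) : ℝ := 41 / 20 - 21 / 20 * (#S / Fintype.card V)
/-- factor of one edge -/
noncomputable def fac (S : Finset V) (ε : V × Fin 33) (y : V) : ℝ :=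
  if ε.2 ≠ 0 ∧ ε.1 ∈ S then (if y ∈ S then lam S else 1) / muu S else 1
/-- potential -/
noncomputable def pot (F : Finset (V × Fin 33)) (hd : V × Fin 33 → V) : ℝ :=
  ∑ S : Finset V with S.Nonempty, (lam S * 6)⁻¹ ^ #S * ∏ ε ∈ F, fac S ε (hd ε)

omit [DecidableEq V] in
theorem muu_pos (S : Finset V) : 1 ≤ muu S := by
  have : (#S : ℝ) / Fintype.card V ≤ 1 :=
    div_le_one_of_le₀ (by exact_mod_cast card_le_univ S) (Nat.cast_nonneg _)
  simp only [muu]; linarith

omit [DecidableEq V] in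
theorem lam_nonneg (S : Finset V) : 0 ≤ lam S := by simp only [lam]; positivity

theorem fac_nonneg (S : Finset V) (ε : V × Fin 33) (y : V) : 0 ≤ fac S ε y := by
  have := muu_pos S
  have := lam_nonneg S
  simp only [fac]
  split_ifs <;> positivity

theorem pot_empty (hd : V × Fin 33 → V) : pot ∅ hd ≤ 2 := by
  have h1 : pot ∅ hd ≤ ∑ S ∈ (univ : Finset V).powerset,
      (((Fintype.card V : ℝ) / (#S : ℕ) * 6)⁻¹ ^ #S) := by
    simp only [pot, prod_empty, mul_one, lam]
    exact sum_le_sum_of_subset_of_nonneg (by simp) fun _ _ _ => by positivity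
  rw [sum_powerset_apply_card fun s : ℕ => ((Fintype.card V : ℝ) / s * 6)⁻¹ ^ s] at h1
  refine h1.trans ((sum_le_sum fun s hs => ?_).trans (sum_geometric_two_le _))
  rcases Nat.eq_zero_or_pos s with rfl | hs0
  · simp
  have hN : 0 < Fintype.card V := by simp at hs; omega
  rw [card_univ, nsmul_eq_mul]
  have a1 : ((Fintype.card V).choose s : ℝ) ≤ _ := Nat.choose_le_pow_div s (Fintype.card V)
  have a2 := Real.pow_div_factorial_le_exp s (Nat.cast_nonneg s) s
  have a3 : Real.exp s ≤ 3 ^ s := by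
    rw [← Real.exp_one_pow]
    exact pow_le_pow_left₀ (Real.exp_pos _).le Real.exp_one_lt_three.le s
  refine (mul_le_mul_of_nonneg_right a1 (by positivity)).trans ?_
  have e : (Fintype.card V : ℝ) ^ s / s.factorial * ((Fintype.card V : ℝ) / s * 6)⁻¹ ^ s =
      (s : ℝ) ^ s / s.factorial * (1 / 6) ^ s := by
    have : (0 : ℝ) < Fintype.card V := by exact_mod_cast hN
    have : (0 : ℝ) < s := by exact_mod_cast hs0
    rw [mul_inv, inv_div, mul_pow, div_pow]
    field_simp
  rw [e]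
  refine (mul_le_mul_of_nonneg_right (a2.trans a3) (by positivity)).trans (le_of_eq ?_)
  rw [← mul_pow]; norm_num

theorem pot_step (F : Finset (V × Fin 33)) (hd : V × Fin 33 → V) (e : V × Fin 33) (he : e ∉ F)
    (Al : Finset V) (hAl : 20 * Fintype.card V ≤ 21 * #Al) [Nonempty V] :
    ∃ y ∈ Al, pot (insert e F) (Function.update hd e y) ≤ pot F hd := by
  have hN : 0 < Fintype.card V := Fintype.card_pos
  have hN' : (0 : ℝ) < Fintype.card V := by exact_mod_cast hN
  refine exists_le_of_sum_le (card_pos.1 (by omega)) ?_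
  simp only [pot]
  rw [sum_comm, sum_comm (s := Al)]
  refine sum_le_sum fun S hS => ?_
  have e1 : ∀ y, ∏ ε ∈ insert e F, fac S ε (Function.update hd e y ε) =
      fac S e y * ∏ ε ∈ F, fac S ε (hd ε) := by
    intro y
    rw [prod_insert he, Function.update_self]
    congr 1
    exact prod_congr rfl fun ε hε => by rw [Function.update_of_ne (by rintro rfl; exact he hε)]
  simp only [e1]
  rw [← mul_sum, ← sum_mul, ← mul_sum, sum_const, nsmul_eq_mul]
  have l0 := lam_nonneg S
  refine mul_le_mul_of_nonneg_left (mul_le_mul_of_nonneg_right ?_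
    (prod_nonneg fun _ _ => fac_nonneg _ _ _)) (by positivity)
  simp only [fac]
  split_ifs with h
  · have m1 := muu_pos S
    rw [← sum_div, div_le_iff₀ (by linarith)]
    have hs : (0 : ℝ) < #S := by exact_mod_cast card_pos.2 (mem_filter.1 hS).2
    have hsN : (#S : ℝ) ≤ Fintype.card V := by exact_mod_cast card_le_univ S
    have l1 : 1 ≤ lam S := by simp only [lam]; rwa [one_le_div hs]
    have a1 : ∑ y ∈ Al, (if y ∈ S then lam S else 1) = #Al + (lam S - 1) * #(Al ∩ S) := by
      have : ∀ y, (if y ∈ S then lam S else 1) = 1 + if y ∈ S then lam S - 1 else 0 := by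
        intro y; split_ifs <;> ring
      simp only [this, sum_add_distrib, sum_ite_mem]
      simp [mul_comm, mul_sub]
    have a2 : (#(Al ∩ S) : ℝ) ≤ #S := by exact_mod_cast card_le_card inter_subset_right
    have a3 : (lam S - 1) * #S = Fintype.card V - #S := by
      simp only [lam]; field_simp
    have a4 : (20 : ℝ) * Fintype.card V ≤ 21 * #Al := by exact_mod_cast hAl
    have a5 : (Fintype.card V : ℝ) - #S ≤ #Al * (muu S - 1) := by
      have : muu S - 1 = 21 / 20 * (Fintype.card V - #S) / Fintype.card V := by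
        simp only [muu]; field_simp; ring
      rw [this, ← mul_div_assoc, le_div_iff₀ hN']
      nlinarith
    rw [a1]
    nlinarith
  · simp

theorem pot_final (hd : V × Fin 33 → V) (h : pot univ hd ≤ 2) (S : Finset V)
    (hS : 2 * #S ≤ Fintype.card V) : #S ≤ #{ε : V × Fin 33 | ε.2 ≠ 0 ∧ ε.1 ∈ S ∧ hd ε ∉ S} := by
  by_contra hc
  have hne : S.Nonempty := card_pos.1 (by omega)
  have l0 := lam_nonneg S
  have a1 : (lam S * 6)⁻¹ ^ #S * ∏ ε, fac S ε (hd ε) ≤ 2 := by
    refine le_trans ?_ h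
    refine single_le_sum (f := fun S : Finset V => (lam S * 6)⁻¹ ^ #S * ∏ ε, fac S ε (hd ε))
      (fun S _ => ?_) (by simpa using hne)
    have := lam_nonneg S
    exact mul_nonneg (by positivity) (prod_nonneg fun _ _ => fac_nonneg _ _ _)
  have c1 : #{ε : V × Fin 33 | ε.2 ≠ 0 ∧ ε.1 ∈ S} = #S * 32 := by
    have : ({ε : V × Fin 33 | ε.2 ≠ 0 ∧ ε.1 ∈ S} : Finset _) = S ×ˢ (univ.erase 0) := by
      ext ε; simp [and_comm]
    rw [this, card_product]; simp
  have c2 := card_filter_add_card_filter_not (s := ({ε : V × Fin 33 | ε.2 ≠ 0 ∧ ε.1 ∈ S} : Finset _))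
    (fun ε => hd ε ∈ S)
  simp only [filter_filter, and_assoc] at c2
  have a2 : ∏ ε, fac S ε (hd ε) = lam S ^ #{ε : V × Fin 33 | ε.2 ≠ 0 ∧ ε.1 ∈ S ∧ hd ε ∈ S} /
      muu S ^ (#S * 32) := by
    simp only [fac]
    rw [prod_ite, prod_const_one, mul_one, prod_div_distrib, prod_const, c1, prod_ite,
      prod_const_one, mul_one, prod_const, filter_filter]
    simp only [and_assoc]
  have hs : (0 : ℝ) < #S := by exact_mod_cast card_pos.2 hne
  have l2 : 2 ≤ lam S := by
    simp only [lam]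
    rw [le_div_iff₀ hs]; exact_mod_cast hS
  have m1 := muu_pos S
  have m2 : muu S = 41 / 20 - 21 / 20 * (lam S)⁻¹ := by simp [muu, lam]
  have m3 : muu S ^ 4 ≤ lam S ^ 3 := by
    rcases le_total (lam S) (21 / 8) with h1 | h1
    · have : (21 / 8 : ℝ)⁻¹ ≤ (lam S)⁻¹ := inv_anti₀ (by linarith) h1
      calc muu S ^ 4 ≤ (33 / 20) ^ 4 := pow_le_pow_left₀ (by linarith) (by linarith) 4
        _ ≤ 2 ^ 3 := by norm_num
        _ ≤ _ := pow_le_pow_left₀ (by norm_num) l2 3
    · have : 0 ≤ (lam S)⁻¹ := by positivity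
      calc muu S ^ 4 ≤ (41 / 20) ^ 4 := pow_le_pow_left₀ (by linarith) (by linarith) 4
        _ ≤ (21 / 8) ^ 3 := by norm_num
        _ ≤ _ := pow_le_pow_left₀ (by norm_num) h1 3
  have m4 : muu S ^ (#S * 32) ≤ lam S ^ (#S * 24) := by
    have := pow_le_pow_left₀ (by positivity) m3 (#S * 8)
    rw [← pow_mul, ← pow_mul] at this
    rwa [show #S * 32 = 4 * (#S * 8) by ring, show #S * 24 = 3 * (#S * 8) by ring]
  have m5 : lam S ^ (#S * 31) ≤ lam S ^ #{ε : V × Fin 33 | ε.2 ≠ 0 ∧ ε.1 ∈ S ∧ hd ε ∈ S} :=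
    pow_le_pow_right₀ (by linarith) (by omega)
  have m6 : lam S ^ (#S * 31) / lam S ^ (#S * 24) ≤ ∏ ε, fac S ε (hd ε) := by
    rw [a2]
    exact div_le_div₀ (by positivity) m5 (by positivity) m4
  have m7 : (lam S * 6)⁻¹ ^ #S * (lam S ^ (#S * 31) / lam S ^ (#S * 24)) = (lam S ^ 6 / 6) ^ #S := by
    rw [mul_comm #S, mul_comm #S, pow_mul, pow_mul, ← div_pow, ← mul_pow]
    congr 1
    field_simp
  have m8 := (mul_le_mul_of_nonneg_left m6 (by positivity)).trans a1
  rw [m7] at m8
  have m9 : (2 : ℝ) ^ 6 ≤ lam S ^ 6 := pow_le_pow_left₀ (by norm_num) l2 6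
  have := (le_self_pow₀ (a := lam S ^ 6 / 6) (by linarith) (card_pos.2 hne).ne').trans m8
  linarith

theorem greedy [Nonempty V] (g : ℕ) (hN : 50 * 1684 ^ g ≤ Fintype.card V)
    (F : Finset (V × Fin 33)) :
    ∃ hd : V × Fin 33 → V, (∀ y, #{ε ∈ F | hd ε = y} ≤ 1650) ∧
      (∀ x es, Wk (YF Prod.fst hd F) x es x → Rd es → es.length < g → es = []) ∧ pot F hd ≤ 2 := by
  induction F using Finset.induction_on with
  | empty =>
    refine ⟨Prod.fst, by simp, fun x es h _ _ => ?_, pot_empty _⟩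
    cases h with
    | nil => rfl
    | cons h _ => exact absurd h.2 (by simp)
  | insert e F he ih =>
    obtain ⟨hd, h1, h2, h3⟩ := ih
    obtain ⟨Ba, b1, b2⟩ := ball_card (fold_YF Prod.fst hd F) (deg_YF hd F fun y =>
      ⟨_, h1 y, fun ε hε h => mem_filter.2 ⟨hε, h⟩⟩) g e.1
    set Fu : Finset V := {y | 1650 ≤ #{ε ∈ F | hd ε = y}} with hFu
    have c1 : #Fu * 1650 ≤ Fintype.card V * 33 := by
      have a1 := card_eq_sum_card_fiberwise (f := hd) (s := F) (t := univ) (fun _ _ => by simp)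
      have a2 := card_le_univ F
      have a3 : ∑ _y ∈ Fu, 1650 ≤ ∑ y, #{ε ∈ F | hd ε = y} :=
        (sum_le_sum fun y hy => (mem_filter.1 hy).2).trans (sum_le_sum_of_subset (subset_univ _))
      simp only [sum_const, smul_eq_mul, Fintype.card_prod, Fintype.card_fin] at a2 a3
      omega
    have c2 := card_union_le Ba Fu
    have c3 := card_add_card_compl (Ba ∪ Fu)
    obtain ⟨y, hy, h4⟩ := pot_step F hd e he (Ba ∪ Fu)ᶜ (by norm_num at b1; omega)
    simp only [mem_compl, mem_union, not_or, hFu, mem_filter, mem_univ, true_and] at hy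
    refine ⟨Function.update hd e y, fun z => ?_, ?_, h4.trans h3⟩
    · have a1 : ({ε ∈ F | Function.update hd e y ε = z} : Finset _) = {ε ∈ F | hd ε = z} :=
        filter_congr fun ε hε => by rw [Function.update_of_ne (by rintro rfl; exact he hε)]
      rw [filter_insert, a1, Function.update_self]
      split_ifs with hz
      · subst hz
        have := card_insert_le e {ε ∈ F | hd ε = y}
        omega
      · exact h1 z
    · rw [coe_insert]
      exact girth_step _ hd F e he y g h2 fun w hw hl => hy.1 (b2 w y hw hl)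

end greedy

theorem exists_expander (g : ℕ) : ∃ (N : ℕ) (hd : Fin (N + 1) × Fin 33 → Fin (N + 1)),
    N + 1 = 50 * 1684 ^ g ∧ Expd 1650 hd ∧
    ∀ x es, Wk (YE Prod.fst hd) x es x → Rd es → es.length < g → es = [] := by
  obtain ⟨N, hN⟩ : ∃ N, N + 1 = 50 * 1684 ^ g := ⟨50 * 1684 ^ g - 1, by
    have : 0 < 1684 ^ g := by positivity
    omega⟩
  obtain ⟨hd, h1, h2, h3⟩ := greedy (V := Fin (N + 1)) g (by simp [hN]) univ
  exact ⟨N, hd, hN, ⟨h1, pot_final hd h3⟩,
    fun x es h => h2 x es (h.mono fun _ _ _ h => ⟨h, by simp⟩)⟩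

end Pool.Agent.Lib.MP_f40e16_al
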