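import Pool.Agent.Lib.MP_f40e16_al.Integrate

set_option autoImplicit false

namespace Pool.Agent.Lib.MP_f40e16_al

open FreeGroup Base

variable {B : Base} {σ : Set (Cell B)}

theorem mk_iv {S : Type} (l : S × Bool) : mk [iv l] = (mk [l])⁻¹ := by
  rw [← invRev_single, mk_invRev]

theorem ce_of_good (G : Good σ) (hc : ∀ u x, Ex σ u → Sat σ u x) {Γ : Type} [Group Γ]
    (γ : FreeGroup B.S →* Γ) (hγ : Function.Surjective γ)
    (h1 : ∀ z w, Wk B.XD z w z → γ (mk w) = 1) (μ : Γ → U B) (hμ1 : μ 1 = U.o)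
    (hμ : ∀ g l, Dart σ (μ g) l (μ (g * γ (mk [l])))) : CE Γ := by
  classical
  have := B.finS
  have : Countable Γ := hγ.countable
  let r : Γ × B.S → Γ × B.S → Prop := fun p q => ∃ ε w, Wk B.YD (B.tl ε) w (B.tl ε) ∧
    p.2 = B.lab ε ∧ q = (p.1 * γ (mk w), p.2)
  let Ω := Quot r
  let act : Γ → Ω → Ω := fun x => Quot.map (fun p => (x * p.1, p.2)) (by
    rintro p q ⟨ε, w, a1, a2, rfl⟩
    exact ⟨ε, w, a1, a2, by simp [mul_assoc]⟩)
  have act_inj : ∀ x, Function.Injective (act x) := by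
    intro x
    refine Function.LeftInverse.injective (g := act x⁻¹) fun a => ?_
    induction a using Quot.ind with
    | mk p => simp [act, Quot.map]
  let ω : Γ → B.L → Ω := fun g l =>
    if l.2 then Quot.mk r (g, l.1) else Quot.mk r (g * γ (mk [l]), l.1)
  have ω_iv : ∀ g l, ω (g * γ (mk [l])) (iv l) = ω g l := by
    rintro g ⟨s, c⟩
    cases c
    · simp [ω, iv]
    · have : mk [(s, false)] = (mk [(s, true)])⁻¹ := mk_iv (s, true)
      simp [ω, iv, this, -inv_mk]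
  have ω_act : ∀ x g l, act x (ω g l) = ω (x * g) l := by
    rintro x g ⟨s, c⟩
    cases c <;> simp [ω, act, Quot.map, mul_assoc]
  let D : Γ × (Ω →₀ ZMod 2) → B.L → Γ × (Ω →₀ ZMod 2) → Prop := fun a l b =>
    b = (a.1 * γ (mk [l]), a.2 + Finsupp.single (ω a.1 l) 1)
  have hD : Fold D := by
    constructor
    · rintro a b l rfl
      simp only [D, ω_iv, mk_iv, _root_.map_inv, mul_inv_cancel_right, add_assoc, add_self2,
        add_zero]
    · rintro a b c l rfl rfl; rfl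
  have tot : ∀ a l, ∃ b, D a l b := fun a l => ⟨_, rfl⟩
  have Dfst : ∀ {a w b}, Wk D a w b → b.1 = a.1 * γ (mk w) := by
    intro a w b h
    induction h with
    | nil _ => simp [mk_nil]
    | @cons a b c l w h _ ih =>
      rw [ih, h, mk_cons' l w, _root_.map_mul, mul_assoc]
  have cl : ∀ z w a b, Wk B.XD z w z → Wk D a w b → b = a := by
    intro z w a b hw hab
    have hnm : ∀ ε, ∃ n : Ω, ∀ w', Wk B.YD z.1 w' (B.tl ε) →
        n = Quot.mk r (a.1 * γ (mk w'), B.lab ε) := by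
      intro ε
      by_cases h : ∃ w', Wk B.YD z.1 w' (B.tl ε)
      · obtain ⟨w₀, h₀⟩ := h
        refine ⟨Quot.mk r (a.1 * γ (mk w₀), B.lab ε), fun w' h' => Quot.sound ?_⟩
        exact ⟨ε, _, (h₀.rev fold_YD).append h', rfl, by simp [mk_append, mk_invRev, -mul_mk, -inv_mk]⟩
      · exact ⟨Quot.mk r (1, B.lab ε), fun w' h' => absurd ⟨w', h'⟩ h⟩
    choose nm hnm using hnm
    have key : ∀ {y w y'}, Wk B.XD y w y' → ∀ w₀ c d, Wk B.YD z.1 w₀ y.1 →
        c.1 = a.1 * γ (mk w₀) → Wk D c w d →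
        d.2 + y'.2.mapDomain nm = c.2 + y.2.mapDomain nm := by
      intro y w y' h
      induction h with
      | nil _ => intro w₀ c d _ _ h; rw [wk_nil.1 h]
      | @cons y y₁ y' l w h _ ih =>
        intro w₀ c d a1 a2 a3
        obtain ⟨c₁, rfl, a4⟩ := wk_cons.1 a3
        obtain ⟨e, h⟩ := h
        have a5 : Wk B.YD z.1 (w₀ ++ [l]) y₁.1 := a1.snoc ⟨e, h.1⟩
        rw [ih (w₀ ++ [l]) _ d a5 (by simp [a2, mk_append, mul_assoc, -mul_mk]) a4, h.2,
          Finsupp.mapDomain_add, Finsupp.mapDomain_single]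
        have : nm e = ω c.1 l := by
          obtain ⟨s, b⟩ := l
          obtain ⟨⟨e1, e2⟩, -⟩ := h
          simp only at e1
          subst e1
          rcases e2 with ⟨e2, e3, -⟩ | ⟨e2, -, e3⟩
          · simp only at e2 e3
            subst e2
            rw [hnm e w₀ (e3 ▸ a1), a2]; simp [ω]
          · simp only at e2 e3
            subst e2
            rw [hnm e _ (e3 ▸ a5), a2]; simp [ω, mk_append, mul_assoc, -mul_mk]
        rw [this]
        simp only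
        rw [← add_zero (c.2 + Finsupp.mapDomain nm y.2),
          ← add_self2 (Finsupp.single (ω c.1 l) (1 : ZMod 2))]
        abel
    have := key hw [] a b (Wk.nil _) (by simp [mk_nil]) hab
    exact Prod.ext (by rw [Dfst hab, h1 z w hw, mul_one]) (add_right_cancel this)
  obtain ⟨θ, hθ0, hθ⟩ := G.integrate hD tot cl (1, 0)
  have hθw : ∀ {u w u'}, Wk (Dart σ) u w u' → Wk D (θ u) w (θ u') := fun h => h.map θ hθ
  have hμw : ∀ w g, Wk (Dart σ) (μ g) w (μ (g * γ (mk w))) := by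
    intro w
    induction w with
    | nil => intro g; simp [mk_nil]
    | cons l w ih =>
      intro g
      refine Wk.cons (hμ g l) ?_
      have := ih (g * γ (mk [l]))
      rwa [mul_assoc, ← _root_.map_mul, ← mk_cons'] at this
  have surj : ∀ g, ∃ w, γ (mk w) = g := by
    intro g
    obtain ⟨x, rfl⟩ := hγ g
    induction x using Quot.ind with
    | mk w => exact ⟨w, rfl⟩
  have θμ : ∀ g, (θ (μ g)).1 = g := by
    intro g
    obtain ⟨w, rfl⟩ := surj g
    have := Dfst (hθw (hμw w 1))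
    simpa [hμ1, hθ0] using this
  have μθ : ∀ u, Ex σ u → μ (θ u).1 = u := by
    intro u hu
    obtain ⟨w, a1, -⟩ := G.reach hu
    have a2 := Dfst (hθw a1)
    have a3 := hμw w 1
    rw [hμ1] at a3
    rw [a2, hθ0]
    exact a3.func G.fold_dart a1
  let F : Γ → (Ω →₀ ZMod 2) := fun g => (θ (μ g)).2
  have hF : ∀ x g, F (x * g) = F x + (F g).mapDomain (act x) := by
    intro x g
    obtain ⟨w, rfl⟩ := surj g
    have a1 := hθw (hμw w 1)
    have a2 := a1.map (D' := D) (fun a => (x * a.1, F x + a.2.mapDomain (act x))) (by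
      rintro a l b rfl
      simp [D, mul_assoc, Finsupp.mapDomain_add, ω_act, add_assoc])
    have a3 := hθw (hμw w x)
    have e : θ (μ x) = (x * (θ (μ 1)).1, F x + (θ (μ 1)).2.mapDomain (act x)) := by
      rw [hμ1, hθ0]
      exact Prod.ext (by simp [θμ]) (by simp [F])
    rw [e] at a3
    have := congrArg Prod.snd (a3.func hD a2)
    simpa [F] using this
  have hW : ∀ u l, ∃ n : Nm B, ∀ Q ∈ σ, ∀ z e z', Q.In z → B.XX z l e z' → Q.φ z = u →
      n = Q.ν e := by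
    intro u l
    by_cases h : ∃ Q ∈ σ, ∃ z e z', Q.In z ∧ B.XX z l e z' ∧ Q.φ z = u
    · obtain ⟨Q, hQ, z, e, z', a1, a2, rfl⟩ := h
      exact ⟨Q.ν e, fun Q' hQ' y f y' b1 b2 b3 => G.nu Q hQ Q' hQ' z y l e f z' y' a1 b1 a2 b2 b3.symm⟩
    · obtain ⟨e, -⟩ := B.surj l.1
      exact ⟨((u, B.tl e), e), fun Q' hQ' y f y' b1 b2 b3 => absurd ⟨Q', hQ', y, f, y', b1, b2, b3⟩ h⟩
  choose W hW using hW
  let κ : Ω → Nm B := Quot.lift (fun p => W (μ p.1) (p.2, true)) (by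
    rintro ⟨g, s⟩ q ⟨ε, w, a1, a2, rfl⟩
    simp only at a2 ⊢
    subst a2
    obtain ⟨Q, hQ, ⟨x, ξ⟩, b1, b2, b3⟩ := hc (μ g) (B.tl ε) (hμ g (B.lab ε, true)).ex_left
    simp only at b3
    subst b3
    obtain ⟨ξ', b4⟩ := liftX a1 ξ
    have b5 := img_walk hQ b1 b4
    rw [b2] at b5
    have b6 := b5.func G.fold_dart (hμw w g)
    have xx : ∀ η, B.XX (B.tl ε, η) (B.lab ε, true) ε (B.hd ε, η + Finsupp.single ε 1) :=
      fun η => ⟨⟨rfl, Or.inl ⟨rfl, rfl, rfl⟩⟩, rfl⟩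
    rw [hW _ _ Q hQ _ _ _ b1 (xx ξ) b2, hW _ _ Q hQ _ _ _ (b1.walk b4) (xx ξ') b6])
  have hb : ∀ Q ∈ σ, ∀ z l e z', Q.In z → B.XX z l e z' →
      (θ (Q.φ z')).2.mapDomain κ = (θ (Q.φ z)).2.mapDomain κ + Finsupp.single (Q.ν e) 1 := by
    intro Q hQ z l e z' a1 a2
    have a3 := dart_of hQ a1 ⟨e, a2⟩
    have a4 := μθ _ a3.ex_left
    rw [hθ _ _ _ a3, Finsupp.mapDomain_add, Finsupp.mapDomain_single]
    congr 2
    obtain ⟨s, c⟩ := l
    cases c
    · have a5 := hμ (θ (Q.φ z)).1 (s, false)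
      rw [a4] at a5
      exact hW _ _ Q hQ z' e z (a1.step ⟨e, a2⟩) a2.symm (G.fold_dart.func a3 a5)
    · exact hW _ _ Q hQ z e z' a1 a2 a4.symm
  obtain ⟨f, hf⟩ := exists_l2 Ω
  have hn : ∀ x g, ‖f (F (x * g)) - f (F x)‖ ^ 2 = (F g).support.card := by
    intro x g
    rw [hF, hf, Finsupp.mapDomain_support_of_injective (act_inj x),
      Finset.card_image_of_injective _ (act_inj x)]
  refine ⟨fun g => f (F g), fun g => ⟨√((F g).support.card), fun x => ?_⟩, fun R => ?_⟩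
  · exact Real.le_sqrt_of_sq_le (hn x g).le
  · obtain ⟨H, hH⟩ := G.proper (b := fun u => (θ u).2.mapDomain κ) (by simp [hθ0]) hb ⌈R ^ 2⌉₊
    refine ((List.finite_length_le B.L H).image fun w => γ (mk w)).subset ?_
    rintro g ⟨x, hx⟩
    have hu : Ex σ (μ g) := by
      obtain ⟨w, rfl⟩ := surj g
      have := hμw w 1
      rw [one_mul, hμ1] at this
      exact this.ind_end (Ex σ) (fun _ _ _ _ h => h.ex_right) (Or.inl rfl)
    have a1 : ((F g).support.card : ℝ) ≤ R ^ 2 := by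
      rw [← hn x g]
      exact pow_le_pow_left₀ (norm_nonneg _) hx 2
    have a2 : (F g).support.card ≤ ⌈R ^ 2⌉₊ := by
      exact_mod_cast a1.trans (Nat.le_ceil _)
    have a3 := hH (μ g) hu
      (((Finset.card_le_card Finsupp.mapDomain_support).trans Finset.card_image_le).trans a2)
    obtain ⟨w, a4, a5⟩ := G.reach hu
    refine ⟨w, a5.trans a3, ?_⟩
    have := Dfst (hθw a4)
    rw [θμ, hθ0, one_mul] at this
    exact this.symm

/-- the weighted cover -/
def Base.XT (B : Base) (p : B.W × ℤ) (l : B.L) (q : B.W × ℤ) : Prop :=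
  ∃ e, B.XX p.1 l e q.1 ∧ q.2 = p.2 + sg l (B.J e)

theorem xt_lift {z z' : B.W} {w : List B.L} (h : Wk B.XD z w z') (t : ℤ) :
    ∃ t', Wk B.XT (z, t) w (z', t') := by
  induction h generalizing t with
  | nil _ => exact ⟨t, Wk.nil _⟩
  | @cons a b c l w h _ ih =>
    obtain ⟨e, h⟩ := h
    obtain ⟨t', h'⟩ := ih (t + sg l (B.J e))
    exact ⟨t', Wk.cons ⟨e, h, rfl⟩ h'⟩

theorem exists_groups (B : Base) : ∃ (G E : Type) (_ : Group G) (_ : Group E),
    Group.FG G ∧ Group.FG E ∧ CE G ∧ ∃ (i : Multiplicative ℤ →* E) (π : E →* G), Function.Injective i ∧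
      Function.Surjective π ∧ i.range = π.ker ∧ i.range ≤ Subgroup.center E ∧
      ∃ γ : FreeGroup B.S →* E, ∀ z t t' w, Wk B.XT (z, t) w (z, t') →
        γ (mk w) = i (Multiplicative.ofAdd (t' - t)) := by
  have := B.finS
  obtain ⟨σ, G, hc⟩ := exists_complete B
  let Z := {u : U B // Ex σ u} × ℤ
  let D : Z → B.L → Z → Prop := fun p l q => ∃ Q ∈ σ, ∃ z z' e, Q.In z ∧ B.XX z l e z' ∧
    Q.φ z = p.1.1 ∧ Q.φ z' = q.1.1 ∧ q.2 = p.2 + (sg l (B.J e) + Q.ψ z' - Q.ψ z)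
  have hD : Fold D := by
    constructor
    · rintro a b l ⟨Q, hQ, z, z', e, a1, a2, a3, a4, a5⟩
      exact ⟨Q, hQ, z', z, e, a1.step ⟨e, a2⟩, a2.symm, a4, a3, by rw [a5, sg_iv]; ring⟩
    · rintro a b c l ⟨Q, hQ, z, z', e, a1, a2, a3, a4, a5⟩ ⟨Q', hQ', y, y', f, b1, b2, b3, b4, b5⟩
      refine Prod.ext (Subtype.ext ?_) ?_
      · rw [← a4, ← b4]
        exact G.fold Q hQ Q' hQ' z y l z' y' a1 b1 ⟨e, a2⟩ ⟨f, b2⟩ (a3.trans b3.symm)
      · rw [a5, b5, G.psi Q hQ Q' hQ' z y l e f z' y' a1 b1 a2 b2 (a3.trans b3.symm)]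
  have tot : ∀ a l, ∃ b, D a l b := by
    intro a l
    obtain ⟨Q, hQ, z, e, z', a1, a2, a3⟩ := exists_xx_at hc a.1.2 l
    exact ⟨(⟨Q.φ z', Or.inr ⟨Q, hQ, z', a1.step ⟨e, a2⟩, rfl⟩⟩, _), Q, hQ, z, z', e, a1, a2, a3,
      rfl, rfl⟩
  obtain ⟨ρ, hρ⟩ := exists_rho hD tot
  let ζ : Multiplicative ℤ →* Equiv.Perm Z := MonoidHom.mk'
    (fun k => Equiv.prodCongr (Equiv.refl _) (Equiv.subRight k.toAdd)) (by
      intro a b
      ext p
      · rfl
      · simp [Z, sub_sub, add_comm])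
  have hζ : ∀ k (p : Z), ζ k p = (p.1, p.2 - k.toAdd) := fun k p => rfl
  have comm : ∀ x k, Commute (ρ x) (ζ k) := by
    intro x k
    induction x using Quot.ind with
    | mk w =>
    refine Equiv.ext fun p => ?_
    have h := (hρ _ w p).2 rfl
    exact (hρ _ w _).1 (h.map (ζ k) (by
      rintro a l b ⟨Q, hQ, z, z', e, a1, a2, a3, a4, a5⟩
      exact ⟨Q, hQ, z, z', e, a1, a2, a3, a4, by simp only [hζ, a5]; ring⟩))
  have closed : ∀ z t t' w, Wk B.XT (z, t) w (z, t') →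
      ρ (mk w) = ζ (Multiplicative.ofAdd (t' - t)) := by
    intro z t t' w hw
    refine Equiv.ext fun p => (hρ _ w _).1 ?_
    obtain ⟨Q, hQ, y, a1, a2, a3⟩ := hc p.1.1 z.1 p.1.2
    have key : ∀ {a b : B.W × ℤ} {w}, Wk B.XT a w b → ∀ (c : Z) (η : B.Ed →₀ ZMod 2),
        Q.In (a.1.1, a.1.2 + η) → Q.φ (a.1.1, a.1.2 + η) = c.1.1 →
        ∃ d : Z, Wk D c w d ∧ Q.φ (b.1.1, b.1.2 + η) = d.1.1 ∧
          d.2 = c.2 + (b.2 - a.2) + Q.ψ (b.1.1, b.1.2 + η) - Q.ψ (a.1.1, a.1.2 + η) := by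
      intro a b w h
      induction h with
      | nil _ => intro c η _ h; exact ⟨c, Wk.nil _, h, by simp⟩
      | @cons a b b' l w h _ ih =>
        intro c η b1 b2
        obtain ⟨e, h, h'⟩ := h
        have b3 : B.XX (a.1.1, a.1.2 + η) l e (b.1.1, b.1.2 + η) :=
          ⟨h.1, by simp only [h.2]; abel⟩
        obtain ⟨d, c1, c2, c3⟩ := ih (⟨_, Or.inr ⟨Q, hQ, _, b1.step ⟨e, b3⟩, rfl⟩⟩,
          c.2 + (sg l (B.J e) + Q.ψ (b.1.1, b.1.2 + η) - Q.ψ (a.1.1, a.1.2 + η))) η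
          (b1.step ⟨e, b3⟩) rfl
        exact ⟨d, Wk.cons ⟨Q, hQ, _, _, e, b1, b3, b2, rfl, rfl⟩ c1, c2, by
          rw [c3, h']; ring⟩
    have e : (z.1, z.2 + (z.2 + y.2)) = y := by
      rw [← add_assoc, add_self2, zero_add, ← a3]
    obtain ⟨d, c1, c2, c3⟩ := key hw (ζ (Multiplicative.ofAdd (t' - t)) p) (z.2 + y.2)
      (by simp only [e]; exact a1) (by simp only [e]; exact a2)
    have : d = p := by
      refine Prod.ext (Subtype.ext ?_) ?_
      · rw [← c2]; simp only [e]; exact a2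
      · rw [c3, hζ]; simp
    rwa [this] at c1
  let Φ := (ρ.noncommCoprod ζ comm).rangeRestrict
  have hΦ : Function.Surjective Φ := MonoidHom.rangeRestrict_surjective _
  have vΦ : ∀ x, (Φ x : Equiv.Perm Z) = ρ x.1 * ζ x.2 := fun x => rfl
  let i := Φ.comp (MonoidHom.inr _ _)
  let γ := Φ.comp (MonoidHom.inl _ _)
  have hcen : i.range ≤ Subgroup.center _ := by
    rintro _ ⟨k, rfl⟩
    rw [Subgroup.mem_center_iff]
    intro g
    obtain ⟨x, rfl⟩ := hΦ g
    simp only [i, MonoidHom.comp_apply, ← _root_.map_mul]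
    congr 1
    exact Prod.ext (by simp) (by simp [mul_comm])
  have hN : i.range.Normal := ⟨fun n hn g => by
    rwa [Subgroup.mem_center_iff.1 (hcen hn) g, mul_inv_cancel_right]⟩
  have hrel : ∀ z t t' w, Wk B.XT (z, t) w (z, t') →
      γ (mk w) = i (Multiplicative.ofAdd (t' - t)) := by
    intro z t t' w hw
    refine Subtype.ext ?_
    simp [γ, i, vΦ, closed z t t' w hw]
  let π := QuotientGroup.mk' i.range
  have hπ : Function.Surjective π := QuotientGroup.mk'_surjective _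
  have hπi : ∀ k, π (i k) = 1 := fun k => (QuotientGroup.eq_one_iff _).2 ⟨k, rfl⟩
  have hs : Function.Surjective (π.comp γ) := by
    intro g
    obtain ⟨e, rfl⟩ := hπ g
    obtain ⟨x, rfl⟩ := hΦ e
    refine ⟨x.1, ?_⟩
    have : Φ x = γ x.1 * i x.2 := by simp [γ, i, ← _root_.map_mul]
    rw [this, _root_.map_mul, hπi, mul_one]; rfl
  let o : Z := (⟨U.o, Or.inl rfl⟩, 0)
  have wd : ∀ x y, π (γ x) = π (γ y) → ((ρ x)⁻¹ o).1 = ((ρ y)⁻¹ o).1 := by
    intro x y h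
    obtain ⟨k, hk⟩ := QuotientGroup.eq.1 h
    have h2 := congrArg Subtype.val hk
    simp only [i, γ, MonoidHom.comp_apply, Subgroup.coe_mul, Subgroup.coe_inv, vΦ] at h2
    simp at h2
    have : (ρ x)⁻¹ = ζ k * (ρ y)⁻¹ := by rw [h2]; simp
    rw [this]; rfl
  choose sec hsec using hs
  refine ⟨_, _, inferInstance, inferInstance,
    Group.fg_of_surjective (f := π.comp γ) fun g => ⟨_, hsec g⟩,
    Group.fg_of_surjective hΦ, ?_, i, π, ?_, hπ,
    (QuotientGroup.ker_mk' _).symm, hcen, γ, hrel⟩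
  · refine ce_of_good G hc (π.comp γ) (fun g => ⟨_, hsec g⟩) ?_ (fun g => ((ρ (sec g))⁻¹ o).1.1) ?_ ?_
    · intro z w hw
      obtain ⟨t', h⟩ := xt_lift hw 0
      rw [MonoidHom.comp_apply, hrel z 0 t' w h, hπi]
    · rw [wd (sec 1) 1 (by simpa using hsec 1)]; simp [o]
    · intro g l
      rw [wd (sec (g * (π.comp γ) (mk [l]))) (sec g * mk [l]) (by
        have := hsec g
        have h2 := hsec (g * (π.comp γ) (mk [l]))
        simp only [MonoidHom.comp_apply] at this h2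
        simp only [MonoidHom.comp_apply, _root_.map_mul, this, h2])]
      have := (hρ ((ρ (sec g))⁻¹ o) [l] ((ρ (sec g * mk [l]))⁻¹ o)).2 (by simp)
      obtain ⟨Q, hQ, z, z', e, a1, a2, a3, a4, -⟩ := wk_single.1 this
      exact ⟨Q, hQ, z, z', a1, ⟨e, a2⟩, a3, a4⟩
  · rw [injective_iff_map_eq_one]
    intro k hk
    have h2 := congrArg (fun e => (Subtype.val e o).2) hk
    simpa [i, vΦ, hζ, o] using h2

end Pool.Agent.Lib.MP_f40e16_al
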