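import Pool.Agent.Lib.MP_f40e16_al.Walls

set_option autoImplicit false

namespace Pool.Agent.Lib.MP_f40e16_al

open FreeGroup Base

/-- coarse embeddability into the separable Hilbert space -/
def CE (G : Type) [Group G] : Prop :=
  ∃ f : G → lp (fun _ : ℕ => ℝ) 2,
    (∀ g : G, ∃ C : ℝ, ∀ x : G, ‖f (x * g) - f x‖ ≤ C) ∧
    (∀ R : ℝ, {g : G | ∃ x : G, ‖f (x * g) - f x‖ ≤ R}.Finite)

theorem Wk.total {Z S : Type} {D : Z → S × Bool → Z → Prop} (tot : ∀ a l, ∃ b, D a l b)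
    (w : List (S × Bool)) (a : Z) : ∃ b, Wk D a w b := by
  induction w generalizing a with
  | nil => exact ⟨a, Wk.nil _⟩
  | cons l w ih =>
    obtain ⟨b, h⟩ := tot a l
    obtain ⟨c, h'⟩ := ih b
    exact ⟨c, Wk.cons h h'⟩

theorem mk_cons' {S : Type} (l : S × Bool) (w : List (S × Bool)) :
    mk (l :: w) = mk [l] * mk w := mk_append [l] w

theorem exists_rho {Z S : Type} {D : Z → S × Bool → Z → Prop} (hD : Fold D)
    (tot : ∀ a l, ∃ b, D a l b) :
    ∃ ρ : FreeGroup S →* Equiv.Perm Z, ∀ a w b, Wk D a w b ↔ ρ (mk w) b = a := by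
  choose nx hnx using tot
  have inv : ∀ a l, nx (nx a l) (iv l) = a := fun a l => hD.func (hnx _ _) (hD.symm (hnx a l))
  let P : S → Equiv.Perm Z := fun s =>
    ⟨fun b => nx b (s, false), fun a => nx a (s, true), fun b => inv b (s, false),
      fun a => inv a (s, true)⟩
  have one : ∀ l b, FreeGroup.lift P (mk [l]) b = nx b (iv l) := by
    rintro ⟨s, c⟩ b
    cases c
    · simp [FreeGroup.lift_mk, P, iv, Equiv.Perm.inv_def]
    · simp [FreeGroup.lift_mk, P, iv]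
  refine ⟨FreeGroup.lift P, fun a w b => ?_⟩
  induction w generalizing a with
  | nil => simp [mk_nil, eq_comm]
  | cons l w ih =>
    rw [wk_cons, mk_cons', _root_.map_mul, Equiv.Perm.mul_apply, one]
    constructor
    · rintro ⟨c, h1, h2⟩
      rw [(ih c).1 h2]
      exact hD.func (hnx _ _) (hD.symm h1)
    · intro h
      refine ⟨_, ?_, (ih _).2 rfl⟩
      have := hD.symm (hnx (FreeGroup.lift P (mk w) b) (iv l))
      rwa [h, iv_iv] at this

theorem exists_l2 (Ω : Type) [Countable Ω] : ∃ f : (Ω →₀ ZMod 2) → lp (fun _ : ℕ => ℝ) 2,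
    ∀ ξ η, ‖f (ξ + η) - f ξ‖ ^ 2 = η.support.card := by
  classical
  obtain ⟨ι, hι⟩ := exists_injective_nat Ω
  refine ⟨fun ξ => ∑ a ∈ ξ.support, lp.single 2 (ι a) (1 : ℝ), fun ξ η => ?_⟩
  let c : ℕ → ℝ := fun n => if n ∈ ξ.support.image ι then -1 else 1
  have h1 : ∑ a ∈ (ξ + η).support, lp.single 2 (ι a) (1 : ℝ) -
      ∑ a ∈ ξ.support, lp.single 2 (ι a) (1 : ℝ) =
      ∑ n ∈ η.support.image ι, lp.single (E := fun _ : ℕ => ℝ) 2 n (c n) := by
    rw [Finset.sum_image (fun a _ b _ h => hι h)]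
    have e1 : ∀ s : Finset Ω, s ⊆ ξ.support ∪ η.support → ∀ F : Ω → lp (fun _ : ℕ => ℝ) 2,
        ∑ a ∈ s, F a = ∑ a ∈ ξ.support ∪ η.support, if a ∈ s then F a else 0 := by
      intro s hs F
      rw [Finset.sum_ite_mem, Finset.inter_eq_right.2 hs]
    rw [e1 _ Finsupp.support_add, e1 _ Finset.subset_union_left, e1 _ Finset.subset_union_right,
      ← Finset.sum_sub_distrib]
    refine Finset.sum_congr rfl fun a _ => ?_
    have e2 : ι a ∈ ξ.support.image ι ↔ a ∈ ξ.support := by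
      simp only [Finset.mem_image]
      exact ⟨fun ⟨b, hb, e⟩ => hι e ▸ hb, fun h => ⟨a, h, rfl⟩⟩
    simp only [c, e2, Finsupp.mem_support_iff, Finsupp.add_apply]
    have h2 : ∀ x : ZMod 2, x = 0 ∨ x = 1 := by decide
    have h3 : (1 : ZMod 2) + 1 = 0 := by decide
    rcases h2 (ξ a) with h | h <;> rcases h2 (η a) with h' | h' <;> simp [h, h', h3, lp.single_neg]
  simp only
  rw [h1]
  have := lp.norm_sum_single (E := fun _ : ℕ => ℝ) (p := 2) (by norm_num) c (η.support.image ι)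
  simp only [ENNReal.toReal_ofNat, Real.rpow_ofNat] at this
  rw [this, Finset.sum_congr rfl (g := fun _ => (1 : ℝ)), Finset.sum_const,
    Finset.card_image_of_injective _ hι]
  · simp
  · intro n _
    simp only [c]
    split_ifs <;> simp

variable {B : Base} {σ : Set (Cell B)}

open Classical in
/-- transport along chosen walks -/
noncomputable def theta {Z : Type} (nx : Z → List B.L → Z) (a₀ : Z) : U B → Z
  | .o => a₀
  | .new v x y _ => if h : B.Cp x y then nx (theta nx a₀ v) h.choose else a₀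

theorem Good.integrate (G : Good σ) {Z : Type} {D : Z → B.L → Z → Prop} (hD : Fold D)
    (tot : ∀ a l, ∃ b, D a l b) (cl : ∀ z w a b, Wk B.XD z w z → Wk D a w b → b = a) (a₀ : Z) :
    ∃ θ : U B → Z, θ U.o = a₀ ∧ ∀ u l u', Dart σ u l u' → D (θ u) l (θ u') := by
  choose nx hnx using fun (a : Z) (w : List B.L) => Wk.total tot w a
  have indep : ∀ {z z' w w' a b}, Wk B.XD z w z' → Wk B.XD z w' z' → Wk D a w b → Wk D a w' b := by
    intro z z' w w' a b h1 h2 h3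
    have h4 := hnx a w'
    rwa [← cl _ _ _ _ ((h2.rev fold_XD).append h1) ((h4.rev hD).append h3)] at h4
  have step : ∀ Q : Cell B, (∀ z w, Wk B.XD (Q.x, 0) w z →
      Wk D (theta nx a₀ Q.v) w (theta nx a₀ (Q.φ z))) →
      ∀ z l z', Q.In z → B.XD z l z' → D (theta nx a₀ (Q.φ z)) l (theta nx a₀ (Q.φ z')) := by
    rintro Q h z l z' ⟨w, hw⟩ h2
    obtain ⟨b, h3, h4⟩ := wk_snoc.1 (h z' _ (hw.snoc h2))
    rwa [h3.func hD (h z w hw)] at h4
  have main : ∀ Q ∈ σ, ∀ z w, Wk B.XD (Q.x, 0) w z →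
      Wk D (theta nx a₀ Q.v) w (theta nx a₀ (Q.φ z)) := by
    intro Q hQ
    generalize hp : Q.id = p
    induction p using old_wf.induction generalizing Q with
    | _ p ih =>
    subst hp
    intro z w hw
    have hz : Q.In z := ⟨w, hw⟩
    by_cases hn : Q.New z
    · obtain ⟨k, hk⟩ := hn
      rw [hk, theta, dif_pos (show B.Cp Q.x z from hz)]
      exact indep hz.choose_spec hw (hnx _ _)
    · obtain ⟨τ, -, h2, -⟩ := G.tree Q hQ z hz hn
      refine indep (h2.mono fun _ _ _ h => h.1) hw ?_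
      have key : ∀ {a c τ}, Wk Q.TD a τ c → Q.In a →
          Wk D (theta nx a₀ (Q.φ a)) τ (theta nx a₀ (Q.φ c)) := by
        intro a c τ h
        induction h with
        | nil _ => intro _; exact Wk.nil _
        | @cons a b c l w h3 _ ih' =>
          intro ha
          refine Wk.cons ?_ (ih' (ha.step h3.1))
          obtain ⟨Q', hQ', a1, z₁, z₁', a2, a3, a4⟩ := G.old Q hQ a l b ha h3
          rw [← a4, ← G.fold Q' hQ' Q hQ z₁ a l z₁' b a2 ha a3 h3.1 a4]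
          exact step Q' (ih _ a1 Q' hQ' rfl) _ _ _ a2 a3
      have := key h2 Q.in_root
      rwa [G.root Q hQ] at this
  refine ⟨theta nx a₀, rfl, ?_⟩
  rintro u l u' ⟨Q, hQ, z, z', h1, h2, rfl, rfl⟩
  exact step Q (main Q hQ) z l z' h1 h2

theorem Good.reach (G : Good σ) {u : U B} (hu : Ex σ u) :
    ∃ w, Wk (Dart σ) U.o w u ∧ w.length ≤ u.ht := by
  generalize hk : u.ht = k
  induction k using Nat.strong_induction_on generalizing u with
  | _ k ih =>
  subst hk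
  by_cases ho : u = U.o
  · subst ho; exact ⟨[], Wk.nil _, by simp⟩
  obtain ⟨Z, hZ, z, h1, h2, rfl⟩ := G.exists_owner hu ho
  obtain ⟨l, z', h3, h4⟩ := G.down Z hZ z h1 h2
  obtain ⟨w, a1, a2⟩ := ih _ h4 (Or.inr ⟨Z, hZ, z', h1.step h3, rfl⟩) rfl
  exact ⟨w ++ [iv l], a1.snoc (dart_of hZ h1 h3).symm, by simp only [Cell.h] at h4 a2; simp; omega⟩

theorem exists_xx (l : B.L) : ∃ x : B.V, ∀ z : B.W, z.1 = x → ∃ e z', B.XX z l e z' := by
  obtain ⟨s, c⟩ := l
  obtain ⟨e, rfl⟩ := B.surj s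
  cases c
  · exact ⟨B.hd e, fun z h => ⟨e, (B.tl e, z.2 + Finsupp.single e 1),
      ⟨rfl, Or.inr ⟨rfl, h.symm, rfl⟩⟩, rfl⟩⟩
  · exact ⟨B.tl e, fun z h => ⟨e, (B.hd e, z.2 + Finsupp.single e 1),
      ⟨rfl, Or.inl ⟨rfl, h.symm, rfl⟩⟩, rfl⟩⟩

theorem exists_xx_at (hc : ∀ u x, Ex σ u → Sat σ u x) {u : U B} (hu : Ex σ u) (l : B.L) :
    ∃ Q ∈ σ, ∃ z e z', Q.In z ∧ B.XX z l e z' ∧ Q.φ z = u := by
  obtain ⟨x, hx⟩ := exists_xx l
  obtain ⟨Q, hQ, z, h1, h2, h3⟩ := hc u x hu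
  obtain ⟨e, z', h4⟩ := hx z h3
  exact ⟨Q, hQ, z, e, z', h1, h4, h2⟩

end Pool.Agent.Lib.MP_f40e16_al
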