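import Pool.Agent.Lib.MP_f40e16_al.Rosenfeld
import Pool.Agent.Lib.MP_f40e16_al.Expander

set_option autoImplicit false

namespace Pool.Agent.Lib.MP_f40e16_al

open Finset

section
variable {V Ed S : Type} {tl hd : Ed → V} {lab : Ed → S}

theorem partner (ht : ∀ e e', tl e = tl e' → lab e = lab e' → e = e')
    (hh : ∀ e e', hd e = hd e' → lab e = lab e' → e = e') {α : Type} {x x' : V}
    {es : List (Ed × Bool)} (h : Wk (YE tl hd) x es x') : ∀ {y y' : V} {fs : List (Ed × Bool)},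
    Wk (YE tl hd) y fs y' → x ≠ y → es.map (lm lab) = fs.map (lm lab) →
    ∀ m ∈ es, ∃ m' ∈ fs, m'.1 ≠ m.1 ∧ ∀ r : Ed → α,
      es.map (fun m => r m.1) = fs.map (fun m => r m.1) → r m.1 = r m'.1 := by
  induction h with
  | nil _ => simp
  | @cons a b c m es h1 _ ih =>
    intro y y' fs h' hne he
    cases h' with
    | nil => simp at he
    | @cons _ b' _ m' fs h1' h2' =>
      simp only [List.map_cons, List.cons.injEq, lm, Prod.mk.injEq] at he
      obtain ⟨⟨e1, e2⟩, e3⟩ := he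
      have hm : m' ≠ m := by rintro rfl; exact hne (h1.det h1').1
      intro n hn
      rcases List.mem_cons.1 hn with rfl | hn
      · exact ⟨m', by simp, fun h => hm (Prod.ext h e2.symm), fun r h => (List.cons.inj h).1⟩
      · obtain ⟨n', a1, a2, a3⟩ := ih h2' (by
          rintro rfl
          refine hm (Prod.ext ?_ e2.symm)
          rcases h1 with ⟨p1, -, p3⟩ | ⟨p1, -, p3⟩ <;> rcases h1' with ⟨q1, -, q3⟩ | ⟨q1, -, q3⟩
          · exact hh _ _ (q3.trans p3.symm) e1.symm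
          · rw [p1, q1] at e2; cases e2
          · rw [p1, q1] at e2; cases e2
          · exact ht _ _ (q3.trans p3.symm) e1.symm) e3 n hn
        exact ⟨n', List.mem_cons_of_mem _ a1, a2, fun r h => a3 r (List.cons.inj h).2⟩

theorem lev_walk {lev : V → ℕ} (hl : ∀ e, lev (hd e) = lev (tl e)) {x x' : V}
    {es : List (Ed × Bool)} (h : Wk (YE tl hd) x es x') : ∀ m ∈ es, lev (tl m.1) = lev x := by
  induction h with
  | nil _ => simp
  | @cons a b c m es h1 _ ih =>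
    have : lev (tl m.1) = lev a ∧ lev b = lev a := by
      have := hl m.1
      rcases h1 with ⟨-, rfl, rfl⟩ | ⟨-, rfl, rfl⟩ <;> omega
    intro n hn
    rcases List.mem_cons.1 hn with rfl | hn
    · exact this.1
    · rw [ih n hn, this.2]

theorem exists_label (lev : V → ℕ) (hl : ∀ e, lev (hd e) = lev (tl e)) (Δ c : ℕ)
    (hdeg : ∀ x, ∃ A : Finset (Ed × Bool), #A ≤ Δ ∧ ∀ m y, YE tl hd x m y → m ∈ A)
    (hV : ∀ k, ∃ A : Finset V, #A ≤ c ^ (k + 1) ∧ ∀ x, lev x = k → x ∈ A)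
    (ht : ∀ e e', tl e = tl e' → lab e = lab e' → e = e')
    (hh : ∀ e e', hd e = hd e' → lab e = lab e' → e = e') :
    ∃ (q : ℕ) (r : Ed → Fin q), ∀ x y es fs x' y', x ≠ y → lev y ≤ lev x →
      Wk (YE tl hd) x es x' → Wk (YE tl hd) y fs y' → es.map (lm lab) = fs.map (lm lab) →
      es.map (fun m => r m.1) = fs.map (fun m => r m.1) → es.length = 4 * (lev y + 1) →
      (edgeSet es).ncard < 2 * (lev y + 1) := by
  classical
  have : NeZero (2 * (c + 1) * (Δ + 1) ^ 12) := ⟨by positivity⟩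
  let P := V × List (Ed × Bool)
  let ed : List (Ed × Bool) → Finset Ed := fun es => (es.map Prod.fst).toFinset
  have hed : ∀ es e, e ∈ ed es ↔ ∃ m ∈ es, m.1 = e := by simp [ed]
  let ok : P × P → Prop := fun b => b.1.1 ≠ b.2.1 ∧ lev b.2.1 ≤ lev b.1.1 ∧
    (∃ x', Wk (YE tl hd) b.1.1 b.1.2 x') ∧ (∃ y', Wk (YE tl hd) b.2.1 b.2.2 y') ∧
    b.1.2.map (lm lab) = b.2.2.map (lm lab) ∧ b.1.2.length = 4 * (lev b.2.1 + 1) ∧
    2 * (lev b.2.1 + 1) ≤ #(ed b.1.2)
  suffices key : ∃ r : Ed → Fin (4 * (2 * (c + 1) * (Δ + 1) ^ 12)), ∀ b, ok b →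
      ¬ b.1.2.map (fun m => r m.1) = b.2.2.map (fun m => r m.1) by
    obtain ⟨r, hr⟩ := key
    refine ⟨_, r, fun x y es fs x' y' h1 h2 h3 h4 h5 h6 h7 => ?_⟩
    by_contra hc
    refine hr ((x, es), (y, fs)) ⟨h1, h2, ⟨_, h3⟩, ⟨_, h4⟩, h5, h7, ?_⟩ h6
    have : edgeSet es = (ed es : Set Ed) := by ext e; simp [edgeSet, ed]
    rw [this, Set.ncard_coe_finset] at hc
    exact not_lt.1 hc
  refine rosenfeld (2 * (c + 1) * (Δ + 1) ^ 12) (fun e => lev (tl e)) ok
    (fun b => ed b.1.2 ∪ ed b.2.2) (fun b => lev b.2.1)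
    (fun b r => b.1.2.map (fun m => r m.1) = b.2.2.map (fun m => r m.1)) ?_ ?_ ?_ ?_
  · rintro ⟨⟨x, es⟩, ⟨y, fs⟩⟩ - r r' h hb
    simp only at h hb ⊢
    rw [← List.map_inj_left.2 fun m hm => h m.1 (mem_union_left _ ((hed _ _).2 ⟨m, hm, rfl⟩)),
      ← List.map_inj_left.2 fun m hm => h m.1 (mem_union_right _ ((hed _ _).2 ⟨m, hm, rfl⟩)), hb]
  · rintro ⟨⟨x, es⟩, ⟨y, fs⟩⟩ ⟨-, -, -, -, -, -, h⟩
    exact (card_pos.1 (by simp only at h ⊢; omega)).mono subset_union_left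
  · rintro ⟨⟨x, es⟩, ⟨y, fs⟩⟩ ⟨h1, h2, ⟨x', h3⟩, ⟨y', h4⟩, h5, h6, h7⟩ e he hmax
    simp only at *
    have l1 : ∀ f ∈ ed es, lev (tl f) = lev x := fun f hf => by
      obtain ⟨m, hm, rfl⟩ := (hed _ _).1 hf; exact lev_walk hl h3 m hm
    have l2 : ∀ f ∈ ed fs, lev (tl f) = lev y := fun f hf => by
      obtain ⟨m, hm, rfl⟩ := (hed _ _).1 hf; exact lev_walk hl h4 m hm
    obtain ⟨f₀, hf₀⟩ : (ed es).Nonempty := card_pos.1 (by omega)
    have l3 := hmax f₀ (mem_union_left _ hf₀)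
    rw [l1 f₀ hf₀] at l3
    rcases h2.eq_or_lt with h2 | h2
    · obtain ⟨D, d1, d2, d3, d4⟩ := half_det (ed es ∪ ed fs)
        (fun r : Ed → Fin (4 * (2 * (c + 1) * (Δ + 1) ^ 12)) =>
          es.map (fun m => r m.1) = fs.map (fun m => r m.1)) (by
        intro u hu
        rcases mem_union.1 hu with hu | hu
        · obtain ⟨m, hm, rfl⟩ := (hed _ _).1 hu
          obtain ⟨m', a1, a2, a3⟩ := partner ht hh h3 h4 h1 h5 m hm
          exact ⟨m'.1, mem_union_right _ ((hed _ _).2 ⟨m', a1, rfl⟩), a2, a3⟩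
        · obtain ⟨m, hm, rfl⟩ := (hed _ _).1 hu
          obtain ⟨m', a1, a2, a3⟩ := partner ht hh h4 h3 h1.symm h5.symm m hm
          exact ⟨m'.1, mem_union_left _ ((hed _ _).2 ⟨m', a1, rfl⟩), a2, fun r h => a3 r h.symm⟩)
        e he
      have l4 : ∀ f ∈ ed es ∪ ed fs, lev (tl f) = lev x := fun f hf => by
        rcases mem_union.1 hf with hf | hf
        · exact l1 f hf
        · rw [l2 f hf, h2]
      have := card_le_card (subset_union_left (s₁ := ed es) (s₂ := ed fs))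
      exact ⟨D, d1, d2, fun f hf => by rw [l4 f (d1 hf), l4 e he], by omega, d4⟩
    · have he' : e ∈ ed es := (mem_union.1 he).resolve_right fun h => by
        have := l2 e h; omega
      refine ⟨ed es, subset_union_left, he', fun f hf => by rw [l1 f hf, l1 e he'], by omega,
        fun r r' b1 b2 b3 f hf => ?_⟩
      obtain ⟨m, hm, rfl⟩ := (hed _ _).1 hf
      have : fs.map (fun m => r m.1) = fs.map (fun m => r' m.1) := by
        refine List.map_inj_left.2 fun m hm => ?_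
        have hm' := (hed _ _).2 ⟨m, hm, rfl⟩
        refine b3 m.1 (mem_union_right _ hm') fun h => ?_
        have := l1 _ h
        have := l2 _ hm'
        omega
      exact List.map_inj_left.1 (b1.trans (this.trans b2.symm)) m hm
  · intro e
    choose Wl hW1 hW2 using walks_card (fold_YE tl hd) hdeg
    choose Bl hB1 hB2 using ball_card (fold_YE tl hd) hdeg
    choose Vl hV1 hV2 using hV
    let Fr : Finset V → ℕ → Finset P := fun A L => A.biUnion fun x => (Wl L x).image (Prod.mk x)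
    have hFr1 : ∀ A L, #(Fr A L) ≤ #A * (Δ + 1) ^ L := fun A L =>
      card_biUnion_le_card_mul _ _ _ fun x _ => card_image_le.trans
        ((hW1 L x).trans (Nat.pow_le_pow_left (by omega) _))
    have hFr2 : ∀ A L x w y, x ∈ A → Wk (YE tl hd) x w y → w.length = L → (x, w) ∈ Fr A L :=
      fun A L x w y h1 h2 h3 => mem_biUnion.2 ⟨x, h1, mem_image_of_mem _ (hW2 L x w y h2 h3)⟩
    have thru : ∀ x w y, Wk (YE tl hd) x w y → e ∈ ed w → x ∈ Bl w.length (tl e) := by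
      intro x w y h1 h2
      obtain ⟨m, hm, rfl⟩ := (hed _ _).1 h2
      obtain ⟨A, C, rfl⟩ := List.append_of_mem hm
      obtain ⟨p, a1, a0⟩ := wk_append.1 h1
      obtain ⟨q, a2, -⟩ := wk_cons.1 a0
      have a3 := a2
      rcases a3 with ⟨-, rfl, -⟩ | ⟨-, -, rfl⟩
      · exact hB2 _ _ _ _ (a1.rev (fold_YE _ _)) (by simp)
      · exact hB2 _ _ _ _ ((a1.snoc a2).rev (fold_YE _ _)) (by simp)
    refine ⟨fun k => Fr (Bl (4 * (k + 1)) (tl e)) (4 * (k + 1)) ×ˢ Fr (Vl k) (4 * (k + 1)) ∪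
      Fr (Vl k) (4 * (k + 1)) ×ˢ Fr (Bl (4 * (k + 1)) (tl e)) (4 * (k + 1)), fun k => ?_, ?_⟩
    · refine (card_union_le _ _).trans ?_
      rw [card_product, card_product]
      have a1 := (hFr1 (Bl (4 * (k + 1)) (tl e)) (4 * (k + 1))).trans
        (Nat.mul_le_mul_right _ (hB1 _ _))
      have a2 := (hFr1 (Vl k) (4 * (k + 1))).trans (Nat.mul_le_mul_right _
        ((hV1 k).trans (Nat.pow_le_pow_left (Nat.le_add_right c 1) _)))
      have a3 := Nat.mul_le_mul a1 a2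
      have a4 : 2 ≤ 2 ^ (k + 1) := Nat.le_self_pow (by omega) 2
      calc _ ≤ 2 * ((Δ + 1) ^ (4 * (k + 1)) * (Δ + 1) ^ (4 * (k + 1)) *
            ((c + 1) ^ (k + 1) * (Δ + 1) ^ (4 * (k + 1)))) := by
            rw [mul_comm #(Fr (Vl k) _)]; omega
        _ ≤ 2 ^ (k + 1) * ((Δ + 1) ^ (4 * (k + 1)) * (Δ + 1) ^ (4 * (k + 1)) *
            ((c + 1) ^ (k + 1) * (Δ + 1) ^ (4 * (k + 1)))) := Nat.mul_le_mul_right _ a4
        _ = _ := by rw [mul_pow, mul_pow, ← pow_mul]; ring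
    · rintro ⟨⟨x, es⟩, ⟨y, fs⟩⟩ ⟨h1, h2, ⟨x', h3⟩, ⟨y', h4⟩, h5, h6, h7⟩ he hmax
      simp only at *
      have h6' : fs.length = 4 * (lev y + 1) := by
        rw [← h6]; simpa using (congrArg List.length h5).symm
      obtain ⟨f₀, hf₀⟩ : (ed es).Nonempty := card_pos.1 (by omega)
      have l3 := hmax f₀ (mem_union_left _ hf₀)
      obtain ⟨m₀, hm₀, rfl⟩ := (hed _ _).1 hf₀
      rw [lev_walk hl h3 m₀ hm₀] at l3
      refine ⟨?_, by omega⟩
      rcases mem_union.1 he with he | he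
      · exact mem_union_left _ (mem_product.2 ⟨hFr2 _ _ _ _ _ (h6 ▸ thru _ _ _ h3 he) h3 h6,
          hFr2 _ _ _ _ _ (hV2 _ _ rfl) h4 h6'⟩)
      · obtain ⟨m, hm, e1⟩ := (hed _ _).1 he
        have := lev_walk hl h4 m hm
        rw [e1] at this
        exact mem_union_right _ (mem_product.2 ⟨hFr2 _ _ _ _ _ (hV2 _ _ (by omega)) h3 h6,
          hFr2 _ _ _ _ _ (h6' ▸ thru _ _ _ h4 he) h4 h6'⟩)

end

theorem exists_base : ∃ B : Base, ∀ n : ℕ, ∃ (N : ℕ) (hd : Fin (N + 1) × Fin 33 → Fin (N + 1))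
      (ιV : Fin (N + 1) → B.V) (ιE : Fin (N + 1) × Fin 33 → B.Ed), Expd 1650 hd ∧
      ∀ ε, B.tl (ιE ε) = ιV ε.1 ∧ B.hd (ιE ε) = ιV (hd ε) ∧
        B.J (ιE ε) = if ε.2 = 0 then (n : ℤ) else 0 := by
  classical
  choose N hd hN hX hg using fun n => exists_expander (80 * (n + 1))
  let V := Σ n, Fin (N n + 1)
  let H : V × Fin 33 → V := fun e => ⟨e.1.1, hd e.1.1 (e.1.2, e.2)⟩
  let ι : ∀ n, Fin (N n + 1) × Fin 33 → V × Fin 33 := fun n ε => (⟨n, ε.1⟩, ε.2)
  have hin : ∀ y : V, ∃ A : Finset (V × Fin 33), #A ≤ 1650 ∧ ∀ ε, H ε = y → ε ∈ A := by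
    rintro ⟨n, y⟩
    refine ⟨({ε | hd n ε = y} : Finset _).image (ι n), card_image_le.trans ((hX n).indeg y), ?_⟩
    rintro ⟨⟨m, x⟩, i⟩ h
    simp only [H, V, Sigma.mk.injEq] at h
    obtain ⟨rfl, h⟩ := h
    exact mem_image.2 ⟨(x, i), by simpa using h, rfl⟩
  have hc : ∀ y : V, ∃ f : V × Fin 33 → Fin 1650, ∀ e e', H e = y → H e' = y → f e = f e' →
      e = e' := by
    intro y
    obtain ⟨A, h1, h2⟩ := hin y
    obtain ⟨f, -, hf⟩ := A.finite_toSet.exists_injOn_of_encard_le (t := (Set.univ : Set (Fin 1650)))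
      (by simpa using h1)
    exact ⟨f, fun e e' a b c => hf (h2 e a) (h2 e' b) c⟩
  choose cf hcf using hc
  let lab₀ : V × Fin 33 → Fin 33 × Fin 1650 := fun e => (e.2, cf (H e) e)
  have ht : ∀ e e' : V × Fin 33, e.1 = e'.1 → lab₀ e = lab₀ e' → e = e' :=
    fun e e' h h' => Prod.ext h (congrArg Prod.fst h')
  have hh : ∀ e e', H e = H e' → lab₀ e = lab₀ e' → e = e' := fun e e' h h' =>
    hcf (H e) e e' rfl h.symm (by
      have := congrArg Prod.snd h'
      simp only [lab₀] at this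
      rwa [← h] at this)
  obtain ⟨q, r, hr⟩ := exists_label (tl := Prod.fst) (hd := H) (lab := lab₀) Sigma.fst
    (fun _ => rfl) (33 + 1650) (50 * 1684 ^ 80) (fun x => by
      obtain ⟨A, h1, h2⟩ := deg_YF H Set.univ (fun y => by
        obtain ⟨A, h1, h2⟩ := hin y
        exact ⟨A, h1, fun ε _ => h2 ε⟩) x
      exact ⟨A, h1, fun m y h => h2 m y ⟨h, trivial⟩⟩) (fun k => by
      refine ⟨univ.image (Sigma.mk k), card_image_le.trans ?_, ?_⟩
      · rw [card_univ, Fintype.card_fin, hN, mul_pow, ← pow_mul]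
        exact Nat.mul_le_mul_right _ (Nat.le_self_pow (by omega) _)
      · rintro ⟨n, x⟩ rfl
        exact mem_image_of_mem _ (mem_univ _)) ht hh
  let lab₁ : V × Fin 33 → (Fin 33 × Fin 1650) × Fin q := fun e => (lab₀ e, r e)
  have pull : ∀ {a : V} {es b}, Wk (YE Prod.fst H) a es b → ∀ n x, a = ⟨n, x⟩ →
      ∃ es' y, b = ⟨n, y⟩ ∧ es = es'.map (lm (ι n)) ∧ Wk (YE Prod.fst (hd n)) x es' y := by
    intro a es b h
    induction h with
    | nil _ => rintro n x rfl; exact ⟨[], x, rfl, rfl, Wk.nil _⟩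
    | @cons a b c m es h _ ih =>
      rintro n x rfl
      obtain ⟨⟨⟨k, z⟩, i⟩, d⟩ := m
      rcases h with ⟨rfl, h1, h2⟩ | ⟨rfl, h1, h2⟩
      · simp only [V, Sigma.mk.injEq] at h1
        obtain ⟨rfl, h1⟩ := h1
        obtain rfl := eq_of_heq h1
        obtain ⟨es', y, a1, rfl, a3⟩ := ih k (hd k (z, i)) h2.symm
        exact ⟨((z, i), true) :: es', y, a1, rfl, Wk.cons (Or.inl ⟨rfl, rfl, rfl⟩) a3⟩
      · simp only [H, V, Sigma.mk.injEq] at h1
        obtain ⟨rfl, h1⟩ := h1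
        obtain ⟨es', y, a1, rfl, a3⟩ := ih k z h2.symm
        exact ⟨((z, i), false) :: es', y, a1, rfl, Wk.cons (Or.inr ⟨rfl, eq_of_heq h1, rfl⟩) a3⟩
  have finV : ∀ R, {x : V | 2 * (x.1 + 1) ≤ R}.Finite := by
    intro R
    refine ((Set.finite_le_nat R).biUnion fun n _ =>
      Set.finite_range (fun x : Fin (N n + 1) => (⟨n, x⟩ : V))).subset ?_
    rintro ⟨n, x⟩ h
    exact Set.mem_biUnion (x := n) (show n ≤ R by have : 2 * (n + 1) ≤ R := h; omega) ⟨x, rfl⟩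
  refine ⟨{ S := Set.range lab₁, V := V, Ed := V × Fin 33, tl := Prod.fst, hd := H,
            lab := fun e => ⟨lab₁ e, e, rfl⟩, ell := fun x => 2 * (x.1 + 1),
            J := fun e => if e.2 = 0 then (e.1.1 : ℤ) else 0,
            tl_inj := fun e e' h h' => ht e e' h (congrArg (fun s => s.1.1) h'),
            hd_inj := fun e e' h h' => hh e e' h (congrArg (fun s => s.1.1) h'),
            ell_hd := fun _ => rfl, ell_pos := fun x => by omega, girth := ?_, piece := ?_,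
            finV := finV, finE := ?_, surj := ?_, finS := inferInstance },
    fun n => ⟨N n, hd n, fun x => (⟨n, x⟩ : V), ι n, hX n, fun ε => ⟨rfl, rfl, rfl⟩⟩⟩
  · rintro ⟨n, x⟩ es h hr hl
    obtain ⟨es', y, a1, rfl, a3⟩ := pull h n x rfl
    obtain rfl : x = y := by simpa [V] using a1
    rw [hg n x es' a3 (Base.rd_of_map _ hr) (by simp at hl; omega)]; rfl
  · intro x y es fs x' y' h1 h2 h3 h4 h5 h6
    refine hr x y es fs x' y' h1 (by omega) h3 h4 ?_ ?_ (by omega)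
    · have := congrArg (List.map fun l => (l.1.1.1, l.2)) h5
      simp only [List.map_map] at this
      exact this
    · have := congrArg (List.map fun l => l.1.1.2) h5
      simp only [List.map_map] at this
      exact this
  · intro R
    exact ((finV R).prod Set.finite_univ).subset fun e h => ⟨h, trivial⟩
  · rintro ⟨_, e, rfl⟩
    exact ⟨e, rfl⟩

end Pool.Agent.Lib.MP_f40e16_al
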