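import Pool.Agent.Lib.MP_f40e16_al.Poincare
import Pool.Agent.Lib.MP_f40e16_al.Groups

set_option autoImplicit false

namespace Pool.Agent.Lib.MP_f40e16_al

open Finset

variable {H : Type*} [NormedAddCommGroup H] [InnerProductSpace ℝ H] [CompleteSpace H]

theorem Expd.cover_l2 {K : ℕ} {V : Type} [Fintype V] [DecidableEq V] [Nonempty V]
    {hd : V × Fin 33 → V} (X : Expd K hd) (M : ℕ) [NeZero M]
    (v : V → (V × Fin 33 → ZMod 2) × ZMod M → H) :
    ∑ x, ∑ a, ‖v x (a + (0, 2)) - v x a‖ ^ 2 ≤ (4 * K + 13) ^ 2 * (2 * (K + 33)) *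
      ∑ ε, ∑ a, ‖v (hd ε) (a + (Pi.single ε 1, if ε.2 = 0 then 1 else 0)) - v ε.1 a‖ ^ 2 := by
  obtain ⟨w, b, -⟩ := exists_hilbertBasis ℝ H
  have hs : ∀ y z : H,
      HasSum (fun k => ‖((b.repr y k : ℝ) : ℂ) - ((b.repr z k : ℝ) : ℂ)‖ ^ 2) (‖y - z‖ ^ 2) := by
    intro y z
    have := lp.hasSum_norm (p := 2) (by norm_num) (b.repr (y - z))
    rw [b.repr.norm_map, map_sub] at this
    simp only [ENNReal.toReal_ofNat, Real.rpow_ofNat, lp.coeFn_sub, Pi.sub_apply] at this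
    simpa only [← Complex.ofReal_sub, Complex.norm_real] using this
  refine hasSum_le (fun k => X.cover M fun x a => (b.repr (v x a) k : ℂ))
    (hasSum_sum fun x _ => hasSum_sum fun a _ => hs _ _)
    (HasSum.mul_left _ (hasSum_sum fun x _ => hasSum_sum fun a _ => hs _ _))

theorem card_val_le (M : ℕ) [NeZero M] (s : Finset ℕ) : #{t : ZMod M | t.val ∈ s} ≤ #s :=
  card_le_card_of_injOn ZMod.val (fun t ht => by simpa using ht)
    (fun _ _ _ _ h => ZMod.val_injective M h)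

theorem drift {E : Type} [Group E] (c : E) (hc : c ∈ Subgroup.center E)
    (f : E → H) (hf : ∀ g : E, ∃ C : ℝ, ∀ x : E, ‖f (x * g) - f x‖ ≤ C)
    (C : ℝ) (hC : 0 ≤ C) {K : ℕ} {V : Type} [Fintype V] [DecidableEq V] [Nonempty V]
    {hd : V × Fin 33 → V} (X : Expd K hd) (g : V × (V × Fin 33 → ZMod 2) → E)
    (hg : ∀ ε ξ, ∃ s, (∀ x, ‖f (x * s) - f x‖ ≤ C) ∧
      (if ε.2 = 0 then c else 1) * g (hd ε, ξ + Pi.single ε 1) = g (ε.1, ξ) * s) :
    ∃ x, ‖f (x * c ^ 2) - f x‖ ≤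
      2 * C + 3 + 66 * ((4 * K + 13) ^ 2 * (2 * (K + 33))) * ((2 * C + 1) ^ 2 + 1) := by
  by_contra hn
  push Not at hn
  set C₀ : ℝ := (4 * K + 13) ^ 2 * (2 * (K + 33)) with hC₀
  have hC₀0 : 0 ≤ C₀ := by positivity
  set L : ℝ := 1 + 66 * C₀ * ((2 * C + 1) ^ 2 + 1) with hL
  have hL1 : 1 ≤ L := by
    have : 0 ≤ 66 * C₀ * ((2 * C + 1) ^ 2 + 1) := by positivity
    linarith
  choose Df hDf using fun p => hf (g p)
  obtain ⟨D', hD'⟩ := (Set.finite_range Df).bddAbove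
  set D := max D' 0 with hDd
  have hD0 : 0 ≤ D := le_max_right _ _
  have hD : ∀ p y, ‖f (y * g p) - f y‖ ≤ D := fun p y =>
    (hDf p y).trans ((hD' ⟨p, rfl⟩).trans (le_max_left _ _))
  have comm : ∀ y, c * y = y * c := fun y => (Subgroup.mem_center_iff.1 hc y).symm
  obtain ⟨M, hM⟩ := exists_nat_ge (4 + 2 * D + (2 * D + 2 * C + 1) ^ 2)
  have hM4 : (4 : ℝ) ≤ M := by nlinarith
  have hM4' : 4 ≤ M := by exact_mod_cast hM4
  have : NeZero M := ⟨by omega⟩
  have : Fact (1 < M) := ⟨by omega⟩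
  have step : ∀ (n : ℕ) x ξ, ‖f (c ^ (n + 1) * g (hd (x, 0), ξ + Pi.single (x, 0) 1)) -
      f (c ^ n * g (x, ξ))‖ ≤ C := by
    intro n x ξ
    obtain ⟨s, h1, h2⟩ := hg (x, 0) ξ
    rw [if_pos rfl] at h2
    rw [pow_succ, mul_assoc, h2, ← mul_assoc]
    exact h1 _
  have walk : ∀ (n : ℕ) p₀, ∃ p, ‖f (c ^ n * g p) - f (g p₀)‖ ≤ C * n := by
    intro n p₀
    induction n with
    | zero => exact ⟨p₀, by simp⟩
    | succ n ih =>
      obtain ⟨⟨x, ξ⟩, h⟩ := ih
      refine ⟨_, (norm_sub_le_norm_sub_add_norm_sub _ _ _).trans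
        ((add_le_add (step n x ξ) h).trans (le_of_eq ?_))⟩
      push_cast; ring
  let δ : H := (M : ℝ)⁻¹ • (f (c ^ M) - f 1)
  have hMδ : (M : ℝ) • δ = f (c ^ M) - f 1 := by
    simp only [δ, smul_smul]
    rw [mul_inv_cancel₀ (by linarith), one_smul]
  have hδ : ‖δ‖ ≤ C + 1 := by
    obtain ⟨p, h⟩ := walk M (Classical.arbitrary V, 0)
    have a1 := hD p (c ^ M)
    have a2 := hD (Classical.arbitrary V, 0) 1
    rw [one_mul] at a2
    rw [norm_sub_rev] at a1
    have a3 := norm_sub_le_norm_sub_add_norm_sub (f (c ^ M)) (f (c ^ M * g p)) (f 1)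
    have a4 := norm_sub_le_norm_sub_add_norm_sub (f (c ^ M * g p))
      (f (g (Classical.arbitrary V, 0))) (f 1)
    rw [← hMδ, norm_smul, Real.norm_natCast] at a3
    refine le_of_mul_le_mul_left ?_ (by linarith : (0 : ℝ) < M)
    nlinarith
  have main := X.cover_l2 M fun x a => f (c ^ a.2.val * g (x, a.1)) - (a.2.val : ℝ) • δ
  have lower : ∀ x ξ, (M - 2) * L ^ 2 ≤ ∑ t : ZMod M,
      ‖(f (c ^ (t + 2).val * g (x, ξ)) - ((t + 2).val : ℝ) • δ) -
        (f (c ^ t.val * g (x, ξ)) - (t.val : ℝ) • δ)‖ ^ 2 := by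
    intro x ξ
    have a1 : ∑ t : ZMod M, (L ^ 2 - if t.val ∈ ({M - 2, M - 1} : Finset ℕ) then L ^ 2 else 0) ≤
        ∑ t : ZMod M, ‖(f (c ^ (t + 2).val * g (x, ξ)) - ((t + 2).val : ℝ) • δ) -
        (f (c ^ t.val * g (x, ξ)) - (t.val : ℝ) • δ)‖ ^ 2 := by
      refine sum_le_sum fun t _ => ?_
      split_ifs with ht
      · simp
      · have b1 := ZMod.val_lt t
        simp only [mem_insert, mem_singleton, not_or] at ht
        have b2 : (2 : ZMod M).val = 2 := by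
          have : ((2 : ℕ) : ZMod M).val = 2 := ZMod.val_cast_of_lt (by omega)
          simpa using this
        have b3 : (t + 2).val = t.val + 2 := by rw [ZMod.val_add_of_lt (by omega), b2]
        have b4 : c ^ (t.val + 2) * g (x, ξ) = c ^ t.val * g (x, ξ) * c ^ 2 := by
          rw [pow_add, mul_assoc, mul_assoc, sq, mul_assoc, comm, comm (g _), mul_assoc (g _)]
        rw [b3, b4, sub_zero]
        have b5 := hn (c ^ t.val * g (x, ξ))
        have e : f (c ^ t.val * g (x, ξ) * c ^ 2) - f (c ^ t.val * g (x, ξ)) =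
            ((f (c ^ t.val * g (x, ξ) * c ^ 2) - ((t.val + 2 : ℕ) : ℝ) • δ) -
            (f (c ^ t.val * g (x, ξ)) - (t.val : ℝ) • δ)) + (δ + δ) := by
          push_cast; rw [add_smul, two_smul]; abel
        rw [e] at b5
        have b6 := b5.trans_le (norm_add_le _ _)
        have b7 := norm_add_le δ δ
        exact pow_le_pow_left₀ (by linarith) (by linarith) 2
    refine le_trans ?_ a1
    rw [sum_sub_distrib, ← sum_filter, sum_const, sum_const, card_univ, ZMod.card, nsmul_eq_mul,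
      nsmul_eq_mul]
    have a2 : (#{t : ZMod M | t.val ∈ ({M - 2, M - 1} : Finset ℕ)} : ℝ) ≤ 2 := by
      exact_mod_cast (card_val_le M _).trans card_le_two
    nlinarith
  have upper : ∀ (ε : V × Fin 33) ξ, ∑ t : ZMod M,
      ‖(f (c ^ (t + if ε.2 = 0 then 1 else 0).val * g (hd ε, ξ + Pi.single ε 1)) -
        ((t + if ε.2 = 0 then 1 else 0).val : ℝ) • δ) -
        (f (c ^ t.val * g (ε.1, ξ)) - (t.val : ℝ) • δ)‖ ^ 2 ≤ M * ((2 * C + 1) ^ 2 + 1) := by
    rintro ⟨x, k⟩ ξ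
    have a1 : ∑ t : ZMod M, ‖(f (c ^ (t + if k = 0 then 1 else 0).val *
        g (hd (x, k), ξ + Pi.single (x, k) 1)) - ((t + if k = 0 then 1 else 0).val : ℝ) • δ) -
        (f (c ^ t.val * g (x, ξ)) - (t.val : ℝ) • δ)‖ ^ 2 ≤ ∑ t : ZMod M, ((2 * C + 1) ^ 2 +
          if t.val ∈ ({M - 1} : Finset ℕ) then (2 * D + 2 * C + 1) ^ 2 else 0) := by
      refine sum_le_sum fun t _ => ?_
      have b0 : (0 : ℝ) ≤ if t.val ∈ ({M - 1} : Finset ℕ) then (2 * D + 2 * C + 1) ^ 2 else 0 := by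
        split_ifs <;> positivity
      by_cases hk : k = 0
      · subst hk
        rw [if_pos rfl]
        have b1 := ZMod.val_lt t
        have b2 := step t.val x ξ
        by_cases ht : t.val = M - 1
        · have b3 : (t + 1).val = 0 := by
            rw [ZMod.val_add, ZMod.val_one, ht, Nat.sub_add_cancel (by omega), Nat.mod_self]
          have b4 : t.val + 1 = M := by omega
          rw [b4] at b2
          have b5 : (t.val : ℝ) = M - 1 := by
            have : ((t.val + 1 : ℕ) : ℝ) = M := by rw [b4]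
            push_cast at this; linarith
          rw [b3, if_pos (by simpa using ht), b5, sub_smul, hMδ]
          set p := (hd (x, 0), ξ + Pi.single (x, 0) 1)
          have b6 := hD p 1
          have b7 := hD p (c ^ M)
          have e : f (c ^ 0 * g p) - ((0 : ℕ) : ℝ) • δ -
              (f (c ^ t.val * g (x, ξ)) - (f (c ^ M) - f 1 - (1 : ℝ) • δ)) =
              (f (1 * g p) - f 1) - (f (c ^ M * g p) - f (c ^ M)) +
              (f (c ^ M * g p) - f (c ^ t.val * g (x, ξ))) - δ := by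
            simp; abel
          rw [e]
          have b8 := (norm_sub_le _ δ).trans (add_le_add ((norm_add_le _ _).trans
            (add_le_add ((norm_sub_le _ _).trans (add_le_add b6 b7)) b2)) hδ)
          have := pow_le_pow_left₀ (norm_nonneg _) b8 2
          nlinarith
        · have b3 : (t + 1).val = t.val + 1 := by
            rw [ZMod.val_add_of_lt (by rw [ZMod.val_one]; omega), ZMod.val_one]
          rw [b3]
          have e : f (c ^ (t.val + 1) * g (hd (x, 0), ξ + Pi.single (x, 0) 1)) -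
              ((t.val + 1 : ℕ) : ℝ) • δ - (f (c ^ t.val * g (x, ξ)) - (t.val : ℝ) • δ) =
              (f (c ^ (t.val + 1) * g (hd (x, 0), ξ + Pi.single (x, 0) 1)) -
                f (c ^ t.val * g (x, ξ))) - δ := by
            push_cast; rw [add_smul, one_smul]; abel
          rw [e]
          have b8 := (norm_sub_le _ δ).trans (add_le_add b2 hδ)
          have := pow_le_pow_left₀ (norm_nonneg _) b8 2
          nlinarith
      · obtain ⟨s, h1, h2⟩ := hg (x, k) ξ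
        rw [if_neg hk, one_mul] at h2
        rw [if_neg hk, add_zero, sub_sub_sub_cancel_right, h2, ← mul_assoc]
        have := pow_le_pow_left₀ (norm_nonneg _) (h1 (c ^ t.val * g (x, ξ))) 2
        nlinarith
    refine a1.trans ?_
    rw [sum_add_distrib, ← sum_filter, sum_const, sum_const, card_univ, ZMod.card, nsmul_eq_mul,
      nsmul_eq_mul]
    have a2 : (#{t : ZMod M | t.val ∈ ({M - 1} : Finset ℕ)} : ℝ) ≤ 1 := by
      exact_mod_cast (card_val_le M _).trans (card_singleton _).le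
    nlinarith
  simp only [Fintype.sum_prod_type (α₂ := ZMod M), Prod.mk_add_mk, add_zero] at main
  have l2 : ∑ _x : V, ∑ _ξ : V × Fin 33 → ZMod 2, ((M : ℝ) - 2) * L ^ 2 ≤ _ :=
    sum_le_sum fun x _ => sum_le_sum fun ξ _ => lower x ξ
  have u2 : _ ≤ ∑ _ε : V × Fin 33, ∑ _ξ : V × Fin 33 → ZMod 2, (M : ℝ) * ((2 * C + 1) ^ 2 + 1) :=
    sum_le_sum fun ε _ => sum_le_sum fun ξ _ => upper ε ξ
  have fin := l2.trans (main.trans (mul_le_mul_of_nonneg_left u2 hC₀0))
  simp only [sum_const, card_univ, nsmul_eq_mul, Fintype.card_prod, Fintype.card_fin] at fin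
  have p1 : (0 : ℝ) < Fintype.card V := by exact_mod_cast Fintype.card_pos
  have p2 : (0 : ℝ) < Fintype.card (V × Fin 33 → ZMod 2) := by exact_mod_cast Fintype.card_pos
  have fin2 : (M - 2) * L ^ 2 ≤ C₀ * 33 * (M * ((2 * C + 1) ^ 2 + 1)) := by
    refine le_of_mul_le_mul_left ?_ (mul_pos p1 p2)
    push_cast at fin
    linarith
  have e : C₀ * 33 * (M * ((2 * C + 1) ^ 2 + 1)) = M * (L - 1) / 2 := by rw [hL]; ring
  rw [e] at fin2
  have q1 : (M - 2) * L ≤ (M - 2) * L ^ 2 :=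
    mul_le_mul_of_nonneg_left (by nlinarith) (by linarith)
  have q2 : 0 ≤ (M - 4) * L := mul_nonneg (by linarith) (by linarith)
  linarith

open FreeGroup Base in
theorem exists_g {B : Base} {E : Type} [Group E] (i : Multiplicative ℤ →* E)
    (γ : FreeGroup B.S →* E)
    (hγ : ∀ z t t' w, Wk B.XT (z, t) w (z, t') → γ (mk w) = i (Multiplicative.ofAdd (t' - t))) :
    ∃ g : B.W → E, ∀ z l e z', B.XX z l e z' →
      i (Multiplicative.ofAdd (sg l (B.J e))) * g z' = g z * γ (mk [l]) := by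
  let r : Setoid B.W := ⟨fun z z' => ∃ w, Wk B.XD z w z', fun z => ⟨[], Wk.nil _⟩,
    fun ⟨_, h⟩ => ⟨_, h.rev fold_XD⟩, fun ⟨_, h⟩ ⟨_, h'⟩ => ⟨_, h.append h'⟩⟩
  have h1 : ∀ z, ∃ w t, Wk B.XT ((Quotient.mk r z).out, 0) w (z, t) := by
    intro z
    obtain ⟨w, hw⟩ : r (Quotient.mk r z).out z := Quotient.mk_out z
    exact ⟨w, xt_lift hw 0⟩
  choose w t hw using h1
  have symm : ∀ a b l, B.XT a l b → B.XT b (iv l) a := by
    rintro a b l ⟨e, h1, h2⟩
    exact ⟨e, h1.symm, by rw [h2, sg_iv]; ring⟩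
  refine ⟨fun z => i (Multiplicative.ofAdd (-t z)) * γ (mk (w z)), fun z l e z' h => ?_⟩
  have e1 : Quotient.mk r z' = Quotient.mk r z :=
    (Quotient.sound (s := r) ⟨[l], wk_single.2 ⟨e, h⟩⟩).symm
  have a1 := (Wk.rev' symm (hw z')).map (D' := B.XT)
    (fun p => (p.1, p.2 + (t z + sg l (B.J e) - t z'))) (by
      rintro a m b ⟨f, h1, h2⟩
      exact ⟨f, h1, by simp only [h2]; ring⟩)
  rw [e1] at a1
  have a2 : B.XT (z, t z) l (z', t z' + (t z + sg l (B.J e) - t z')) := ⟨e, h, by simp⟩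
  have a3 := hγ _ _ _ _ (((hw z).snoc a2).append a1)
  rw [mk_append, mk_append, mk_invRev, _root_.map_mul, _root_.map_mul, _root_.map_inv,
    mul_inv_eq_iff_eq_mul] at a3
  simp only
  rw [mul_assoc, a3, ← mul_assoc, ← mul_assoc, ← i.map_mul, ← i.map_mul, ← ofAdd_add,
    ← ofAdd_add]
  congr 3; ring

open FreeGroup Base in
theorem not_ce {B : Base} {E : Type} [Group E] (i : Multiplicative ℤ →* E)
    (hi : Function.Injective i) (hcen : i.range ≤ Subgroup.center E) (γ : FreeGroup B.S →* E)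
    (hγ : ∀ z t t' w, Wk B.XT (z, t) w (z, t') → γ (mk w) = i (Multiplicative.ofAdd (t' - t)))
    (K : ℕ) (hB : ∀ n : ℕ, ∃ (N : ℕ) (hd : Fin (N + 1) × Fin 33 → Fin (N + 1))
      (ιV : Fin (N + 1) → B.V) (ιE : Fin (N + 1) × Fin 33 → B.Ed), Expd K hd ∧
      ∀ ε, B.tl (ιE ε) = ιV ε.1 ∧ B.hd (ιE ε) = ιV (hd ε) ∧
        B.J (ιE ε) = if ε.2 = 0 then (n : ℤ) else 0) :
    ¬ ∃ f : E → H, (∀ g : E, ∃ C : ℝ, ∀ x : E, ‖f (x * g) - f x‖ ≤ C) ∧
      (∀ R : ℝ, {g : E | ∃ x : E, ‖f (x * g) - f x‖ ≤ R}.Finite) := by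
  rintro ⟨f, hf1, hf2⟩
  have := B.finS
  obtain ⟨g, hg⟩ := exists_g i γ hγ
  choose Cf hCf using fun l : B.L => hf1 (γ (mk [l]))
  obtain ⟨C', hC'⟩ := (Set.finite_range Cf).bddAbove
  set C := max C' 0
  have hC : ∀ l x, ‖f (x * γ (mk [l])) - f x‖ ≤ C := fun l x =>
    (hCf l x).trans ((hC' ⟨l, rfl⟩).trans (le_max_left _ _))
  refine Set.infinite_of_injective_forall_mem
    (f := fun n : ℕ => i (Multiplicative.ofAdd (n : ℤ)) ^ 2) ?_ (fun n => ?_)
    (hf2 (2 * C + 3 + 66 * ((4 * K + 13) ^ 2 * (2 * (K + 33))) * ((2 * C + 1) ^ 2 + 1)))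
  · intro a b h
    simp only [← _root_.map_pow] at h
    have := congrArg Multiplicative.toAdd (hi h)
    simpa using this
  · obtain ⟨N, hd, ιV, ιE, X, h⟩ := hB n
    refine drift _ (hcen ⟨_, rfl⟩) f hf1 C (le_max_right _ _) X
      (fun p => g (ιV p.1, (Finsupp.equivFunOnFinite.symm p.2).mapDomain ιE)) fun ε ξ => ?_
    obtain ⟨h1, h2, h3⟩ := h ε
    refine ⟨_, hC (B.lab (ιE ε), true), ?_⟩
    rw [← hg _ (B.lab (ιE ε), true) (ιE ε)
      (ιV (hd ε), (Finsupp.equivFunOnFinite.symm (ξ + Pi.single ε 1)).mapDomain ιE)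
      ⟨⟨rfl, Or.inl ⟨rfl, h1, h2⟩⟩, ?_⟩, h3]
    · split_ifs <;> simp [sg]
    · simp only
      rw [← Finsupp.mapDomain_single, ← Finsupp.mapDomain_add]
      congr 1
      ext a
      simp [Finsupp.single_eq_pi_single]

end Pool.Agent.Lib.MP_f40e16_al
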