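import Pool.Agent.Lib.MP_f40e16_al.State

set_option autoImplicit false

namespace Pool.Agent.Lib.MP_f40e16_al

open FreeGroup Base

variable {B : Base}

/-- the overlap graph -/
def PD (σ : Set (Cell B)) (p : U B × B.W × ℤ) (l : B.L) (q : U B × B.W × ℤ) : Prop :=
  ∃ Q ∈ σ, ∃ z z' e₁ e, Q.In z ∧ B.XX z l e₁ z' ∧ Q.φ z = p.1 ∧ Q.φ z' = q.1 ∧
    B.XX p.2.1 l e q.2.1 ∧ q.2.2 = p.2.2 + (sg l (B.J e₁) + Q.ψ z' - Q.ψ z) - sg l (B.J e)

def DD (σ : Set (Cell B)) (p : U B × B.W × ℤ) (l : B.L) (q : U B × B.W × ℤ) : Prop :=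
  PD σ p l q ∧ q.1.ht < p.1.ht

def Rch (σ : Set (Cell B)) (v : U B) (x : B.V) (p : U B × B.W × ℤ) : Prop :=
  ∃ w, Wk (PD σ) (v, (x, 0), 0) w p

structure Att (σ : Set (Cell B)) (v : U B) (x : B.V) : Prop where
  good : Good σ
  ex : Ex σ v
  nsat : ¬ Sat σ v x
  min : ∀ u y, Ex σ u → Old (u, y) (v, x) → Sat σ u y

variable {σ : Set (Cell B)} {v : U B} {x : B.V}

theorem PD.dart {p q : U B × B.W × ℤ} {l : B.L} (h : PD σ p l q) : Dart σ p.1 l q.1 := by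
  obtain ⟨Q, hQ, z, z', e₁, e, h1, h2, h3, h4, -⟩ := h
  exact ⟨Q, hQ, z, z', h1, ⟨e₁, h2⟩, h3, h4⟩

theorem PD.xd {p q : U B × B.W × ℤ} {l : B.L} (h : PD σ p l q) : B.XD p.2.1 l q.2.1 := by
  obtain ⟨Q, hQ, z, z', e₁, e, -, -, -, -, h5, -⟩ := h
  exact ⟨e, h5⟩

theorem PD.symm {p q : U B × B.W × ℤ} {l : B.L} (h : PD σ p l q) : PD σ q (iv l) p := by
  obtain ⟨Q, hQ, z, z', e₁, e, h1, h2, h3, h4, h5, h6⟩ := h
  exact ⟨Q, hQ, z', z, e₁, e, h1.step ⟨e₁, h2⟩, h2.symm, h4, h3, h5.symm, by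
    rw [h6, sg_iv, sg_iv]; ring⟩

theorem pd_of {p : U B × B.W × ℤ} {u' : U B} {y' : B.W} {l : B.L} (h : Dart σ p.1 l u')
    (h' : B.XD p.2.1 l y') : ∃ t', PD σ p l (u', y', t') := by
  obtain ⟨Q, hQ, z, z', h1, ⟨e₁, h2⟩, h3, h4⟩ := h
  obtain ⟨e, h5⟩ := h'
  exact ⟨_, Q, hQ, z, z', e₁, e, h1, h2, h3, h4, h5, rfl⟩

theorem Good.fold_pd (G : Good σ) : Fold (PD σ) where
  symm := PD.symm
  func := by
    intro a b c l h h'
    have e1 := G.fold_dart.func h.dart h'.dart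
    obtain ⟨Q, hQ, z, z', e₁, e, h1, h2, h3, h4, h5, h6⟩ := h
    obtain ⟨Q', hQ', y, y', f₁, f, k1, k2, k3, k4, k5, k6⟩ := h'
    obtain ⟨rfl, e2⟩ := h5.func k5
    have := G.psi Q hQ Q' hQ' z y l e₁ f₁ z' y' h1 k1 h2 k2 (h3.trans k3.symm)
    exact Prod.ext e1 (Prod.ext e2 (by rw [h6, k6, this]))

theorem pd_walk_dart {p q : U B × B.W × ℤ} {w : List B.L} (h : Wk (PD σ) p w q) :
    Wk (Dart σ) p.1 w q.1 := h.map Prod.fst fun _ _ _ h => h.dart

theorem pd_walk_xd {p q : U B × B.W × ℤ} {w : List B.L} (h : Wk (PD σ) p w q) :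
    Wk B.XD p.2.1 w q.2.1 := h.map (fun p => p.2.1) fun _ _ _ h => h.xd

theorem dd_walk_pd {p q : U B × B.W × ℤ} {w : List B.L} (h : Wk (DD σ) p w q) :
    Wk (PD σ) p w q := h.mono fun _ _ _ h => h.1

theorem dd_walk_down {p q : U B × B.W × ℤ} {w : List B.L} (h : Wk (DD σ) p w q) :
    Wk (fun a l b => Dart σ a l b ∧ b.ht < a.ht) p.1 w q.1 :=
  h.map Prod.fst fun _ _ _ h => ⟨h.1.dart, h.2⟩

theorem Good.dd_rd (G : Good σ) {p q : U B × B.W × ℤ} {w : List B.L} (h : Wk (DD σ) p w q) :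
    Rd w := h.reduced_of_down G.fold_pd (fun p => p.1.ht) fun _ _ _ h => h

theorem Rch.base : Rch σ v x (v, (x, 0), 0) := ⟨[], Wk.nil _⟩

theorem Rch.walk {p q : U B × B.W × ℤ} {w : List B.L} (h : Rch σ v x p) (h' : Wk (PD σ) p w q) :
    Rch σ v x q := by
  obtain ⟨w', h⟩ := h; exact ⟨_, h.append h'⟩

theorem Rch.step {p q : U B × B.W × ℤ} {l : B.L} (h : Rch σ v x p) (h' : PD σ p l q) :
    Rch σ v x q := h.walk (wk_single.2 h')

theorem Rch.cp {p : U B × B.W × ℤ} (h : Rch σ v x p) : B.Cp x p.2.1 := by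
  obtain ⟨w, h⟩ := h; exact ⟨w, pd_walk_xd h⟩

namespace Att

variable (A : Att σ v x)
include A

theorem rch_ex {p : U B × B.W × ℤ} (h : Rch σ v x p) : Ex σ p.1 := by
  obtain ⟨w, h⟩ := h
  exact h.ind_end (fun p => Ex σ p.1) (fun _ _ _ _ h => h.dart.ex_right) A.ex

theorem f1 {p : U B × B.W × ℤ} (h : Rch σ v x p) : ¬ Sat σ p.1 p.2.1.1 := by
  obtain ⟨w, h⟩ := h
  refine h.ind_end (fun p => ¬ Sat σ p.1 p.2.1.1) ?_ A.nsat
  rintro a l b ha hab ⟨Q, hQ, z, h1, h2, h3⟩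
  apply ha
  obtain ⟨e, h4⟩ := hab.symm.xd
  have h5 : B.XD z (iv l) (a.2.1.1, z.2 + Finsupp.single e 1) := ⟨e, by rw [XX, h3]; exact ⟨h4.1, rfl⟩⟩
  refine ⟨Q, hQ, _, h1.step h5, ?_, rfl⟩
  have := dart_of hQ h1 h5
  rw [h2] at this
  exact A.good.fold_dart.func this hab.symm.dart

theorem f2 {p : U B × B.W × ℤ} (h : Rch σ v x p) : v.ht ≤ p.1.ht := by
  by_contra hc
  exact A.f1 h (A.min _ _ (A.rch_ex h) (old_of_lt (by simpa using hc)))

theorem f3 {p : U B × B.W × ℤ} (h : Rch σ v x p) {w : List B.L} {y' : B.W}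
    (hw : Wk B.XD p.2.1 w y') {Q : Cell B} (hQ : Q ∈ σ) {z z' : B.W} (h1 : Q.In z)
    (h2 : Q.φ z = p.1) (h3 : Wk B.XD z w z') (hr : Rd w) :
    w.length < B.ell x ∧ w.length < Q.el := by
  have hne : p.2.1.1 ≠ z.1 := fun e => A.f1 h ⟨Q, hQ, z, h1, h2, e.symm⟩
  have := piece_lt hne (proj hw) (proj h3) hr
  rwa [h.cp.ell_eq, h1.ell_eq] at this

theorem all_old {Q : Cell B} (hQ : Q ∈ σ) : Old Q.id (v, x) := by
  rcases old_tri Q.id (v, x) with h | h | h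
  · exact h
  · refine absurd ⟨Q, hQ, (Q.x, 0), Q.in_root, ?_, ?_⟩ A.nsat
    · rw [A.good.root Q hQ]; exact congrArg Prod.fst h
    · exact congrArg Prod.snd h
  · exact absurd (A.good.compl Q hQ v x A.ex h) A.nsat

theorem lvl_le {Q : Cell B} (hQ : Q ∈ σ) : Q.lvl ≤ v.ht := (A.all_old hQ).le

theorem dp {p q : U B × B.W × ℤ} (h : Rch σ v x p) {δ : List B.L} (hδ : Wk (DD σ) p δ q)
    {Z : Cell B} (hZ : Z ∈ σ) {z : B.W} (h1 : Z.In z) (h2 : Z.φ z = p.1)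
    (h3 : Z.lvl + 5 * Z.el ≤ p.1.ht) :
    δ.length < B.ell x ∧ δ.length < Z.el ∧
      ∃ z', Wk B.XD z δ z' ∧ Z.φ z' = q.1 ∧ p.1.ht = q.1.ht + δ.length := by
  have hlen : δ.length < B.ell x ∧ δ.length < Z.el := by
    by_contra hc
    obtain ⟨δ₁, δ₂, rfl, hk⟩ := exists_split_len δ (Min.min (B.ell x) Z.el) (by omega)
    obtain ⟨r, a1, -⟩ := wk_append.1 hδ
    obtain ⟨z', b1, -⟩ := A.good.stay hZ (dd_walk_down a1) h1 h2 (by omega)
    have := A.f3 h (pd_walk_xd (dd_walk_pd a1)) hZ h1 h2 b1 (A.good.dd_rd a1)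
    omega
  exact ⟨hlen.1, hlen.2, A.good.stay hZ (dd_walk_down hδ) h1 h2 (by omega)⟩

theorem ar_aux {p q : U B × B.W × ℤ} {δ : List B.L} (hδ : Wk (DD σ) p δ q) (h : Rch σ v x p)
    {Q : Cell B} (hQ : Q ∈ σ) {z : B.W} (h1 : Q.In z) (h2 : Q.φ z = p.1) :
    ∃ δ₁ δ₂ z', δ = δ₁ ++ δ₂ ∧ Wk B.XD z δ₁ z' ∧ δ₂.length < B.ell x := by
  induction hδ generalizing z with
  | nil a => exact ⟨[], [], z, rfl, Wk.nil _, B.ell_pos x⟩
  | @cons a b c l w h3 h4 ih =>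
    by_cases hz : ∃ z', B.XD z l z'
    · obtain ⟨z', hz'⟩ := hz
      have e : Q.φ z' = b.1 := by
        have := dart_of hQ h1 hz'
        rw [h2] at this
        exact A.good.fold_dart.func this h3.1.dart
      obtain ⟨δ₁, δ₂, z'', rfl, a1, a2⟩ := ih (h.step h3.1) (h1.step hz') e
      exact ⟨l :: δ₁, δ₂, z'', rfl, Wk.cons hz' a1, a2⟩
    · have hd : Deep σ a.1 := by
        have hn : ¬ Q.New z := fun hn => by
          obtain ⟨z', a1, -⟩ := A.good.down_in hQ h1 hn (h2 ▸ h3.1.dart)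
            (by simpa [Cell.h, h2] using h3.2)
          exact hz ⟨z', a1⟩
        rcases A.good.g10 Q hQ z h1 hn with e | ⟨l', z', a1, a2⟩ | hd
        · exfalso
          have b1 := A.f2 (h.step h3.1)
          have b2 := A.lvl_le hQ
          have b3 := h3.2
          rw [e, A.good.root Q hQ] at h2
          rw [← h2] at b3
          simp only [Cell.lvl] at b2
          omega
        · obtain ⟨Z, hZ, y, c1, c2, c3, c4⟩ := A.good.peak_deep h3.1.dart (h2 ▸ dart_of hQ h1 a1)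
            h3.2 (by simpa [Cell.h, h2] using a2) (by rintro rfl; exact hz ⟨z', a1⟩)
          exact ⟨Z, hZ, y, c1, c2, c3, by omega⟩
        · rwa [h2] at hd
      obtain ⟨Z, hZ, y, c1, -, c3, c4⟩ := hd
      exact ⟨[], l :: w, z, rfl, Wk.nil _, (A.dp h (Wk.cons h3 h4) hZ c1 c3 c4).1⟩

theorem ar {p q : U B × B.W × ℤ} {δ : List B.L} (hδ : Wk (DD σ) p δ q) (h : Rch σ v x p) :
    δ.length < 2 * B.ell x := by
  cases δ with
  | nil => have := B.ell_pos x; simp; omega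
  | cons l w =>
    obtain ⟨b, h3, -⟩ := wk_cons.1 hδ
    obtain ⟨Q, hQ, z, z', -, -, h1, -, h2, -⟩ := h3.1
    obtain ⟨δ₁, δ₂, z', e, a1, a2⟩ := A.ar_aux hδ h hQ h1 h2
    rw [e] at hδ ⊢
    obtain ⟨r, b1, -⟩ := wk_append.1 hδ
    have := A.f3 h (pd_walk_xd (dd_walk_pd b1)) hQ h1 h2 a1 (A.good.dd_rd b1)
    simp; omega

theorem shape {w : List B.L} (hr : Rd w) {p : U B × B.W × ℤ}
    (hw : Wk (PD σ) (v, (x, 0), 0) w p) :
    ∃ β δ p₁, w = β ++ invRev δ ∧ Wk (DD σ) p δ p₁ ∧ Wk (PD σ) (v, (x, 0), 0) β p₁ ∧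
      (β = [] ∨ ∃ D ∈ σ, ∃ z₀ z₁, D.In z₀ ∧ D.φ z₀ = v ∧ D.lvl + 16 * D.el ≤ v.ht ∧
        Wk B.XD z₀ β z₁ ∧ D.φ z₁ = p₁.1) := by
  induction w using List.reverseRecOn generalizing p with
  | nil =>
    rw [wk_nil] at hw; subst hw
    exact ⟨[], [], _, rfl, Wk.nil _, Wk.nil _, Or.inl rfl⟩
  | append_singleton w l ih =>
    obtain ⟨q, h1, h2⟩ := wk_snoc.1 hw
    obtain ⟨β, δ, p₁, rfl, a1, a2, a3⟩ := ih hr.left' h1
    have hq : Rch σ v x q := ⟨_, h1⟩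
    rcases A.good.dart_step h2.dart with hs | hs
    · exact ⟨β, iv l :: δ, p₁, by simp [invRev_cons'], Wk.cons ⟨h2.symm, by omega⟩ a1, a2, a3⟩
    · refine ⟨β ++ invRev δ ++ [l], [], p, by simp, Wk.nil _, hw, Or.inr ?_⟩
      cases δ with
      | nil =>
        rw [wk_nil] at a1; subst a1
        rcases a3 with rfl | ⟨D, hD, z₀, z₁, b1, b2, b3, b4, b5⟩
        · exfalso
          rw [wk_nil] at a2; subst a2
          have := A.f2 (hq.step h2)
          simp only at hs; omega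
        · have c1 := A.f2 hq
          have c2 := b1.walk b4
          obtain ⟨z₂, c3, c4⟩ := A.good.down_in hD c2
            (A.good.new_of_h hD c2 (by simp only [Cell.h, b5]; omega)) (b5 ▸ h2.dart)
            (by simp only [Cell.h, b5]; omega)
          exact ⟨D, hD, z₀, z₂, b1, b2, b3, by simpa using b4.snoc c3, c4⟩
      | cons m δ =>
        obtain ⟨q', c1, -⟩ := wk_cons.1 a1
        have hne : l ≠ m := by
          rw [isReduced_snoc] at hr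
          have := hr.2 (iv m) (by simp [invRev_cons'])
          simpa using this
        obtain ⟨Z, hZ, z, d1, d2, d3, d4⟩ := A.good.peak_deep h2.dart c1.1.dart (by omega) c1.2 hne
        obtain ⟨-, e2, z', e3, e4, e5⟩ := A.dp hq a1 hZ d1 d3 (by omega)
        obtain ⟨z₂, f1, f2⟩ := A.good.down_in hZ d1 d2 (d3 ▸ h2.dart)
          (by simp only [Cell.h, d3]; omega)
        have g1 := d1.walk e3
        have g2 : Wk B.XD z' (invRev (m :: δ) ++ [l]) z₂ := (e3.rev fold_XD).snoc f1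
        rcases a3 with rfl | ⟨D, hD, z₀, z₁, b1, b2, b3, b4, b5⟩
        · rw [wk_nil] at a2; subst a2
          exact ⟨Z, hZ, z', z₂, g1, e4, by simp only at e5; omega, by simpa using g2, f2⟩
        · have c1 := A.f2 ⟨_, a2⟩
          have c2 := b1.walk b4
          obtain ⟨rfl, rfl⟩ := A.good.owner_uniq hD hZ c2 g1
            (A.good.new_of_h hD c2 (by simp only [Cell.h, b5]; omega))
            (A.good.new_of_h hZ g1 (by simp only [Cell.h, e4]; omega)) (b5.trans e4.symm)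
          exact ⟨D, hD, z₀, z₂, b1, b2, b3, by simpa using b4.append g2, f2⟩

theorem radius {w : List B.L} (hr : Rd w) {p : U B × B.W × ℤ}
    (hw : Wk (PD σ) (v, (x, 0), 0) w p) : w.length < 3 * B.ell x := by
  obtain ⟨β, δ, p₁, rfl, a1, a2, a3⟩ := A.shape hr hw
  have b1 := A.ar a1 ⟨_, hw⟩
  have b2 : β.length < B.ell x := by
    rcases a3 with rfl | ⟨D, hD, z₀, z₁, b1, b2, -, b4, -⟩
    · exact B.ell_pos x
    · exact (A.f3 Rch.base (pd_walk_xd a2) hD b1 b2 b4 hr.left').1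
  simp; omega

theorem goal3 {w : List B.L} (hr : Rd w) {p : U B × B.W × ℤ}
    (hw : Wk (PD σ) (v, (x, 0), 0) w p) {Z : Cell B} (hZ : Z ∈ σ) {z : B.W} (h1 : Z.In z)
    (h2 : Z.φ z = p.1) (h3 : Z.lvl + 5 * Z.el ≤ p.1.ht) :
    ∃ z₀, Z.In z₀ ∧ Z.New z₀ ∧ Z.φ z₀ = v ∧ Wk B.XD z₀ w z := by
  obtain ⟨β, δ, p₁, rfl, a1, a2, a3⟩ := A.shape hr hw
  obtain ⟨-, e2, z', e3, e4, e5⟩ := A.dp ⟨_, hw⟩ a1 hZ h1 h2 h3
  have g1 := h1.walk e3
  have g2 := A.good.new_of_h hZ g1 (by simp only [Cell.h, e4]; omega)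
  rcases a3 with rfl | ⟨D, hD, z₀, z₁, b1, b2, b3, b4, b5⟩
  · rw [wk_nil] at a2; subst a2
    exact ⟨z', g1, g2, e4, by simpa using e3.rev fold_XD⟩
  · have c1 := A.f2 ⟨_, a2⟩
    have c2 := b1.walk b4
    obtain ⟨rfl, rfl⟩ := A.good.owner_uniq hD hZ c2 g1
      (A.good.new_of_h hD c2 (by simp only [Cell.h, b5]; omega)) g2 (b5.trans e4.symm)
    exact ⟨z₀, b1, A.good.new_of_h hD b1 (by simp only [Cell.h, b2]; omega), b2,
      b4.append (e3.rev fold_XD)⟩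

theorem g10 {w : List B.L} (hr : Rd w) {p : U B × B.W × ℤ}
    (hw : Wk (PD σ) (v, (x, 0), 0) w p) :
    w = [] ∨ (∃ w' l q, w = w' ++ [iv l] ∧ DD σ p l q) ∨ Deep σ p.1 := by
  obtain ⟨β, δ, p₁, rfl, a1, a2, a3⟩ := A.shape hr hw
  cases δ with
  | cons m δ =>
    obtain ⟨q, c1, -⟩ := wk_cons.1 a1
    exact Or.inr (Or.inl ⟨β ++ invRev δ, m, q, by simp [invRev_cons'], c1⟩)
  | nil =>
    rw [wk_nil] at a1; subst a1
    rcases a3 with rfl | ⟨D, hD, z₀, z₁, b1, b2, b3, b4, b5⟩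
    · exact Or.inl rfl
    · have c1 := A.f2 ⟨_, a2⟩
      have c2 := b1.walk b4
      exact Or.inr (Or.inr ⟨D, hD, z₁, c2,
        A.good.new_of_h hD c2 (by simp only [Cell.h, b5]; omega), b5, by omega⟩)

theorem exists_red {p : U B × B.W × ℤ} (h : Rch σ v x p) :
    ∃ w, Rd w ∧ Wk (PD σ) (v, (x, 0), 0) w p ∧ w.length < 3 * B.ell x := by
  obtain ⟨w, h⟩ := h
  obtain ⟨w', a1, a2, -⟩ := h.exists_reduced A.good.fold_pd
  exact ⟨w', a1, a2, A.radius a1 a2⟩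

theorem inj_x {p q : U B × B.W × ℤ} (hp : Rch σ v x p) (hq : Rch σ v x q) (e : p.2.1 = q.2.1) :
    p = q := by
  obtain ⟨w, -, a2, a3⟩ := A.exists_red hp
  obtain ⟨w', -, b2, b3⟩ := A.exists_red hq
  have c1 := pd_walk_xd a2
  have c2 := pd_walk_xd b2
  rw [← e] at c2
  exact a2.eq_of_mk A.good.fold_pd b2 (mk_eq_of_short c1 c2 (by simp only; omega))

theorem inj_u_aux (n : ℕ) : ∀ {w w' : List B.L} {p q : U B × B.W × ℤ}, w.length ≤ n → Rd w → Rd w' →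
    Wk (PD σ) (v, (x, 0), 0) w p → Wk (PD σ) (v, (x, 0), 0) w' q → p.1 = q.1 → p = q := by
  induction n with
  | zero =>
    intro w w' p q hn hr hr' hw hw' e
    obtain rfl : w = [] := List.length_eq_zero_iff.1 (by omega)
    rw [wk_nil] at hw; subst hw
    rcases A.g10 hr' hw' with rfl | ⟨w'', l, r, -, h⟩ | ⟨Z, hZ, z, h1, h2, h3, h4⟩
    · exact wk_nil.1 hw'
    · have := A.f2 (Rch.step ⟨_, hw'⟩ h.1)
      have := h.2
      simp only at e; rw [← e] at this; omega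
    · obtain ⟨z₀, b1, b2, b3, b4⟩ := A.goal3 hr' hw' hZ h1 h3 h4
      obtain ⟨-, rfl⟩ := A.good.owner_uniq hZ hZ b1 h1 b2 h2 (b3.trans (e.trans h3.symm))
      have := (A.f3 Rch.base (pd_walk_xd hw') hZ b1 b3 b4 hr').2
      have := (girthX b4 rfl (by rw [b1.ell_eq]; omega)).2
      exact (Wk.nil _).eq_of_mk A.good.fold_pd hw' this.symm
  | succ n ih =>
    intro w w' p q hn hr hr' hw hw' e
    by_cases hd : Deep σ p.1
    · obtain ⟨Z, hZ, z, h1, h2, h3, h4⟩ := hd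
      obtain ⟨z₀, b1, b2, b3, b4⟩ := A.goal3 hr hw hZ h1 h3 h4
      obtain ⟨z₀', b1', b2', b3', b4'⟩ := A.goal3 hr' hw' hZ h1 (h3.trans e) (e ▸ h4)
      obtain ⟨-, rfl⟩ := A.good.owner_uniq hZ hZ b1 b1' b2 b2' (b3.trans b3'.symm)
      have := (A.f3 Rch.base (pd_walk_xd hw) hZ b1 b3 b4 hr).2
      have := (A.f3 Rch.base (pd_walk_xd hw') hZ b1 b3 b4' hr').2
      exact hw.eq_of_mk A.good.fold_pd hw' (mk_eq_of_short b4 b4' (by rw [b1.ell_eq]; omega))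
    · rcases A.g10 hr hw with rfl | ⟨w₁, l, r, rfl, h⟩ | h
      · rw [wk_nil] at hw; subst hw
        rcases A.g10 hr' hw' with rfl | ⟨w'', l, r, -, h⟩ | h
        · exact wk_nil.1 hw'
        · have := A.f2 (Rch.step ⟨_, hw'⟩ h.1)
          have := h.2
          simp only at e; rw [← e] at this; omega
        · exact absurd (e ▸ h) hd
      · rcases A.g10 hr' hw' with rfl | ⟨w₁', l', r', rfl, h'⟩ | h'
        · rw [wk_nil] at hw'; subst hw'
          have := A.f2 (Rch.step ⟨_, hw⟩ h.1)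
          have := h.2
          simp only at e; rw [e] at this; omega
        · by_cases hl : l = l'
          · subst hl
            obtain ⟨s, c1, c2⟩ := wk_snoc.1 hw
            obtain ⟨s', c1', c2'⟩ := wk_snoc.1 hw'
            have d1 := c2.symm.dart
            have d2 := c2'.symm.dart
            rw [← e] at d2
            obtain rfl := ih (by simp at hn; omega) hr.left' hr'.left' c1 c1'
              (A.good.fold_dart.func d1 d2)
            exact A.good.fold_pd.func c2 c2'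
          · obtain ⟨Z, hZ, z, d1, d2, d3, d4⟩ := A.good.peak_deep h.1.dart (e ▸ h'.1.dart) h.2
              (e ▸ h'.2) hl
            exact absurd ⟨Z, hZ, z, d1, d2, d3, by omega⟩ hd
        · exact absurd (e ▸ h') hd
      · exact absurd h hd

theorem inj_u {p q : U B × B.W × ℤ} (hp : Rch σ v x p) (hq : Rch σ v x q) (e : p.1 = q.1) :
    p = q := by
  obtain ⟨w, a1, a2, -⟩ := A.exists_red hp
  obtain ⟨w', b1, b2, -⟩ := A.exists_red hq
  exact A.inj_u_aux _ le_rfl a1 b1 a2 b2 e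

theorem tw {p q : U B × B.W × ℤ} (hp : Rch σ v x p) (hq : Rch σ v x q) {w : List B.L}
    (hw : Wk B.XD p.2.1 w q.2.1) (hr : Rd w) (hl : w.length ≤ 34 * B.ell x) : Wk (PD σ) p w q := by
  obtain ⟨τ, -, a2, a3⟩ := A.exists_red hp
  obtain ⟨τ', -, b2, b3⟩ := A.exists_red hq
  have c := (a2.rev A.good.fold_pd).append b2
  refine c.of_mk A.good.fold_pd hr (mk_eq_of_short (pd_walk_xd c) hw ?_)
  rw [hp.cp.ell_eq]; simp; omega

end Att

end Pool.Agent.Lib.MP_f40e16_al
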