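import Mathlib

set_option autoImplicit false

namespace Pool.Agent.Lib.MP_f40e16_al

open Finset

/-- directed expanders with out-degree `33` and bounded in-degree; the edges of index `0` are
not used for the expansion -/
structure Expd (K : ℕ) {V : Type} [Fintype V] [DecidableEq V] (hd : V × Fin 33 → V) : Prop where
  indeg : ∀ y, #{ε | hd ε = y} ≤ K
  exp : ∀ S : Finset V, 2 * #S ≤ Fintype.card V → #S ≤ #{ε | ε.2 ≠ 0 ∧ ε.1 ∈ S ∧ hd ε ∉ S}

section
variable {K : ℕ} {V : Type} [Fintype V] [DecidableEq V] {hd : V × Fin 33 → V} (X : Expd K hd)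
include X

theorem Expd.coarea (n : ℕ) : ∀ h : V → ℝ, (∀ x, 0 ≤ h x) → #{x | h x ≠ 0} = n →
    2 * n ≤ Fintype.card V →
    ∑ x, h x ≤ ∑ ε : V × Fin 33 with ε.2 ≠ 0, max (h ε.1 - h (hd ε)) 0 := by
  induction n using Nat.strong_induction_on with
  | _ n ih =>
  intro h h0 hn hN
  set S : Finset V := {x | h x ≠ 0} with hS
  rcases S.eq_empty_or_nonempty with hE | hE
  · have : ∀ x, h x = 0 := fun x => by
      by_contra hx
      have : x ∈ S := by simpa [hS] using hx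
      simp [hE] at this
    simp [this]
  obtain ⟨x₀, hx₀, hmin⟩ := S.exists_min_image h hE
  have hμ : 0 ≤ h x₀ := h0 _
  let h' : V → ℝ := fun x => if x ∈ S then h x - h x₀ else 0
  have hz : ∀ x, x ∉ S → h x = 0 := fun x hx => by simpa [hS] using hx
  have h0' : ∀ x, 0 ≤ h' x := fun x => by
    simp only [h']
    split_ifs with hx
    · linarith [hmin x hx]
    · rfl
  have hsub : ({x | h' x ≠ 0} : Finset V) ⊆ S.erase x₀ := by
    intro x hx
    simp only [mem_filter, mem_univ, true_and, h'] at hx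
    rw [mem_erase]
    constructor
    · rintro rfl; simp at hx
    · by_contra hc; simp [hc] at hx
  have hc := card_le_card hsub
  rw [card_erase_of_mem hx₀] at hc
  have hpos : 0 < #S := card_pos.2 hE
  have a1 := ih _ (by omega) h' h0' rfl (by omega)
  have a2 := X.exp S (by omega)
  have a3 : ∑ x, h x = ∑ x, h' x + h x₀ * #S := by
    have : ∀ x, h x = h' x + if x ∈ S then h x₀ else 0 := fun x => by
      simp only [h']
      split_ifs with hx
      · ring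
      · simp [hz x hx]
    rw [sum_congr rfl fun x _ => this x, sum_add_distrib, sum_ite_mem]
    simp [mul_comm]
  have a4 : ∑ ε : V × Fin 33 with ε.2 ≠ 0, max (h' ε.1 - h' (hd ε)) 0 +
      h x₀ * #{ε : V × Fin 33 | ε.2 ≠ 0 ∧ ε.1 ∈ S ∧ hd ε ∉ S} ≤
      ∑ ε : V × Fin 33 with ε.2 ≠ 0, max (h ε.1 - h (hd ε)) 0 := by
    rw [← filter_filter, card_filter, Nat.cast_sum, mul_sum, ← sum_add_distrib]
    refine sum_le_sum fun ε _ => ?_
    have b1 := h0' ε.1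
    have b2 := h0' (hd ε)
    simp only [h'] at b1 b2 ⊢
    by_cases c1 : ε.1 ∈ S <;> by_cases c2 : hd ε ∈ S <;> simp [c1, c2, hz] at b1 b2 ⊢
    · rw [max_eq_left (by linarith)]; left; linarith
    · right; exact b2
  have a5 : h x₀ * #S ≤ h x₀ * #{ε : V × Fin 33 | ε.2 ≠ 0 ∧ ε.1 ∈ S ∧ hd ε ∉ S} :=
    mul_le_mul_of_nonneg_left (by exact_mod_cast a2) hμ
  linarith

omit X in
theorem exists_median [Nonempty V] (g : V → ℝ) :
    ∃ m, 2 * #{x | m < g x} ≤ Fintype.card V ∧ 2 * #{x | g x < m} ≤ Fintype.card V := by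
  obtain ⟨y, -, hy⟩ := (univ : Finset V).exists_max_image g univ_nonempty
  obtain ⟨x₀, hx₀, hmin⟩ := ({x | 2 * #{z | g x < g z} ≤ Fintype.card V} : Finset V).exists_min_image
    g ⟨y, by
      simp only [mem_filter, mem_univ, true_and]
      rw [filter_false_of_mem (fun z _ => not_lt.2 (hy z (mem_univ _)))]; simp⟩
  refine ⟨g x₀, by simpa using hx₀, ?_⟩
  rcases ({x | g x < g x₀} : Finset V).eq_empty_or_nonempty with hE | hE
  · simp [hE]
  obtain ⟨x₁, hx₁, hmax⟩ := Finset.exists_max_image _ g hE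
  simp only [mem_filter, mem_univ, true_and] at hx₁ hmax hmin
  have a1 : ¬ 2 * #{z | g x₁ < g z} ≤ Fintype.card V := fun h => by
    have := hmin x₁ h; linarith
  have a2 : Disjoint ({z | g x₁ < g z} : Finset V) ({x | g x < g x₀} : Finset V) := by
    rw [disjoint_filter]
    intro z _ h1 h2
    have := hmax z h2; linarith
  have a3 := card_le_univ (({z | g x₁ < g z} : Finset V) ∪ ({x | g x < g x₀} : Finset V))
  rw [card_union_of_disjoint a2] at a3
  omega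

theorem Expd.l1real [Nonempty V] (g : V → ℝ) :
    ∃ m, ∑ x, |g x - m| ≤ 2 * ∑ ε : V × Fin 33 with ε.2 ≠ 0, |g (hd ε) - g ε.1| := by
  obtain ⟨m, h1, h2⟩ := exists_median g
  refine ⟨m, ?_⟩
  have a1 := X.coarea _ (fun x => max (g x - m) 0) (fun x => le_max_right _ _) rfl (by
    refine le_trans (Nat.mul_le_mul_left 2 (card_le_card fun x hx => ?_)) h1
    simp only [mem_filter, mem_univ, true_and] at hx ⊢
    by_contra hc
    exact hx (max_eq_right (by linarith)))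
  have a2 := X.coarea _ (fun x => max (m - g x) 0) (fun x => le_max_right _ _) rfl (by
    refine le_trans (Nat.mul_le_mul_left 2 (card_le_card fun x hx => ?_)) h2
    simp only [mem_filter, mem_univ, true_and] at hx ⊢
    by_contra hc
    exact hx (max_eq_right (by linarith)))
  have a3 : ∑ x, |g x - m| = ∑ x, max (g x - m) 0 + ∑ x, max (m - g x) 0 := by
    rw [← sum_add_distrib]
    refine sum_congr rfl fun x _ => ?_
    rcases le_total (g x) m with h | h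
    · rw [abs_of_nonpos (by linarith), max_eq_right (by linarith), max_eq_left (by linarith)]; ring
    · rw [abs_of_nonneg (by linarith), max_eq_left (by linarith), max_eq_right (by linarith)]; ring
  have key : ∀ a b : ℝ, max (max a 0 - max b 0) 0 ≤ |b - a| := by
    intro a b
    refine max_le ?_ (abs_nonneg _)
    rw [abs_sub_comm]
    exact (le_abs_self _).trans (abs_max_sub_max_le_abs a b 0)
  have b1 : ∑ ε : V × Fin 33 with ε.2 ≠ 0, max (max (g ε.1 - m) 0 - max (g (hd ε) - m) 0) 0 ≤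
      ∑ ε : V × Fin 33 with ε.2 ≠ 0, |g (hd ε) - g ε.1| :=
    sum_le_sum fun ε _ => (key _ _).trans (by simp)
  have b2 : ∑ ε : V × Fin 33 with ε.2 ≠ 0, max (max (m - g ε.1) 0 - max (m - g (hd ε)) 0) 0 ≤
      ∑ ε : V × Fin 33 with ε.2 ≠ 0, |g (hd ε) - g ε.1| :=
    sum_le_sum fun ε _ => (key _ _).trans (by simp [abs_sub_comm])
  linarith

theorem Expd.l1complex [Nonempty V] (U : V → ℂ) :
    ∃ m, ∑ x, ‖U x - m‖ ≤ 4 * ∑ ε : V × Fin 33 with ε.2 ≠ 0, ‖U (hd ε) - U ε.1‖ := by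
  obtain ⟨m₁, h1⟩ := X.l1real fun x => (U x).re
  obtain ⟨m₂, h2⟩ := X.l1real fun x => (U x).im
  refine ⟨⟨m₁, m₂⟩, ?_⟩
  have a1 : ∑ x, ‖U x - ⟨m₁, m₂⟩‖ ≤ ∑ x, |(U x).re - m₁| + ∑ x, |(U x).im - m₂| := by
    rw [← sum_add_distrib]
    exact sum_le_sum fun x _ => (Complex.norm_le_abs_re_add_abs_im _).trans (by simp)
  have a2 : ∑ ε : V × Fin 33 with ε.2 ≠ 0, |(U (hd ε)).re - (U ε.1).re| ≤
      ∑ ε : V × Fin 33 with ε.2 ≠ 0, ‖U (hd ε) - U ε.1‖ :=
    sum_le_sum fun ε _ => by simpa using Complex.abs_re_le_norm (U (hd ε) - U ε.1)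
  have a3 : ∑ ε : V × Fin 33 with ε.2 ≠ 0, |(U (hd ε)).im - (U ε.1).im| ≤
      ∑ ε : V × Fin 33 with ε.2 ≠ 0, ‖U (hd ε) - U ε.1‖ :=
    sum_le_sum fun ε _ => by simpa using Complex.abs_im_le_norm (U (hd ε) - U ε.1)
  linarith

theorem Expd.sum_hd (F : V → ℝ) (hF : ∀ x, 0 ≤ F x) : ∑ ε, F (hd ε) ≤ K * ∑ x, F x := by
  rw [← sum_fiberwise (s := univ) (g := hd), mul_sum]
  refine sum_le_sum fun y _ => ?_
  rw [sum_congr rfl (g := fun _ => F y) fun ε hε => by rw [(mem_filter.1 hε).2], sum_const,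
    nsmul_eq_mul]
  exact mul_le_mul_of_nonneg_right (by exact_mod_cast X.indeg y) (hF y)

theorem Expd.twisted [Nonempty V] (u : V → ℂ) (c : V × Fin 33 → ℂ) (η : ℂ) (hη : ‖η‖ = 1)
    (hc : ∀ ε, ‖c ε‖ = 1) (hc2 : ∀ ε, c ε ^ 2 = if ε.2 = 0 then η else 1) :
    ‖η - 1‖ ^ 2 * ∑ x, ‖u x‖ ^ 2 ≤
      (4 * K + 13) ^ 2 * (2 * (K + 33)) * ∑ ε, ‖c ε * u (hd ε) - u ε.1‖ ^ 2 := by
  obtain ⟨m, hm⟩ := X.l1complex fun x => u x ^ 2
  set P := ∑ ε, ‖c ε ^ 2 * u (hd ε) ^ 2 - u ε.1 ^ 2‖ with hP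
  set A := ∑ x, ‖u x‖ ^ 2 with hA
  set Q := ∑ ε, ‖c ε * u (hd ε) - u ε.1‖ ^ 2 with hQ
  set D := ∑ x, ‖u x ^ 2 - m‖ with hD
  have hD0 : 0 ≤ D := sum_nonneg fun _ _ => norm_nonneg _
  have hA0 : 0 ≤ A := sum_nonneg fun _ _ => sq_nonneg _
  have hQ0 : 0 ≤ Q := sum_nonneg fun _ _ => sq_nonneg _
  have hP0 : 0 ≤ P := sum_nonneg fun _ _ => norm_nonneg _
  have a1 : ∑ ε : V × Fin 33 with ε.2 ≠ 0, ‖u (hd ε) ^ 2 - u ε.1 ^ 2‖ ≤ P := by
    refine le_trans (le_of_eq (sum_congr rfl fun ε hε => ?_))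
      (sum_le_sum_of_subset_of_nonneg (filter_subset _ _) fun _ _ _ => norm_nonneg _)
    rw [hc2, if_neg (mem_filter.1 hε).2, one_mul]
  have sub0 : ∀ F : V × Fin 33 → ℝ, (∀ ε, 0 ≤ F ε) → ∑ x, F (x, 0) ≤ ∑ ε, F ε := by
    intro F hF
    rw [Fintype.sum_prod_type]
    exact sum_le_sum fun x _ => single_le_sum (f := fun i => F (x, i)) (fun i _ => hF _) (mem_univ 0)
  have a2 := sub0 (fun ε => ‖c ε ^ 2 * u (hd ε) ^ 2 - u ε.1 ^ 2‖) fun _ => norm_nonneg _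
  have a3 := (sub0 (fun ε => ‖u (hd ε) ^ 2 - m‖) fun _ => norm_nonneg _).trans
    (X.sum_hd (fun x => ‖u x ^ 2 - m‖) fun _ => norm_nonneg _)
  have a4 : ‖η - 1‖ * A ≤ ∑ x, (‖c (x, 0) ^ 2 * u (hd (x, 0)) ^ 2 - u x ^ 2‖ +
      ‖u (hd (x, 0)) ^ 2 - m‖ + 3 * ‖u x ^ 2 - m‖) := by
    rw [hA, mul_sum]
    refine sum_le_sum fun x _ => ?_
    rw [hc2, if_pos rfl, ← norm_pow, ← norm_mul]
    have e : (η - 1) * u x ^ 2 = (η * u (hd (x, 0)) ^ 2 - u x ^ 2) - η * (u (hd (x, 0)) ^ 2 - m) +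
        η * (u x ^ 2 - m) := by ring
    rw [e]
    have b1 := norm_add_le ((η * u (hd (x, 0)) ^ 2 - u x ^ 2) - η * (u (hd (x, 0)) ^ 2 - m))
      (η * (u x ^ 2 - m))
    have b2 := norm_sub_le (η * u (hd (x, 0)) ^ 2 - u x ^ 2) (η * (u (hd (x, 0)) ^ 2 - m))
    rw [norm_mul, hη, one_mul] at b1 b2
    have := norm_nonneg (u x ^ 2 - m)
    linarith
  rw [sum_add_distrib, sum_add_distrib, ← mul_sum] at a4
  have hK : (0 : ℝ) ≤ K := Nat.cast_nonneg _
  have a5 : ‖η - 1‖ * A ≤ (4 * K + 13) * P := by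
    simp only at a2 a3 hm
    nlinarith
  have a6 : P ^ 2 ≤ Q * (2 * (K + 33) * A) := by
    have b1 : P = ∑ ε, ‖c ε * u (hd ε) - u ε.1‖ * ‖c ε * u (hd ε) + u ε.1‖ := by
      refine sum_congr rfl fun ε _ => ?_
      rw [← norm_mul]; congr 1; ring
    rw [b1]
    refine (sum_mul_sq_le_sq_mul_sq _ _ _).trans (mul_le_mul_of_nonneg_left ?_ hQ0)
    have b2 : ∑ ε, ‖c ε * u (hd ε) + u ε.1‖ ^ 2 ≤
        ∑ ε : V × Fin 33, (2 * ‖u (hd ε)‖ ^ 2 + 2 * ‖u ε.1‖ ^ 2) := by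
      refine sum_le_sum fun ε _ => ?_
      have := norm_add_le (c ε * u (hd ε)) (u ε.1)
      rw [norm_mul, hc, one_mul] at this
      have := pow_le_pow_left₀ (norm_nonneg _) this 2
      nlinarith [sq_nonneg (‖u (hd ε)‖ - ‖u ε.1‖)]
    rw [sum_add_distrib, ← mul_sum, ← mul_sum] at b2
    have b3 := X.sum_hd (fun x => ‖u x‖ ^ 2) fun _ => sq_nonneg _
    have b4 : ∑ ε : V × Fin 33, ‖u ε.1‖ ^ 2 = 33 * A := by
      rw [Fintype.sum_prod_type, hA, mul_sum]; simp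
    linarith
  rcases hA0.eq_or_lt with h | h
  · rw [← h, mul_zero]; positivity
  · refine le_of_mul_le_mul_right ?_ h
    have := pow_le_pow_left₀ (by positivity) a5 2
    have h2 := mul_le_mul_of_nonneg_left a6 (sq_nonneg (4 * (K : ℝ) + 13))
    nlinarith

end

theorem parseval {A : Type} [AddCommGroup A] [Fintype A] (g : A → ℂ) :
    ∑ χ : AddChar A ℂ, ‖∑ a, g a * χ a‖ ^ 2 = Fintype.card A * ∑ a, ‖g a‖ ^ 2 := by
  classical
  have key : ∀ χ : AddChar A ℂ, ((‖∑ a, g a * χ a‖ ^ 2 : ℝ) : ℂ) =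
      ∑ a, ∑ b, g a * (starRingEnd ℂ) (g b) * χ (a - b) := by
    intro χ
    rw [← Complex.normSq_eq_norm_sq, ← Complex.mul_conj, map_sum, sum_mul_sum]
    refine sum_congr rfl fun a _ => sum_congr rfl fun b _ => ?_
    rw [map_mul, sub_eq_add_neg, AddChar.map_add_eq_mul, AddChar.map_neg_eq_conj]; ring
  apply Complex.ofReal_injective
  push_cast
  simp only [← Complex.ofReal_pow, key]
  rw [sum_comm, mul_sum]
  refine sum_congr rfl fun a _ => ?_
  rw [sum_comm]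
  simp only [← mul_sum, AddChar.sum_apply_eq_ite, sub_eq_zero]
  simp [Complex.mul_conj, Complex.normSq_eq_norm_sq, mul_comm]

theorem parseval_diff {A : Type} [AddCommGroup A] [Fintype A] (g g' : A → ℂ) (β : A) :
    ∑ χ : AddChar A ℂ, ‖χ (-β) * (∑ a, g a * χ a) - ∑ a, g' a * χ a‖ ^ 2 =
      Fintype.card A * ∑ a, ‖g (a + β) - g' a‖ ^ 2 := by
  rw [← parseval]
  refine sum_congr rfl fun χ _ => ?_
  congr 2
  simp only [sub_mul, sum_sub_distrib, mul_sum]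
  congr 1
  rw [← Equiv.sum_comp (Equiv.addRight β)]
  refine sum_congr rfl fun a _ => ?_
  simp only [Equiv.coe_addRight]
  rw [mul_left_comm, ← AddChar.map_add_eq_mul]; congr 2; abel

theorem Expd.cover {K : ℕ} {V : Type} [Fintype V] [DecidableEq V] [Nonempty V]
    {hd : V × Fin 33 → V} (X : Expd K hd) (M : ℕ) [NeZero M]
    (v : V → (V × Fin 33 → ZMod 2) × ZMod M → ℂ) :
    ∑ x, ∑ a, ‖v x (a + (0, 2)) - v x a‖ ^ 2 ≤ (4 * K + 13) ^ 2 * (2 * (K + 33)) *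
      ∑ ε, ∑ a, ‖v (hd ε) (a + (Pi.single ε 1, if ε.2 = 0 then 1 else 0)) - v ε.1 a‖ ^ 2 := by
  have hpos : (0 : ℝ) < Fintype.card ((V × Fin 33 → ZMod 2) × ZMod M) := by
    exact_mod_cast Fintype.card_pos
  refine le_of_mul_le_mul_left ?_ hpos
  rw [mul_left_comm, mul_sum, mul_sum univ _ (Fintype.card ((V × Fin 33 → ZMod 2) × ZMod M) : ℝ)]
  rw [sum_congr rfl fun x _ => (parseval_diff (v x) (v x) (0, 2)).symm,
    sum_congr rfl fun ε _ => (parseval_diff (v (hd ε)) (v ε.1)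
      (Pi.single ε 1, if ε.2 = 0 then 1 else 0)).symm, sum_comm,
    sum_comm (s := (univ : Finset (V × Fin 33))), mul_sum]
  refine sum_le_sum fun χ _ => ?_
  refine le_trans (le_of_eq ?_) (X.twisted (fun x => ∑ a, v x a * χ a)
    (fun ε => χ (-(Pi.single ε 1, if ε.2 = 0 then 1 else 0))) (χ (-(0, 2))) (by simp)
    (fun _ => by simp) ?_)
  · rw [mul_sum]
    refine sum_congr rfl fun x _ => ?_
    rw [← mul_pow, ← norm_mul, sub_mul, one_mul]
  · intro ε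
    rw [sq, ← AddChar.map_add_eq_mul, ← neg_add, Prod.mk_add_mk, ← Pi.single_add,
      CharTwo.add_self_eq_zero, Pi.single_zero]
    split_ifs
    · rw [one_add_one_eq_two]
    · simp [Prod.mk_zero_zero]

end Pool.Agent.Lib.MP_f40e16_al
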