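import Pool.Agent.Lib.MP_f40e16_al.Cube

set_option autoImplicit false

namespace Pool.Agent.Lib.MP_f40e16_al.Cube

open Filter Topology
open scoped Pointwise

theorem pw_of_pc {Γ : Type} [Group Γ] (h : PC Γ) :
    ∃ (X : Type) (_ : MulAction Γ X) (M : Set X), (∀ g : Γ, (symmDiff (g • M) M).Finite) ∧
      ∀ R : ℕ, {g : Γ | (symmDiff (g • M) M).ncard ≤ R}.Finite := by
  classical
  obtain ⟨Ω, act, F, h1, h2, h3, h4⟩ := h
  have inj : ∀ x, Function.Injective (act x) := fun x =>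
    Function.LeftInverse.injective (g := act x⁻¹) fun a => by rw [← h2, inv_mul_cancel, h1]
  have F1 : F 1 = 0 := by
    have := h3 1 1
    rw [one_mul, show act 1 = id from funext h1, Finsupp.mapDomain_id] at this
    simpa using this
  let inst : MulAction Γ (Ω × ZMod 2) :=
    { smul := fun g p => (act g p.1, p.2 + F g (act g p.1))
      one_smul := fun p => by
        change (act 1 p.1, p.2 + F 1 (act 1 p.1)) = p
        simp [h1, F1]
      mul_smul := fun x y p => by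
        change (act (x * y) p.1, p.2 + F (x * y) (act (x * y) p.1)) =
          (act x (act y p.1), p.2 + F y (act y p.1) + F x (act x (act y p.1)))
        rw [h3, h2, Finsupp.add_apply, Finsupp.mapDomain_apply (inj x)]
        congr 1
        ring }
  have key : ∀ g : Γ, symmDiff (g • {p : Ω × ZMod 2 | p.2 = 0}) {p | p.2 = 0} =
      ((F g).support ×ˢ (Finset.univ : Finset (ZMod 2)) : Finset (Ω × ZMod 2)) := by
    intro g
    ext ⟨a, c⟩
    have e : (a, c) ∈ g • {p : Ω × ZMod 2 | p.2 = 0} ↔ c = F g a := by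
      constructor
      · rintro ⟨⟨b, d⟩, hd, he⟩
        have he' : (act g b, d + F g (act g b)) = (a, c) := he
        simp only [Set.mem_ofPred_eq] at hd
        obtain ⟨rfl, rfl⟩ := Prod.mk.inj he'
        simp [hd]
      · rintro rfl
        refine ⟨(act g⁻¹ a, 0), rfl, ?_⟩
        change (act g (act g⁻¹ a), 0 + F g (act g (act g⁻¹ a))) = _
        rw [← h2, mul_inv_cancel, h1, zero_add]
    rw [Set.mem_symmDiff, e]
    simp only [Set.mem_ofPred_eq, Finset.coe_product, Finset.coe_univ, Set.mem_prod,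
      Finset.mem_coe, Finsupp.mem_support_iff, Set.mem_univ, and_true]
    exact (by decide : ∀ c t : ZMod 2, (c = t ∧ ¬c = 0 ∨ c = 0 ∧ ¬c = t) ↔ t ≠ 0) c (F g a)
  refine ⟨Ω × ZMod 2, inst, {p | p.2 = 0}, fun g => ?_, fun R => (h4 R).subset fun g hg => ?_⟩
  · rw [key]; exact Finset.finite_toSet _
  · simp only [Set.mem_ofPred_eq, key, Set.ncard_coe_finset, Finset.card_product,
      Finset.card_univ, ZMod.card] at hg ⊢
    omega

section
variable {Γ X : Type} [Group Γ] [MulAction Γ X]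

theorem mem_perm (g : Γ) (ξ : lp (fun _ : X => ℝ) 2) : Memℓp (fun x : X => ξ (g⁻¹ • x)) 2 :=
  memℓp_gen ((MulAction.toPerm g⁻¹).summable_iff.mpr ((lp.memℓp ξ).summable (by norm_num)))

/-- the permutation representation -/
noncomputable def permRep (g : Γ) : lp (fun _ : X => ℝ) 2 ≃ₗᵢ[ℝ] lp (fun _ : X => ℝ) 2 where
  toFun ξ := ⟨fun x : X => ξ (g⁻¹ • x), mem_perm g ξ⟩
  invFun ξ := ⟨fun x : X => ξ (g⁻¹⁻¹ • x), mem_perm g⁻¹ ξ⟩
  map_add' _ _ := rfl
  map_smul' _ _ := rfl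
  left_inv ξ := by
    ext x
    change ξ (g⁻¹ • g⁻¹⁻¹ • x) = ξ x
    simp
  right_inv ξ := by
    ext x
    change ξ (g⁻¹⁻¹ • g⁻¹ • x) = ξ x
    simp
  norm_map' ξ := by
    rw [lp.norm_eq_tsum_rpow (by norm_num), lp.norm_eq_tsum_rpow (by norm_num)]
    congr 1
    exact (MulAction.toPerm g⁻¹).tsum_eq (fun x : X => ‖ξ x‖ ^ (2 : ENNReal).toReal)

theorem haagerup_of_pw (M : Set X) (h1 : ∀ g : Γ, (symmDiff (g • M) M).Finite)
    (h2 : ∀ R : ℕ, {g : Γ | (symmDiff (g • M) M).ncard ≤ R}.Finite) :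
    ∃ α : Γ →* (lp (fun _ : X => ℝ) 2 ≃ᵃⁱ[ℝ] lp (fun _ : X => ℝ) 2),
      ∀ R : ℝ, {g : Γ | ‖α g 0‖ ≤ R}.Finite := by
  classical
  let c : Γ → X → ℝ := fun g x => (if g⁻¹ • x ∈ M then 1 else 0) - (if x ∈ M then 1 else 0)
  have hc : ∀ g x, x ∈ symmDiff (g • M) M ↔ c g x ≠ 0 := by
    intro g x
    rw [Set.mem_symmDiff, Set.mem_smul_set_iff_inv_smul_mem]
    by_cases a : g⁻¹ • x ∈ M <;> by_cases b : x ∈ M <;> simp [c, a, b]
  have hc1 : ∀ g x, c g x ≠ 0 → ‖c g x‖ = 1 := by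
    intro g x
    by_cases a : g⁻¹ • x ∈ M <;> by_cases b : x ∈ M <;> simp [c, a, b]
  have hm : ∀ g, Memℓp (c g) 2 := fun g =>
    (memℓp_zero ((h1 g).subset fun x hx => (hc g x).2 hx)).of_exponent_ge (by simp)
  let b : Γ → lp (fun _ : X => ℝ) 2 := fun g => ⟨c g, hm g⟩
  let a : Γ → (lp (fun _ : X => ℝ) 2 ≃ᵃⁱ[ℝ] lp (fun _ : X => ℝ) 2) := fun g =>
    (permRep g).toAffineIsometryEquiv.trans (AffineIsometryEquiv.constVAdd ℝ _ (b g))
  have ha : ∀ g ξ x, a g ξ x = c g x + ξ (g⁻¹ • x) := fun g ξ x => rfl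
  refine ⟨MonoidHom.mk' a fun g h => ?_, fun R => (h2 ⌈R ^ 2⌉₊).subset fun g hg => ?_⟩
  · ext ξ x
    rw [AffineIsometryEquiv.coe_mul, Function.comp_apply, ha, ha, ha]
    simp only [c, mul_inv_rev, mul_smul]
    ring
  · have a1 := lp.sum_rpow_le_norm_rpow (p := 2) (by norm_num) (a g 0) (h1 g).toFinset
    simp only [ENNReal.toReal_ofNat, Real.rpow_ofNat] at a1
    rw [Finset.sum_congr rfl (g := fun _ => (1 : ℝ)) (fun x hx => by
      rw [ha]
      simp [hc1 g x ((hc g x).1 ((h1 g).mem_toFinset.1 hx))])] at a1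
    have a2 : ‖a g 0‖ ≤ R := hg
    have a3 := a1.trans ((pow_le_pow_left₀ (norm_nonneg _) a2 2).trans (Nat.le_ceil _))
    rw [Finset.sum_const, nsmul_eq_mul, mul_one] at a3
    rw [Set.mem_ofPred_eq, Set.ncard_eq_toFinset_card _ (h1 g)]
    exact_mod_cast a3

end

theorem fixed_of_near {H : Type*} [NormedAddCommGroup H] [InnerProductSpace ℂ H] [CompleteSpace H]
    (T : H ≃ₗᵢ[ℂ] H) (v : H) (hv : ‖v‖ = 1) (h : ∀ k : ℕ, ‖(T ^ k) v - v‖ ≤ 1 / 2) :
    ∃ w : H, w ≠ 0 ∧ T w = w := by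
  let f : H →L[ℂ] H := T.toLinearIsometry.toContinuousLinearMap
  have lim := f.tendsto_birkhoffAverage_orthogonalProjection T.toLinearIsometry.norm_toContinuousLinearMap_le v
  set w := (f.eqLocus (1 : H →L[ℂ] H)).orthogonalProjectionOnto v
  refine ⟨w, fun h0 => ?_, w.2⟩
  have it : ∀ k : ℕ, f^[k] v = (T ^ k) v := by
    intro k
    induction k with
    | zero => rfl
    | succ k ih => rw [Function.iterate_succ_apply', ih, pow_succ']; rfl
  have near : ∀ᶠ N in atTop, ‖birkhoffAverage ℂ f id N v - v‖ ≤ 1 / 2 := by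
    filter_upwards [eventually_gt_atTop 0] with N hN
    have e : birkhoffAverage ℂ f id N v - v =
        (N : ℂ)⁻¹ • ∑ k ∈ Finset.range N, ((T ^ k) v - v) := by
      have : (N : ℂ) ≠ 0 := by exact_mod_cast hN.ne'
      simp only [birkhoffAverage, birkhoffSum, id, it, Finset.sum_sub_distrib, smul_sub,
        Finset.sum_const, Finset.card_range]
      rw [← Nat.cast_smul_eq_nsmul ℂ, smul_smul, inv_mul_cancel₀ this, one_smul]
    have p : (0 : ℝ) < N := by exact_mod_cast hN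
    rw [e, norm_smul, norm_inv, Complex.norm_natCast, inv_mul_le_iff₀ p]
    refine (norm_sum_le _ _).trans ((Finset.sum_le_sum fun k _ => h k).trans ?_)
    simp
  have := le_of_tendsto ((lim.sub_const v).norm) near
  rw [h0, zero_sub, norm_neg, hv] at this
  norm_num at this

open FreeGroup Base in
theorem rel_T {B : Base} {E : Type} [Group E] (i : Multiplicative ℤ →* E)
    (hcen : i.range ≤ Subgroup.center E) (γ : FreeGroup B.S →* E)
    (hγ : ∀ z t t' w, Wk B.XT (z, t) w (z, t') → γ (mk w) = i (Multiplicative.ofAdd (t' - t)))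
    (K : ℕ) (hB : ∀ n : ℕ, ∃ (N : ℕ) (hd : Fin (N + 1) × Fin 33 → Fin (N + 1))
      (ιV : Fin (N + 1) → B.V) (ιE : Fin (N + 1) × Fin 33 → B.Ed), Expd K hd ∧
      ∀ ε, B.tl (ιE ε) = ιV ε.1 ∧ B.hd (ιE ε) = ιV (hd ε) ∧
        B.J (ιE ε) = if ε.2 = 0 then (n : ℤ) else 0) :
    ∃ (Q : Finset E) (ε : ℝ), 0 < ε ∧ ∀ (H : Type*) [NormedAddCommGroup H] [InnerProductSpace ℂ H]
      [CompleteSpace H] (ρ : E →* (H ≃ₗᵢ[ℂ] H)),
      (∃ v : H, ‖v‖ = 1 ∧ ∀ q ∈ Q, ‖ρ q v - v‖ < ε) →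
        ∃ w : H, w ≠ 0 ∧ ∀ n ∈ i.range, ρ n w = w := by
  classical
  have := B.finS
  have : Fintype B.L := Fintype.ofFinite _
  set R : ℝ := 2 * 1 + 3 + 66 * ((4 * K + 13) ^ 2 * (2 * (K + 33))) * ((2 * 1 + 1) ^ 2 + 1) with hR
  have R0 : 0 < R := by positivity
  set c := i (Multiplicative.ofAdd 1) with hc
  refine ⟨insert c (Finset.univ.image fun l : B.L => γ (mk [l])), (2 * (R + 1))⁻¹, by positivity,
    fun H _ _ _ ρ ⟨v, hv, hq⟩ => ?_⟩
  let _ := InnerProductSpace.rclikeToReal ℂ H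
  let f : E → H := fun x => ((2 * (R + 1) : ℝ) : ℂ) • ρ x v
  have hf : ∀ x g, ‖f (x * g) - f x‖ = 2 * (R + 1) * ‖ρ g v - v‖ := by
    intro x g
    simp only [f]
    rw [← smul_sub, norm_smul, ρ.map_mul, LinearIsometryEquiv.coe_mul, Function.comp_apply,
      ← map_sub, LinearIsometryEquiv.norm_map, Complex.norm_real,
      Real.norm_of_nonneg (by positivity)]
  have p : 0 < 2 * (R + 1) := by positivity
  have small : ∀ q ∈ insert c (Finset.univ.image fun l : B.L => γ (mk [l])),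
      2 * (R + 1) * ‖ρ q v - v‖ ≤ 1 := fun q h => by
    rw [← le_div_iff₀' p, one_div]; exact (hq q h).le
  have ev : ∀ n : ℕ, 2 * (R + 1) * ‖ρ (c ^ (2 * n)) v - v‖ ≤ R := by
    intro n
    obtain ⟨x, hx⟩ := uniform_drift i hcen γ hγ K hB f (fun g => ⟨_, fun x => (hf x g).le⟩) 1
      zero_le_one (fun l x => (hf x _).trans_le (small _ (by simp))) n
    rw [hf] at hx
    have e : i (Multiplicative.ofAdd (n : ℤ)) ^ 2 = c ^ (2 * n) := by
      rw [hc, ← i.map_pow, ← i.map_pow, ← ofAdd_nsmul, ← ofAdd_nsmul]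
      congr 2
      simp
    rwa [e] at hx
  obtain ⟨w, w0, hw⟩ := fixed_of_near (ρ c) v hv fun k => by
    rw [← map_pow]
    refine le_of_mul_le_mul_left ?_ p
    obtain ⟨n, rfl | rfl⟩ := Nat.even_or_odd' k
    · have := ev n
      linarith
    · have a1 := ev n
      have a2 := small c (Finset.mem_insert_self _ _)
      have a3 := norm_sub_le_norm_sub_add_norm_sub (f (c ^ (2 * n) * c)) (f (c ^ (2 * n))) (f 1)
      have a4 := hf 1 (c ^ (2 * n + 1))
      have a5 := hf 1 (c ^ (2 * n))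
      rw [one_mul] at a4 a5
      rw [hf, ← pow_succ, a4, a5] at a3
      linarith
  refine ⟨w, w0, ?_⟩
  rintro _ ⟨k, rfl⟩
  have e : i k = c ^ k.toAdd := by
    rw [hc, ← map_zpow, ← ofAdd_zsmul]; simp
  let S : Subgroup E :=
    { carrier := {g | ρ g w = w}
      one_mem' := by simp
      mul_mem' := fun {a b} ha hb => by
        simp only [Set.mem_ofPred_eq] at ha hb ⊢
        rw [ρ.map_mul, LinearIsometryEquiv.coe_mul, Function.comp_apply, hb, ha]
      inv_mem' := fun {a} ha => by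
        simp only [Set.mem_ofPred_eq] at ha ⊢
        apply (ρ a).injective
        rw [ha, ← Function.comp_apply (f := ρ a), ← LinearIsometryEquiv.coe_mul, ← ρ.map_mul]
        simp }
  rw [e]
  exact S.zpow_mem (show c ∈ S from hw) _

end Pool.Agent.Lib.MP_f40e16_al.Cube
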