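import Mathlib

set_option autoImplicit false

namespace Pool.Agent.Lib.MP_f40e16_al

open Finset

/-- counting version of the local lemma with levels, for infinitely many variables -/
theorem rosenfeld {E Ev : Type} [DecidableEq E] (A : ℕ) [NeZero A] (lev : E → ℕ) (ok : Ev → Prop)
    (supp : Ev → Finset E) (sz : Ev → ℕ) (bad : Ev → (E → Fin (4 * A)) → Prop)
    (dep : ∀ b, ok b → ∀ r r', (∀ e ∈ supp b, r e = r' e) → bad b r → bad b r')
    (ne : ∀ b, ok b → (supp b).Nonempty)
    (det : ∀ b, ok b → ∀ e ∈ supp b, (∀ f ∈ supp b, lev f ≤ lev e) → ∃ D ⊆ supp b, e ∈ D ∧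
      (∀ f ∈ D, lev f = lev e) ∧ sz b + 1 ≤ #D ∧ ∀ r r', bad b r → bad b r' →
        (∀ f ∈ supp b, f ∉ D → r f = r' f) → ∀ f ∈ D, r f = r' f)
    (cnt : ∀ e, ∃ T : ℕ → Finset Ev, (∀ k, #(T k) ≤ A ^ (k + 1)) ∧ ∀ b, ok b → e ∈ supp b →
      (∀ f ∈ supp b, lev f ≤ lev e) → b ∈ T (sz b) ∧ sz b ≤ lev e) :
    ∃ r, ∀ b, ok b → ¬ bad b r := by
  classical
  have hA : 0 < A := NeZero.pos A
  let C : Finset E → Set (E → Fin (4 * A)) := fun F =>
    {r | (∀ e ∉ F, r e = 0) ∧ ∀ b, ok b → supp b ⊆ F → ¬ bad b r}
  have fin0 : ∀ F : Finset E, {r : E → Fin (4 * A) | ∀ e ∉ F, r e = 0}.Finite := by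
    intro F
    refine Set.Finite.of_injOn (f := fun r (e : F) => r e) (t := Set.univ) (fun _ _ => trivial)
      (fun r h r' h' e => funext fun x => ?_) Set.finite_univ
    by_cases hx : x ∈ F
    · exact congrFun e ⟨x, hx⟩
    · rw [h x hx, h' x hx]
  have finC : ∀ F, (C F).Finite := fun F => (fin0 F).subset fun r h => h.1
  have main : ∀ n, ∀ (F : Finset E) e, #F = n → e ∉ F → (∀ f ∈ F, lev f ≤ lev e) →
      2 * A * (C F).ncard ≤ (C (insert e F)).ncard := by
    intro n
    induction n using Nat.strong_induction_on with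
    | _ n ih =>
    intro F e hn he hl
    have inner : ∀ D : Finset E, D ⊆ F → (∀ d ∈ D, lev d = lev e) →
        (2 * A) ^ #D * (C (F \ D)).ncard ≤ (C F).ncard := by
      intro D
      induction D using Finset.induction_on with
      | empty => simp
      | insert d D hd ihD =>
        intro h1 h2
        have a1 := ihD ((subset_insert _ _).trans h1) fun x hx => h2 x (mem_insert_of_mem hx)
        have a2 : insert d (F \ insert d D) = F \ D := by
          ext x
          simp only [mem_insert, mem_sdiff, not_or]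
          constructor
          · rintro (rfl | ⟨h3, -, h4⟩)
            · exact ⟨h1 (mem_insert_self _ _), hd⟩
            · exact ⟨h3, h4⟩
          · rintro ⟨h3, h4⟩
            by_cases hx : x = d
            · exact Or.inl hx
            · exact Or.inr ⟨h3, hx, h4⟩
        have a3 := ih #(F \ insert d D) (by
          rw [← hn]
          exact card_lt_card ⟨sdiff_subset, fun h => by
            have := h (h1 (mem_insert_self d D)); simp at this⟩) _ d rfl (by simp)
          (fun f hf => by rw [h2 d (mem_insert_self _ _)]; exact hl f (mem_sdiff.1 hf).1)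
        rw [a2] at a3
        rw [card_insert_of_notMem hd, pow_succ, mul_assoc]
        exact (Nat.mul_le_mul_left _ a3).trans a1
    obtain ⟨T, hT1, hT2⟩ := cnt e
    let Bad : Ev → Set (E → Fin (4 * A)) := fun b =>
      {r | ok b ∧ e ∈ supp b ∧ supp b ⊆ insert e F ∧ (∀ f ∉ insert e F, r f = 0) ∧
        Function.update r e 0 ∈ C F ∧ bad b r}
    have finB : ∀ b, (Bad b).Finite := fun b => (fin0 (insert e F)).subset fun r h => h.2.2.2.1
    have lv : ∀ b, supp b ⊆ insert e F → ∀ f ∈ supp b, lev f ≤ lev e := by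
      intro b h f hf
      rcases mem_insert.1 (h hf) with rfl | h
      · rfl
      · exact hl f h
    have hBad : ∀ b, (2 * A) ^ sz b * (Bad b).ncard ≤ (C F).ncard := by
      intro b
      rcases (Bad b).eq_empty_or_nonempty with h | ⟨r₀, h1, h2, h3, -⟩
      · simp [h]
      obtain ⟨D, d1, d2, d3, d4, d5⟩ := det b h1 e h2 (lv b h3)
      have a1 := inner (D.erase e) (fun x hx => by
        rw [mem_erase] at hx
        exact (mem_insert.1 (h3 (d1 hx.2))).resolve_left hx.1) fun d hd => d3 d (mem_of_mem_erase hd)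
      have a2 : (Bad b).ncard ≤ (C (F \ D.erase e)).ncard := by
        refine Set.ncard_le_ncard_of_injOn (fun r x => if x ∈ F \ D.erase e then r x else 0) ?_ ?_
          (finC _)
        · rintro r ⟨-, -, -, -, b1, -⟩
          refine ⟨fun x hx => if_neg hx, fun b' hb' hs hb => b1.2 b' hb' (hs.trans sdiff_subset)
            (dep b' hb' _ _ (fun x hx => ?_) hb)⟩
          rw [if_pos (hs hx), Function.update_of_ne]
          rintro rfl
          exact he (sdiff_subset (hs hx))
        · rintro r ⟨-, -, -, b1, -, b2⟩ r' ⟨-, -, -, c1, -, c2⟩ h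
          have k1 : ∀ x, x ∉ D → r x = r' x := by
            intro x hx
            by_cases hxF : x ∈ F
            · have := congrFun h x
              simpa [hxF, hx] using this
            · have : x ∉ insert e F := by
                rw [mem_insert, not_or]
                exact ⟨by rintro rfl; exact hx d2, hxF⟩
              rw [b1 x this, c1 x this]
          funext x
          by_cases hx : x ∈ D
          · exact d5 r r' b2 c2 (fun f _ hf => k1 f hf) x hx
          · exact k1 x hx
      rw [card_erase_of_mem d2] at a1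
      exact (Nat.mul_le_mul (Nat.pow_le_pow_right (by omega) (by omega)) a2).trans a1
    let TT := (range (lev e + 1)).biUnion fun k => (T k).filter fun b => sz b = k
    have cover : (C F ×ˢ (Set.univ : Set (Fin (4 * A)))).ncard ≤
        (C (insert e F) ∪ ⋃ b ∈ TT, Bad b).ncard := by
      refine Set.ncard_le_ncard_of_injOn (fun p => Function.update p.1 e p.2) ?_ ?_
        ((finC _).union (TT.finite_toSet.biUnion fun b _ => finB b))
      · rintro ⟨r, a⟩ ⟨⟨h1, h2⟩, -⟩
        simp only at h1 h2 ⊢
        have z1 : ∀ f ∉ insert e F, Function.update r e a f = 0 := by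
          intro f hf
          rw [mem_insert, not_or] at hf
          rw [Function.update_of_ne hf.1, h1 f hf.2]
        by_cases hc : ∀ b, ok b → supp b ⊆ insert e F → ¬ bad b (Function.update r e a)
        · exact Or.inl ⟨z1, hc⟩
        · right
          push Not at hc
          obtain ⟨b, b1, b2, b3⟩ := hc
          have b4 : e ∈ supp b := by
            by_contra hn
            refine h2 b b1 (fun x hx => (mem_insert.1 (b2 hx)).resolve_left ?_)
              (dep b b1 _ _ (fun x hx => Function.update_of_ne ?_ _ _) b3)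
            · rintro rfl; exact hn hx
            · rintro rfl; exact hn hx
          obtain ⟨b5, b6⟩ := hT2 b b1 b4 (lv b b2)
          refine Set.mem_biUnion (x := b) ?_ ⟨b1, b4, b2, z1, ?_, b3⟩
          · exact mem_coe.2 (mem_biUnion.2 ⟨sz b, mem_range.2 (by omega), mem_filter.2 ⟨b5, rfl⟩⟩)
          · rw [Function.update_idem, ← h1 e he, Function.update_eq_self]
            exact ⟨h1, h2⟩
      · rintro ⟨r, a⟩ ⟨⟨h1, -⟩, -⟩ ⟨r', a'⟩ ⟨⟨h1', -⟩, -⟩ h
        simp only at h1 h1' h
        refine Prod.ext (funext fun x => ?_) (by simpa using congrFun h e)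
        by_cases hx : x = e
        · subst hx; exact (h1 x he).trans (h1' x he).symm
        · simpa [Function.update_of_ne hx] using congrFun h x
    rw [Set.ncard_prod, Set.ncard_univ, Nat.card_fin] at cover
    have c2 := (Set.ncard_union_le _ _).trans
      (Nat.add_le_add_left (TT.set_ncard_biUnion_le Bad) (C (insert e F)).ncard)
    have c3 : ∑ b ∈ TT, (Bad b).ncard ≤ 2 * A * (C F).ncard := by
      have s1 : ∑ b ∈ TT, (Bad b).ncard =
          ∑ k ∈ range (lev e + 1), ∑ b ∈ (T k).filter (fun b => sz b = k), (Bad b).ncard := by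
        refine sum_biUnion fun k _ k' _ hk => ?_
        rw [Function.onFun, disjoint_left]
        intro b h1 h2
        exact hk ((mem_filter.1 h1).2.symm.trans (mem_filter.1 h2).2)
      have s2 : ∀ k, ((∑ b ∈ (T k).filter (fun b => sz b = k), (Bad b).ncard : ℕ) : ℝ) ≤
          A * (C F).ncard * (1 / 2) ^ k := by
        intro k
        have t1 : (2 * A) ^ k * ∑ b ∈ (T k).filter (fun b => sz b = k), (Bad b).ncard ≤
            A ^ (k + 1) * (C F).ncard := by
          rw [mul_sum]
          refine (sum_le_card_nsmul _ _ (C F).ncard fun b hb => ?_).trans ?_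
          · rw [← (mem_filter.1 hb).2]; exact hBad b
          · exact Nat.mul_le_mul_right _ ((card_filter_le _ _).trans (hT1 k))
        have t2 : ((2 * A : ℝ)) ^ k * ((∑ b ∈ (T k).filter (fun b => sz b = k),
            (Bad b).ncard : ℕ) : ℝ) ≤ (A : ℝ) ^ (k + 1) * (C F).ncard := by exact_mod_cast t1
        have hA' : (0 : ℝ) < A := by exact_mod_cast hA
        refine le_of_mul_le_mul_left (t2.trans (le_of_eq ?_)) (by positivity)
        rw [mul_pow, one_div, inv_pow, pow_succ]
        field_simp
      have s3 : ((∑ b ∈ TT, (Bad b).ncard : ℕ) : ℝ) ≤ 2 * A * (C F).ncard := by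
        rw [s1, Nat.cast_sum]
        refine (sum_le_sum fun k _ => s2 k).trans ?_
        rw [← mul_sum]
        have := mul_le_mul_of_nonneg_left (sum_geometric_two_le (lev e + 1))
          (by positivity : (0 : ℝ) ≤ A * (C F).ncard)
        linarith
      exact_mod_cast s3
    nlinarith
  have pos : ∀ F : Finset E, 0 < (C F).ncard := by
    intro F
    induction F using Finset.induction_on_max_value lev with
    | empty =>
      rw [Set.ncard_pos (finC _)]
      exact ⟨0, fun _ _ => rfl, fun b hb hs => absurd (subset_empty.1 hs) (ne b hb).ne_empty⟩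
    | insert e F he hl ih =>
      exact lt_of_lt_of_le (by positivity) (main _ F e rfl he hl)
  choose g hg using fun F => Set.nonempty_of_ncard_ne_zero (pos F).ne'
  obtain ⟨χ, hχ⟩ := Finset.rado_selection (β := fun _ => Fin (4 * A)) g
  refine ⟨χ, fun b hb h => ?_⟩
  obtain ⟨t, h1, h2⟩ := hχ (supp b)
  exact (hg t).2 b hb h1 (dep b hb _ _ h2 h)

theorem half_det {E α : Type} [DecidableEq E] (s : Finset E) (bad : (E → α) → Prop)
    (hp : ∀ u ∈ s, ∃ u' ∈ s, u' ≠ u ∧ ∀ r, bad r → r u = r u') (e : E) (he : e ∈ s) :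
    ∃ D ⊆ s, e ∈ D ∧ #s ≤ 2 * #D ∧ ∀ r r', bad r → bad r' →
      (∀ f ∈ s, f ∉ D → r f = r' f) → ∀ f ∈ D, r f = r' f := by
  classical
  let R : Setoid E := ⟨fun u u' => ∀ r, bad r → r u = r u', fun _ _ _ => rfl,
    fun h r hr => (h r hr).symm, fun h h' r hr => (h r hr).trans (h' r hr)⟩
  have : ∀ c : Quotient R, ∃ ρ, (∃ u ∈ s, Quotient.mk R u = c) →
      ρ ∈ s ∧ ρ ≠ e ∧ Quotient.mk R ρ = c := by
    intro c
    by_cases h : ∃ u ∈ s, Quotient.mk R u = c
    · obtain ⟨u, hu, rfl⟩ := h
      by_cases hue : u = e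
      · obtain ⟨u', h1, h2, h3⟩ := hp u hu
        exact ⟨u', fun _ => ⟨h1, hue ▸ h2, (Quotient.sound h3).symm⟩⟩
      · exact ⟨u, fun _ => ⟨hu, hue, rfl⟩⟩
    · exact ⟨e, fun h' => absurd h' h⟩
  choose ρ hρ using this
  have hρ' := fun u hu => hρ (Quotient.mk R u) ⟨u, hu, rfl⟩
  choose! pt hpt using hp
  refine ⟨s.filter fun u => ρ (Quotient.mk R u) ≠ u, filter_subset _ _,
    mem_filter.2 ⟨he, (hρ' e he).2.1⟩, ?_, ?_⟩
  · have a1 := card_filter_add_card_filter_not (s := s) fun u => ρ (Quotient.mk R u) ≠ u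
    have a2 : #(s.filter fun u => ¬ ρ (Quotient.mk R u) ≠ u) ≤
        #(s.filter fun u => ρ (Quotient.mk R u) ≠ u) := by
      refine card_le_card_of_injOn pt ?_ ?_
      · intro u hu
        simp only [coe_filter, not_not, Set.mem_ofPred_eq] at hu ⊢
        obtain ⟨h1, h2, h3⟩ := hpt u hu.1
        refine ⟨h1, ?_⟩
        rw [← Quotient.sound (s := R) h3, hu.2]
        exact h2.symm
      · intro u hu u' hu' h
        simp only [coe_filter, not_not, Set.mem_ofPred_eq] at hu hu'
        rw [← hu.2, ← hu'.2, Quotient.sound (s := R) (hpt u hu.1).2.2,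
          Quotient.sound (s := R) (hpt u' hu'.1).2.2, h]
    omega
  · intro r r' h1 h2 h3 f hf
    obtain ⟨a1, -, a3⟩ := hρ' f (mem_filter.1 hf).1
    have a4 : R (ρ (Quotient.mk R f)) f := Quotient.exact a3
    rw [← a4 r h1, ← a4 r' h2]
    exact h3 _ a1 (by simp [a3])

end Pool.Agent.Lib.MP_f40e16_al
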