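import Pool.Agent.Lib.MP_f40e16_al.Base2

set_option autoImplicit false

namespace Pool.Agent.Lib.MP_f40e16_al

open FreeGroup Base

/-- names of vertices -/
inductive U (B : Base) : Type
  | o : U B
  | new (v : U B) (x : B.V) (y : B.W) (k : ℕ) : U B

variable {B : Base}

def U.ht : U B → ℕ
  | .o => 0
  | .new _ _ _ k => k

def U.dep : U B → ℕ
  | .o => 0
  | .new v _ _ _ => v.dep + 1

theorem U.ne_new (v : U B) (x : B.V) (y : B.W) (k : ℕ) : v ≠ U.new v x y k := by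
  intro h
  have := congrArg U.dep h
  simp [U.dep] at this

abbrev Nm (B : Base) := (U B × B.V) × B.Ed

/-- a placed cell -/
structure Cell (B : Base) where
  v : U B
  x : B.V
  φ : B.W → U B
  ψ : B.W → ℤ
  ν : B.Ed → Nm B

namespace Cell
def id (Q : Cell B) : U B × B.V := (Q.v, Q.x)
def lvl (Q : Cell B) : ℕ := Q.v.ht
def el (Q : Cell B) : ℕ := B.ell Q.x
def New (Q : Cell B) (z : B.W) : Prop := ∃ k, Q.φ z = U.new Q.v Q.x z k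
def In (Q : Cell B) (z : B.W) : Prop := B.Cp Q.x z
def TD (Q : Cell B) (z : B.W) (l : B.L) (z' : B.W) : Prop := B.XD z l z' ∧ ¬ Q.New z ∧ ¬ Q.New z'
def h (Q : Cell B) (z : B.W) : ℕ := (Q.φ z).ht

theorem el_pos (Q : Cell B) : 1 ≤ Q.el := B.ell_pos _
theorem In.ell_eq {Q : Cell B} {z : B.W} (h : Q.In z) : B.ell z.1 = Q.el := Cp.ell_eq h
theorem In.step {Q : Cell B} {z z' : B.W} {l : B.L} (h : Q.In z) (h' : B.XD z l z') : Q.In z' :=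
  Cp.step h h'
theorem In.walk {Q : Cell B} {z z' : B.W} {w : List B.L} (h : Q.In z) (h' : Wk B.XD z w z') :
    Q.In z' := Cp.walk h h'
theorem in_root (Q : Cell B) : Q.In (Q.x, 0) := Cp.root _
end Cell

/-- order of attachment -/
def Old (p q : U B × B.V) : Prop :=
  Prod.Lex (· < ·) WellOrderingRel (p.1.ht, p) (q.1.ht, q)

theorem old_wf : WellFounded (Old (B := B)) :=
  InvImage.wf (fun p : U B × B.V => (p.1.ht, p))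
    (WellFounded.prod_lex wellFounded_lt (IsWellFounded.wf (r := WellOrderingRel)))

theorem old_iff {p q : U B × B.V} :
    Old p q ↔ p.1.ht < q.1.ht ∨ (p.1.ht = q.1.ht ∧ WellOrderingRel p q) := Prod.lex_def

theorem Old.le {p q : U B × B.V} (h : Old p q) : p.1.ht ≤ q.1.ht := by
  rcases old_iff.1 h with h | h
  · exact h.le
  · exact h.1.le

theorem old_of_lt {p q : U B × B.V} (h : p.1.ht < q.1.ht) : Old p q := old_iff.2 (Or.inl h)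

theorem Old.trans {p q r : U B × B.V} (h : Old p q) (h' : Old q r) : Old p r := by
  rw [old_iff] at *
  rcases h with h | h <;> rcases h' with h' | h'
  · left; omega
  · left; omega
  · left; omega
  · exact Or.inr ⟨h.1.trans h'.1, _root_.trans h.2 h'.2⟩

theorem old_irrefl (p : U B × B.V) : ¬ Old p p := old_wf.irrefl.irrefl p

theorem old_tri (p q : U B × B.V) : Old p q ∨ p = q ∨ Old q p := by
  simp only [old_iff]
  rcases lt_trichotomy p.1.ht q.1.ht with h | h | h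
  · exact Or.inl (Or.inl h)
  · rcases trichotomous_of WellOrderingRel p q with h' | h' | h'
    · exact Or.inl (Or.inr ⟨h, h'⟩)
    · exact Or.inr (Or.inl h')
    · exact Or.inr (Or.inr (Or.inr ⟨h.symm, h'⟩))
  · exact Or.inr (Or.inr (Or.inl h))

/-- signed weight -/
def sg {S : Type} (l : S × Bool) (j : ℤ) : ℤ := if l.2 then j else -j

theorem sg_iv {S : Type} (l : S × Bool) (j : ℤ) : sg (iv l) j = - sg l j := by
  rcases l with ⟨s, b⟩; cases b <;> simp [sg, iv]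

def Dart (σ : Set (Cell B)) (u : U B) (l : B.L) (u' : U B) : Prop :=
  ∃ Q ∈ σ, ∃ z z', Q.In z ∧ B.XD z l z' ∧ Q.φ z = u ∧ Q.φ z' = u'

def Ex (σ : Set (Cell B)) (u : U B) : Prop := u = U.o ∨ ∃ Q ∈ σ, ∃ z, Q.In z ∧ Q.φ z = u

def Sat (σ : Set (Cell B)) (u : U B) (x : B.V) : Prop :=
  ∃ Q ∈ σ, ∃ z, Q.In z ∧ Q.φ z = u ∧ z.1 = x

def Deep (σ : Set (Cell B)) (u : U B) : Prop :=
  ∃ Z ∈ σ, ∃ z, Z.In z ∧ Z.New z ∧ Z.φ z = u ∧ Z.lvl + 5 * Z.el ≤ u.ht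

structure Good (σ : Set (Cell B)) : Prop where
  root : ∀ Q ∈ σ, Q.φ (Q.x, 0) = Q.v
  inj : ∀ Q ∈ σ, ∀ z z', Q.In z → Q.In z' → Q.φ z = Q.φ z' → z = z'
  own : ∀ Q ∈ σ, ∀ z, Q.In z → Q.New z ∨ Q.φ z = U.o ∨
    ∃ Q' ∈ σ, ∃ z', Q'.In z' ∧ Q'.New z' ∧ Q'.φ z' = Q.φ z ∧ Old Q'.id Q.id
  fold : ∀ Q ∈ σ, ∀ Q' ∈ σ, ∀ z z' l z₁ z₁', Q.In z → Q'.In z' → B.XD z l z₁ → B.XD z' l z₁' →
    Q.φ z = Q'.φ z' → Q.φ z₁ = Q'.φ z₁'
  uniq : ∀ Q ∈ σ, ∀ Q' ∈ σ, ∀ z z', Q.In z → Q'.In z' → Q.φ z = Q'.φ z' → z.1 = z'.1 → Q = Q'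
  step : ∀ Q ∈ σ, ∀ z l z', Q.In z → B.XD z l z' → Q.h z' = Q.h z + 1 ∨ Q.h z = Q.h z' + 1
  down : ∀ Q ∈ σ, ∀ z, Q.In z → Q.New z → ∃ l z', B.XD z l z' ∧ Q.h z' < Q.h z
  downo : ∀ Q ∈ σ, ∀ Q' ∈ σ, ∀ z z₁ l z₁', Q.In z → Q.New z → Q'.In z₁ → B.XD z₁ l z₁' →
    Q'.φ z₁ = Q.φ z → Q'.h z₁' < Q'.h z₁ → ∃ z', B.XD z l z'
  tree : ∀ Q ∈ σ, ∀ z, Q.In z → ¬ Q.New z →
    ∃ τ, Rd τ ∧ Wk Q.TD (Q.x, 0) τ z ∧ τ.length < 3 * Q.el
  old : ∀ Q ∈ σ, ∀ z l z', Q.In z → Q.TD z l z' →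
    ∃ Q' ∈ σ, Old Q'.id Q.id ∧ ∃ z₁ z₁', Q'.In z₁ ∧ B.XD z₁ l z₁' ∧ Q'.φ z₁ = Q.φ z
  lvl_le : ∀ Q ∈ σ, ∀ z, Q.In z → Q.lvl ≤ Q.h z
  g10 : ∀ Q ∈ σ, ∀ z, Q.In z → ¬ Q.New z →
    z = (Q.x, 0) ∨ (∃ l z', B.XD z l z' ∧ Q.h z' < Q.h z) ∨ Deep σ (Q.φ z)
  pred : ∀ Q ∈ σ, ∀ Z ∈ σ, ∀ z z', Q.In z → ¬ Q.New z → Z.In z' → Z.New z' → Z.φ z' = Q.φ z →
    Z.lvl + 5 * Z.el ≤ Z.h z' → ∃ z₀, Z.In z₀ ∧ Z.New z₀ ∧ Z.φ z₀ = Q.v ∧
      ∃ w, Rd w ∧ Wk B.XD (Q.x, 0) w z ∧ Wk B.XD z₀ w z'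
  compl : ∀ Q ∈ σ, ∀ u x, Ex σ u → Old (u, x) Q.id → Sat σ u x
  psi : ∀ Q ∈ σ, ∀ Q' ∈ σ, ∀ z z' l e e' z₁ z₁', Q.In z → Q'.In z' → B.XX z l e z₁ →
    B.XX z' l e' z₁' → Q.φ z = Q'.φ z' →
    sg l (B.J e) + Q.ψ z₁ - Q.ψ z = sg l (B.J e') + Q'.ψ z₁' - Q'.ψ z'
  nu : ∀ Q ∈ σ, ∀ Q' ∈ σ, ∀ z z' l e e' z₁ z₁', Q.In z → Q'.In z' → B.XX z l e z₁ →
    B.XX z' l e' z₁' → Q.φ z = Q'.φ z' → Q.ν e = Q'.ν e'
  nuo : ∀ Q ∈ σ, ∀ e, (∃ z l z', Q.In z ∧ B.XX z l e z' ∧ ¬ Q.New z ∧ ¬ Q.New z') ∨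
    Q.ν e = (Q.id, e)

variable {σ : Set (Cell B)}

theorem Ex.mono {σ' : Set (Cell B)} (h : σ ⊆ σ') {u : U B} (hu : Ex σ u) : Ex σ' u := by
  rcases hu with rfl | ⟨Q, hQ, z, h1, h2⟩
  · exact Or.inl rfl
  · exact Or.inr ⟨Q, h hQ, z, h1, h2⟩

theorem Sat.mono {σ' : Set (Cell B)} (h : σ ⊆ σ') {u : U B} {x : B.V} (hu : Sat σ u x) :
    Sat σ' u x := by
  obtain ⟨Q, hQ, z, h1⟩ := hu
  exact ⟨Q, h hQ, z, h1⟩

theorem Deep.mono {σ' : Set (Cell B)} (h : σ ⊆ σ') {u : U B} (hu : Deep σ u) : Deep σ' u := by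
  obtain ⟨Q, hQ, z, h1⟩ := hu
  exact ⟨Q, h hQ, z, h1⟩

theorem Dart.ex_left {u u' : U B} {l : B.L} (h : Dart σ u l u') : Ex σ u := by
  obtain ⟨Q, hQ, z, z', h1, -, h3, -⟩ := h
  exact Or.inr ⟨Q, hQ, z, h1, h3⟩

theorem Dart.ex_right {u u' : U B} {l : B.L} (h : Dart σ u l u') : Ex σ u' := by
  obtain ⟨Q, hQ, z, z', h1, h2, -, h4⟩ := h
  exact Or.inr ⟨Q, hQ, z', h1.step h2, h4⟩

theorem Dart.symm {u u' : U B} {l : B.L} (h : Dart σ u l u') : Dart σ u' (iv l) u := by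
  obtain ⟨Q, hQ, z, z', h1, h2, h3, h4⟩ := h
  exact ⟨Q, hQ, z', z, h1.step h2, fold_XD.symm h2, h4, h3⟩

theorem dart_of {Q : Cell B} (hQ : Q ∈ σ) {z z' : B.W} {l : B.L} (h1 : Q.In z)
    (h2 : B.XD z l z') : Dart σ (Q.φ z) l (Q.φ z') := ⟨Q, hQ, z, z', h1, h2, rfl, rfl⟩

theorem img_walk {Q : Cell B} (hQ : Q ∈ σ) {z z' : B.W} {w : List B.L} (h1 : Q.In z)
    (h2 : Wk B.XD z w z') : Wk (Dart σ) (Q.φ z) w (Q.φ z') := by
  induction h2 with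
  | nil z => exact Wk.nil _
  | cons h3 _ ih => exact Wk.cons (dart_of hQ h1 h3) (ih (h1.step h3))

namespace Good

variable (G : Good σ)
include G

theorem fold_dart : Fold (Dart σ) where
  symm := Dart.symm
  func := by
    rintro a b c l ⟨Q, hQ, z, z', h1, h2, rfl, rfl⟩ ⟨Q', hQ', y, y', h1', h2', h3', rfl⟩
    exact G.fold Q hQ Q' hQ' z y l z' y' h1 h1' h2 h2' h3'.symm

theorem dart_step {u u' : U B} {l : B.L} (h : Dart σ u l u') :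
    u'.ht = u.ht + 1 ∨ u.ht = u'.ht + 1 := by
  obtain ⟨Q, hQ, z, z', h1, h2, rfl, rfl⟩ := h
  exact G.step Q hQ z l z' h1 h2

theorem root_not_new {Q : Cell B} (hQ : Q ∈ σ) : ¬ Q.New (Q.x, 0) := by
  rintro ⟨k, h⟩
  rw [G.root Q hQ] at h
  exact U.ne_new _ _ _ _ h

theorem h_root {Q : Cell B} (hQ : Q ∈ σ) : Q.h (Q.x, 0) = Q.lvl := by
  simp [Cell.h, Cell.lvl, G.root Q hQ]

theorem exists_owner {u : U B} (h : Ex σ u) (hu : u ≠ U.o) :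
    ∃ Q ∈ σ, ∃ z, Q.In z ∧ Q.New z ∧ Q.φ z = u := by
  rcases h with h | ⟨Q, hQ, z, h1, rfl⟩
  · exact absurd h hu
  · rcases G.own Q hQ z h1 with h | h | ⟨Q', hQ', z', h2, h3, h4, -⟩
    · exact ⟨Q, hQ, z, h1, h, rfl⟩
    · exact absurd h hu
    · exact ⟨Q', hQ', z', h2, h3, h4⟩

theorem owner_uniq {Q Q' : Cell B} (hQ : Q ∈ σ) (hQ' : Q' ∈ σ) {z z' : B.W} (h1 : Q.In z)
    (h1' : Q'.In z') (h2 : Q.New z) (h2' : Q'.New z') (h : Q.φ z = Q'.φ z') : Q = Q' ∧ z = z' := by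
  obtain ⟨k, hk⟩ := h2
  obtain ⟨k', hk'⟩ := h2'
  have e := hk.symm.trans (h.trans hk')
  have ez : z = z' := by injection e
  exact ⟨G.uniq Q hQ Q' hQ' z z' h1 h1' h (by rw [ez]), ez⟩

theorem h_walk {Q : Cell B} (hQ : Q ∈ σ) {z z' : B.W} {w : List B.L} (h1 : Q.In z)
    (h2 : Wk B.XD z w z') : Q.h z' ≤ Q.h z + w.length ∧ Q.h z ≤ Q.h z' + w.length := by
  induction h2 with
  | nil z => simp
  | @cons a b c l w h3 _ ih =>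
    have := ih (h1.step h3)
    have := G.step Q hQ a l b h1 h3
    simp only [List.length_cons]; omega

theorem h_of_not_new {Q : Cell B} (hQ : Q ∈ σ) {z : B.W} (h1 : Q.In z) (h2 : ¬ Q.New z) :
    Q.h z < Q.lvl + 3 * Q.el := by
  obtain ⟨τ, -, h3, h4⟩ := G.tree Q hQ z h1 h2
  have := (G.h_walk hQ Q.in_root (h3.mono fun _ _ _ h => h.1)).1
  rw [G.h_root hQ] at this
  omega

theorem new_of_h {Q : Cell B} (hQ : Q ∈ σ) {z : B.W} (h1 : Q.In z)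
    (h2 : Q.lvl + 3 * Q.el ≤ Q.h z) : Q.New z := by
  by_contra h
  have := G.h_of_not_new hQ h1 h
  omega

theorem lvl_lt {Q : Cell B} (hQ : Q ∈ σ) {z : B.W} (h1 : Q.In z) (h2 : Q.New z) :
    Q.lvl < Q.h z := by
  obtain ⟨l, z', h3, h4⟩ := G.down Q hQ z h1 h2
  have := G.lvl_le Q hQ z' (h1.step h3)
  omega

/-- down darts at a new point belong to the cell -/
theorem down_in {Q : Cell B} (hQ : Q ∈ σ) {z : B.W} (h1 : Q.In z) (h2 : Q.New z) {l : B.L}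
    {u' : U B} (h3 : Dart σ (Q.φ z) l u') (h4 : u'.ht < Q.h z) :
    ∃ z', B.XD z l z' ∧ Q.φ z' = u' := by
  have h3' := h3
  obtain ⟨Q', hQ', y, y', a1, a2, a3, rfl⟩ := h3
  obtain ⟨z', hz'⟩ := G.downo Q hQ Q' hQ' z y l y' h1 h2 a1 a2 a3
    (by simpa [Cell.h, a3] using h4)
  exact ⟨z', hz', G.fold_dart.func (dart_of hQ h1 hz') h3'⟩

theorem root_walk {Q : Cell B} (hQ : Q ∈ σ) {z : B.W} (h1 : Q.In z) :
    ∃ A, Rd A ∧ Wk B.XD z A (Q.x, 0) ∧ A.length + Q.lvl < Q.h z + 3 * Q.el ∧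
      ∀ l z₂, A.head? = some l → B.XD z l z₂ → Q.h z₂ < Q.h z ∨ ¬ Q.New z₂ := by
  generalize hn : Q.h z = n
  induction n using Nat.strong_induction_on generalizing z with
  | _ n ih =>
  by_cases h2 : Q.New z
  · obtain ⟨l, z', h3, h4⟩ := G.down Q hQ z h1 h2
    obtain ⟨A, a1, a2, a3, a4⟩ := ih _ (hn ▸ h4) (h1.step h3) rfl
    refine ⟨l :: A, isReduced_cons'.2 ⟨a1, fun l' hl' e => ?_⟩, Wk.cons h3 a2,
      by simp only [List.length_cons]; omega, ?_⟩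
    · subst e
      rcases a4 _ z hl' (fold_XD.symm h3) with h | h
      · omega
      · exact h h2
    · intro l' z₂ hl' h5
      obtain rfl : l = l' := by simpa using hl'
      obtain rfl := fold_XD.func h3 h5
      left; omega
  · obtain ⟨τ, a1, a2, a3⟩ := G.tree Q hQ z h1 h2
    have a4 : Wk Q.TD z (invRev τ) (Q.x, 0) :=
      Wk.rev' (D := Q.TD) (fun _ _ _ h => ⟨fold_XD.symm h.1, h.2.2, h.2.1⟩) a2
    have := G.lvl_le Q hQ z h1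
    refine ⟨invRev τ, isReduced_invRev a1, a4.mono fun _ _ _ h => h.1, by simp; omega, ?_⟩
    intro l z₂ hl h5
    right
    cases hτ : invRev τ with
    | nil => simp [hτ] at hl
    | cons m τ' =>
      rw [hτ] at hl a4
      obtain rfl : m = l := by simpa using hl
      obtain ⟨b, hb, -⟩ := wk_cons.1 a4
      obtain rfl := fold_XD.func hb.1 h5
      exact hb.2.2

theorem peak {Q : Cell B} (hQ : Q ∈ σ) {z z₁ z₂ : B.W} {l₁ l₂ : B.L} (h1 : Q.In z) (h2 : Q.New z)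
    (a1 : B.XD z l₁ z₁) (a2 : B.XD z l₂ z₂) (b1 : Q.h z₁ < Q.h z) (b2 : Q.h z₂ < Q.h z)
    (hne : l₁ ≠ l₂) : Q.lvl + 17 * Q.el ≤ Q.h z := by
  have key : ∀ {l z'}, B.XD z l z' → Q.h z' < Q.h z → ∃ A, Rd (l :: A) ∧
      Wk B.XD z (l :: A) (Q.x, 0) ∧ A.length + 1 + Q.lvl < Q.h z + 3 * Q.el := by
    intro l z' h3 h4
    obtain ⟨A, a1, a2, a3, a4⟩ := G.root_walk hQ (h1.step h3)
    refine ⟨A, isReduced_cons'.2 ⟨a1, fun l' hl' e => ?_⟩, Wk.cons h3 a2, by omega⟩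
    subst e
    rcases a4 _ z hl' (fold_XD.symm h3) with h | h
    · omega
    · exact h h2
  obtain ⟨A₁, c1, c2, c3⟩ := key a1 b1
  obtain ⟨A₂, d1, d2, d3⟩ := key a2 b2
  by_contra hc
  have := mk_eq_of_short c2 d2 (by rw [h1.ell_eq]; simp only [List.length_cons]; omega)
  have := reduced_eq c1 d1 this
  exact hne (List.cons.inj this).1

/-- two distinct darts of a cell over the same edge are far apart -/
theorem far {Q : Cell B} (hQ : Q ∈ σ) {y y' y₁ y₁' : B.W} {l l₁ : B.L} {e : B.Ed} (h1 : Q.In y)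
    (h1' : Q.In y₁) (h : B.XX y l e y') (h₁ : B.XX y₁ l₁ e y₁')
    (hl : Q.h y + Q.h y₁ < 2 * Q.lvl + 33 * Q.el) :
    (y₁ = y ∧ l₁ = l ∧ y₁' = y') ∨ (y₁ = y' ∧ l₁ = iv l ∧ y₁' = y) := by
  obtain ⟨A, -, a2, a3, -⟩ := G.root_walk hQ h1
  obtain ⟨A', -, a2', a3', -⟩ := G.root_walk hQ h1'
  have := Q.el_pos
  refine same_edge h h₁ (a2.append (a2'.rev fold_XD)) ?_
  rw [h1.ell_eq]; simp; omega

/-- two distinct down darts at a vertex force it to be deep -/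
theorem peak_deep {u u₁ u₂ : U B} {l₁ l₂ : B.L} (a1 : Dart σ u l₁ u₁) (a2 : Dart σ u l₂ u₂)
    (b1 : u₁.ht < u.ht) (b2 : u₂.ht < u.ht) (hne : l₁ ≠ l₂) :
    ∃ Z ∈ σ, ∃ z, Z.In z ∧ Z.New z ∧ Z.φ z = u ∧ Z.lvl + 17 * Z.el ≤ u.ht := by
  obtain ⟨Z, hZ, z, h1, h2, rfl⟩ := G.exists_owner a1.ex_left (by rintro rfl; simp [U.ht] at b1)
  obtain ⟨z₁, c1, rfl⟩ := G.down_in hZ h1 h2 a1 b1
  obtain ⟨z₂, c2, rfl⟩ := G.down_in hZ h1 h2 a2 b2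
  exact ⟨Z, hZ, z, h1, h2, rfl, G.peak hZ h1 h2 c1 c2 b1 b2 hne⟩

/-- descents stay in the cell while they are high -/
theorem stay {Q : Cell B} (hQ : Q ∈ σ) {u u' : U B} {δ : List B.L}
    (hw : Wk (fun a l b => Dart σ a l b ∧ b.ht < a.ht) u δ u') {z : B.W} (h1 : Q.In z)
    (h2 : Q.φ z = u) (h3 : Q.lvl + 3 * Q.el + δ.length ≤ u.ht) :
    ∃ z', Wk B.XD z δ z' ∧ Q.φ z' = u' ∧ u.ht = u'.ht + δ.length := by
  induction hw generalizing z with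
  | nil a => exact ⟨z, Wk.nil _, h2, rfl⟩
  | @cons a b c l w h4 _ ih =>
    subst h2
    simp only [List.length_cons] at h3 ⊢
    have hs := G.dart_step h4.1
    have hlt := h4.2
    obtain ⟨z₁, c1, rfl⟩ := G.down_in hQ h1 (G.new_of_h hQ h1 (by simp only [Cell.h]; omega))
      h4.1 h4.2
    obtain ⟨z', c2, c3, c4⟩ := ih (h1.step c1) rfl (by omega)
    exact ⟨z', Wk.cons c1 c2, c3, by omega⟩

end Good

end Pool.Agent.Lib.MP_f40e16_al
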