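import Pool.Agent.Lib.MP_f40e16_al.Zorn

set_option autoImplicit false

namespace Pool.Agent.Lib.MP_f40e16_al

open FreeGroup Base

variable {B : Base} {σ : Set (Cell B)}

/-- a down dart seen from the owner of its top -/
structure DN (σ : Set (Cell B)) (Z : Cell B) (a : B.W) (l : B.L) (e : B.Ed) (a' : B.W) : Prop where
  mem : Z ∈ σ
  inn : Z.In a
  new : Z.New a
  xx : B.XX a l e a'
  lt : Z.h a' < Z.h a

namespace Good

variable (G : Good σ)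
include G

theorem id_inj {Q Q' : Cell B} (hQ : Q ∈ σ) (hQ' : Q' ∈ σ) (h : Q.id = Q'.id) : Q = Q' := by
  have e1 : Q.v = Q'.v := congrArg Prod.fst h
  have e2 : Q.x = Q'.x := congrArg Prod.snd h
  exact G.uniq Q hQ Q' hQ' _ _ Q.in_root Q'.in_root (by rw [G.root Q hQ, G.root Q' hQ', e1]) e2

theorem own_dart {Q : Cell B} (hQ : Q ∈ σ) {y y' : B.W} {l : B.L} {ε : B.Ed} (h1 : Q.In y)
    (h2 : B.XX y l ε y') (h3 : Q.h y' < Q.h y) :
    ∃ Z a e a', DN σ Z a l e a' ∧ Z.φ a = Q.φ y ∧ Z.φ a' = Q.φ y' ∧ Z.ν e = Q.ν ε ∧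
      (¬ Q.New y → Old Z.id Q.id) := by
  have key : ∀ Z ∈ σ, ∀ a, Z.In a → Z.New a → Z.φ a = Q.φ y →
      ∃ e a', DN σ Z a l e a' ∧ Z.φ a = Q.φ y ∧ Z.φ a' = Q.φ y' ∧ Z.ν e = Q.ν ε := by
    intro Z hZ a a1 a2 a3
    obtain ⟨a', ⟨e, b1⟩, b2⟩ := G.down_in hZ a1 a2 (a3 ▸ dart_of hQ h1 ⟨ε, h2⟩)
      (by simpa [Cell.h, a3] using h3)
    exact ⟨e, a', ⟨hZ, a1, a2, b1, by simpa [Cell.h, a3, b2] using h3⟩, a3, b2,
      G.nu Z hZ Q hQ a y l e ε a' y' a1 h1 b1 h2 a3⟩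
  rcases G.own Q hQ y h1 with h | h | ⟨Z, hZ, a, a1, a2, a3, a4⟩
  · obtain ⟨e, a', b1, b2, b3, b4⟩ := key Q hQ y h1 h rfl
    exact ⟨Q, y, e, a', b1, b2, b3, b4, fun h' => absurd h h'⟩
  · simp [Cell.h, h, U.ht] at h3
  · obtain ⟨e, a', b1, b2, b3, b4⟩ := key Z hZ a a1 a2 a3
    exact ⟨Z, a, e, a', b1, b2, b3, b4, fun _ => a4⟩

theorem tdown {Q : Cell B} (hQ : Q ∈ σ) (e : B.Ed) :
    (∃ y l y', Q.In y ∧ B.XX y l e y' ∧ ¬ Q.New y ∧ ¬ Q.New y' ∧ Q.h y' < Q.h y) ∨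
      Q.ν e = (Q.id, e) := by
  rcases G.nuo Q hQ e with ⟨z, l, z', h1, h2, h3, h4⟩ | h
  · left
    rcases G.step Q hQ z l z' h1 ⟨e, h2⟩ with h | h
    · exact ⟨z', iv l, z, h1.step ⟨e, h2⟩, h2.symm, h4, h3, by omega⟩
    · exact ⟨z, l, z', h1, h2, h3, h4, by omega⟩
  · exact Or.inr h

theorem same_dn {Z : Cell B} {a a' c c' : B.W} {l m : B.L} {e : B.Ed} (h : DN σ Z a l e a')
    (h' : DN σ Z c m e c') (hl : Z.h a + Z.h c < 2 * Z.lvl + 33 * Z.el) :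
    c = a ∧ m = l ∧ c' = a' := by
  rcases G.far h.mem h.inn h'.inn h.xx h'.xx hl with h1 | ⟨rfl, -, rfl⟩
  · exact h1
  · have := h.lt
    have := h'.lt
    omega

theorem n2a {Z : Cell B} {a a' : B.W} {l : B.L} {e : B.Ed} (h : DN σ Z a l e a') :
    Z.ν e = (Z.id, e) ∨ (Z.lvl + 30 * Z.el ≤ Z.h a ∧
      ∃ D c m f c', DN σ D c m f c' ∧ D.ν f = Z.ν e ∧ D.h c < Z.lvl + 3 * Z.el) := by
  rcases G.tdown h.mem e with ⟨y, m, y', h1, h2, h3, h4, h5⟩ | h1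
  · right
    have h6 := G.h_of_not_new h.mem h1 h3
    constructor
    · by_contra hc
      rcases G.far h.mem h.inn h1 h.xx h2 (by omega) with ⟨rfl, -⟩ | ⟨-, -, rfl⟩
      · exact h3 h.new
      · exact h4 h.new
    · obtain ⟨D, c, f, c', b1, b2, -, b4, -⟩ := G.own_dart h.mem h1 h2 h5
      exact ⟨D, c, m, f, c', b1, b4, by simpa [Cell.h, b2] using h6⟩
  · exact Or.inl h1

theorem n2b {Z : Cell B} {a a' : B.W} {l : B.L} {e : B.Ed} (h : DN σ Z a l e a') :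
    ∃ D c m f c', DN σ D c m f c' ∧ Z.ν e = (D.id, f) ∧ D.h c ≤ Z.h a := by
  generalize hn : Z.h a = n
  induction n using Nat.strong_induction_on generalizing Z a a' l e with
  | _ n ih =>
  rcases G.n2a h with h1 | ⟨h1, D, c, m, f, c', h2, h3, h4⟩
  · exact ⟨Z, a, l, e, a', h, h1, hn.le⟩
  · obtain ⟨D', c₁, m₁, f₁, c₁', b1, b2, b3⟩ := ih (D.h c) (by omega) h2 rfl
    exact ⟨D', c₁, m₁, f₁, c₁', b1, h3 ▸ b2, by omega⟩

theorem low_first {Z D : Cell B} {a a' c c' : B.W} {l m : B.L} {e f : B.Ed} (h : DN σ Z a l e a')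
    (hl : Z.h a < Z.lvl + 16 * Z.el) (h' : DN σ D c m f c') (e1 : D.ν f = Z.ν e) :
    Z.h a ≤ D.h c := by
  by_contra hc
  rcases G.n2a h with h1 | ⟨h1, -⟩
  · obtain ⟨D', c₁, m₁, f₁, c₁', b1, b2, b3⟩ := G.n2b h'
    rw [e1, h1] at b2
    obtain rfl := G.id_inj h.mem b1.mem (congrArg Prod.fst b2)
    obtain rfl : e = f₁ := congrArg Prod.snd b2
    obtain ⟨rfl, -⟩ := G.same_dn h b1 (by omega)
    omega
  · omega

theorem n4 {Q : Cell B} (hQ : Q ∈ σ) (e : B.Ed) : (Q.ν e).1 = Q.id ∨ Old (Q.ν e).1 Q.id := by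
  generalize hp : Q.id = p
  induction p using old_wf.induction generalizing Q e with
  | _ p ih =>
  subst hp
  rcases G.tdown hQ e with ⟨y, m, y', h1, h2, h3, -, h5⟩ | h1
  · obtain ⟨D, c, f, c', b1, -, -, b4, b5⟩ := G.own_dart hQ h1 h2 h5
    right
    rw [← b4]
    rcases ih _ (b5 h3) b1.mem f rfl with h | h
    · rw [h]; exact b5 h3
    · exact h.trans (b5 h3)
  · left; rw [h1]

/-- the predecessor cell -/
theorem pred' {Q Z : Cell B} (hQ : Q ∈ σ) (hZ : Z ∈ σ) {y a : B.W} (h1 : Q.In y) (h2 : ¬ Q.New y)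
    (h3 : Z.In a) (h4 : Z.New a) (h5 : Z.φ a = Q.φ y) (h6 : Z.lvl + 5 * Z.el ≤ Z.h a) :
    ∃ z₀, Z.In z₀ ∧ Z.New z₀ ∧ Z.φ z₀ = Q.v ∧ Q.x ≠ z₀.1 ∧ Z.h a < Q.lvl + Z.el ∧
      ∃ w, Wk B.XD (Q.x, 0) w y ∧ Wk B.XD z₀ w a ∧ w.length < Z.el := by
  obtain ⟨z₀, a1, a2, a3, w, a4, a5, a6⟩ := G.pred Q hQ Z hZ y a h1 h2 h3 h4 h5 h6
  have hne : Q.x ≠ z₀.1 := by
    intro e
    obtain rfl := G.uniq Q hQ Z hZ _ _ Q.in_root a1 (by rw [G.root Q hQ, a3]) e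
    obtain rfl := G.inj Q hQ _ _ a1 Q.in_root (by rw [G.root Q hQ, a3])
    exact G.root_not_new hQ a2
  have b1 := (piece_lt hne (proj a5) (proj a6) a4).2
  rw [a1.ell_eq] at b1
  have b2 := (G.h_walk hZ a1 a6).1
  have b3 : Z.h z₀ = Q.lvl := by simp [Cell.h, Cell.lvl, a3]
  exact ⟨z₀, a1, a2, a3, hne, by omega, w, a5, a6, b1⟩

theorem nu_inj {C : Cell B} (hC : C ∈ σ) : Function.Injective C.ν := by
  generalize hp : C.id = p
  induction p using old_wf.induction generalizing C with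
  | _ p ih =>
  subst hp
  have mixed : ∀ ε ε' y l y', C.In y → B.XX y l ε y' → ¬ C.New y → C.h y' < C.h y →
      C.ν ε' = (C.id, ε') → C.ν ε ≠ C.ν ε' := by
    intro ε ε' y l y' h1 h2 h3 h5 h6 h7
    obtain ⟨D, c, f, c', b1, -, -, b4, b5⟩ := G.own_dart hC h1 h2 h5
    have := G.n4 b1.mem f
    rw [b4, h7, h6] at this
    rcases this with h | h
    · exact old_irrefl _ (h ▸ b5 h3)
    · exact old_irrefl _ (h.trans (b5 h3))
  have fin : ∀ {ε ε' y l y' y₁ y₁'}, C.In y → B.XX y l ε y' → C.In y₁ → B.XX y₁ l ε' y₁' →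
      C.φ y = C.φ y₁ → ε = ε' := by
    intro ε ε' y l y' y₁ y₁' h1 h2 h3 h4 h5
    obtain rfl := G.inj C hC _ _ h1 h3 h5
    exact (h2.func h4).1
  have shallow : ∀ {ε ε' y l y' y₁ l₁ y₁' Z a e a' Z₁ a₁ e₁ a₁'}, C.In y → B.XX y l ε y' →
      C.In y₁ → B.XX y₁ l₁ ε' y₁' → ¬ C.New y₁ → DN σ Z a l e a' → DN σ Z₁ a₁ l₁ e₁ a₁' →
      Z.φ a = C.φ y → Z₁.φ a₁ = C.φ y₁ → Z₁.ν e₁ = Z.ν e → Z.h a < Z.lvl + 5 * Z.el → ε = ε' := by
    intro ε ε' y l y' y₁ l₁ y₁' Z a e a' Z₁ a₁ e₁ a₁' h1 h2 k1 k2 k3 d d₁ e1 e2 e3 hs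
    have q1 : C.lvl ≤ Z.h a := by
      have := G.lvl_le C hC y h1
      simpa [Cell.h, e1] using this
    have q2 : Z₁.lvl + 5 * Z₁.el ≤ Z₁.h a₁ → Z₁.h a₁ < C.lvl + Z₁.el := fun h => by
      obtain ⟨z₀, -, -, -, -, b, -⟩ := G.pred' hC d₁.mem k1 k3 d₁.inn d₁.new e2 h
      exact b
    rcases G.n2a d with o | ⟨o, -⟩
    · rcases G.n2a d₁ with o₁ | ⟨o₁, D, c, m, f, c', b1, b2, b3⟩
      · rw [o, o₁] at e3
        obtain rfl := G.id_inj d₁.mem d.mem (congrArg Prod.fst e3)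
        obtain rfl : e₁ = e := congrArg Prod.snd e3
        obtain ⟨rfl, rfl, -⟩ := G.same_dn d d₁ (by omega)
        exact fin h1 h2 k1 k2 (e1.symm.trans e2)
      · have := G.low_first d (by omega) b1 (b2.trans e3)
        omega
    · omega
  intro ε ε' he
  rcases G.tdown hC ε with ⟨y, l, y', h1, h2, h3, -, h5⟩ | h1
  · rcases G.tdown hC ε' with ⟨y₁, l₁, y₁', k1, k2, k3, -, k5⟩ | k1
    · obtain ⟨Z, a, e, a', b1, b2, -, b4, b5⟩ := G.own_dart hC h1 h2 h5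
      obtain ⟨Z₁, a₁, e₁, a₁', c1, c2, -, c4, -⟩ := G.own_dart hC k1 k2 k5
      have e3 : Z₁.ν e₁ = Z.ν e := by rw [b4, c4, he]
      by_cases hs : Z.h a < Z.lvl + 5 * Z.el
      · exact shallow h1 h2 k1 k2 k3 b1 c1 b2 c2 e3 hs
      by_cases hs₁ : Z₁.h a₁ < Z₁.lvl + 5 * Z₁.el
      · exact (shallow k1 k2 h1 h2 h3 c1 b1 c2 b2 e3.symm hs₁).symm
      obtain ⟨z₀, p1, p2, p3, -, -, w, -, p6, p7⟩ :=
        G.pred' hC b1.mem h1 h3 b1.inn b1.new b2 (by omega)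
      obtain ⟨z₁, r1, r2, r3, -, -, w₁, -, r6, r7⟩ :=
        G.pred' hC c1.mem k1 k3 c1.inn c1.new c2 (by omega)
      obtain ⟨rfl, rfl⟩ := G.owner_uniq b1.mem c1.mem p1 r1 p2 r2 (p3.trans r3.symm)
      obtain rfl : e₁ = e := ih _ (b5 h3) b1.mem rfl e3
      rcases same_edge b1.xx c1.xx ((p6.rev fold_XD).append r6)
        (by rw [b1.inn.ell_eq]; simp; omega) with ⟨rfl, rfl, -⟩ | ⟨rfl, -, rfl⟩
      · exact fin h1 h2 k1 k2 (b2.symm.trans c2)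
      · have := b1.lt
        have := c1.lt
        omega
    · exact absurd he (mixed ε ε' y l y' h1 h2 h3 h5 k1)
  · rcases G.tdown hC ε' with ⟨y₁, l₁, y₁', k1, k2, k3, -, k5⟩ | k1
    · exact absurd he.symm (mixed ε' ε y₁ l₁ y₁' k1 k2 k3 k5 h1)
    · rw [h1, k1] at he
      exact congrArg Prod.snd he

section
variable {b : U B → (Nm B →₀ ZMod 2)} (hb0 : b U.o = 0)
  (hb : ∀ Q ∈ σ, ∀ z l e z', Q.In z → B.XX z l e z' →
    b (Q.φ z') = b (Q.φ z) + Finsupp.single (Q.ν e) 1)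
include hb0 hb

theorem b1 {u : U B} (hu : Ex σ u) {n : Nm B} (hn : n ∈ (b u).support) :
    ∃ D c m f c', DN σ D c m f c' ∧ D.ν f = n ∧ D.h c ≤ u.ht := by
  classical
  generalize hk : u.ht = k
  induction k using Nat.strong_induction_on generalizing u with
  | _ k ih =>
  subst hk
  by_cases ho : u = U.o
  · subst ho; simp [hb0] at hn
  obtain ⟨Z, hZ, z, h1, h2, rfl⟩ := G.exists_owner hu ho
  obtain ⟨l, z', ⟨e, h3⟩, h4⟩ := G.down Z hZ z h1 h2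
  rw [hb Z hZ z' (iv l) e z (h1.step ⟨e, h3⟩) h3.symm] at hn
  rcases Finset.mem_union.1 (Finsupp.support_add hn) with h | h
  · obtain ⟨D, c, m, f, c', a1, a2, a3⟩ := ih _ h4 (Or.inr ⟨Z, hZ, z', h1.step ⟨e, h3⟩, rfl⟩) h rfl
    exact ⟨D, c, m, f, c', a1, a2, a3.trans h4.le⟩
  · exact ⟨Z, z, l, e, z', ⟨hZ, h1, h2, h3, h4⟩,
      (Finset.mem_singleton.1 (Finsupp.support_single_subset h)).symm, le_rfl⟩

omit G hb0 in
theorem b_cell {C : Cell B} (hC : C ∈ σ) {z : B.W} (h : C.In z) :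
    b (C.φ z) = b (C.φ (C.x, 0)) + z.2.mapDomain C.ν := by
  obtain ⟨w, hw⟩ := h
  refine (hw.ind_end (fun z => C.In z ∧ b (C.φ z) = b (C.φ (C.x, 0)) + z.2.mapDomain C.ν) ?_
    ⟨C.in_root, by simp⟩).2
  rintro a l c ⟨h1, h2⟩ ⟨e, h3⟩
  refine ⟨h1.step ⟨e, h3⟩, ?_⟩
  rw [hb C hC a l e c h1 h3, h2, h3.2, Finsupp.mapDomain_add, Finsupp.mapDomain_single, add_assoc]

theorem w2 {C : Cell B} (hC : C ∈ σ) (F : Finset B.Ed) (hF : ∀ ε ∈ F, C.ν ε ∈ (b C.v).support) :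
    F.card < C.el := by
  have hv : Ex σ C.v := Or.inr ⟨C, hC, _, C.in_root, G.root C hC⟩
  have key : ∀ ε ∈ F, ∃ Z ∈ σ, ∃ z₀, Z.In z₀ ∧ Z.New z₀ ∧ Z.φ z₀ = C.v ∧ C.x ≠ z₀.1 ∧
      ε ∈ B.PS C.x z₀.1 := by
    intro ε hε
    obtain ⟨D, c, m, f, c', a1, a2, a3⟩ := G.b1 hb0 hb hv (hF ε hε)
    rcases G.tdown hC ε with ⟨y, l, y', h1, h2, h3, -, h5⟩ | h1
    · obtain ⟨Z, a, e, a', b1, b2, -, b4, -⟩ := G.own_dart hC h1 h2 h5
      have c1 := G.lvl_le C hC y' (h1.step ⟨ε, h2⟩)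
      have c2 : Z.h a = C.h y := by simp [Cell.h, b2]
      by_cases hs : Z.h a < Z.lvl + 5 * Z.el
      · have := G.low_first b1 (by omega) a1 (a2.trans b4.symm)
        simp only [Cell.lvl] at c1
        omega
      · obtain ⟨z₀, p1, p2, p3, p4, -, w, p5, p6, -⟩ :=
          G.pred' hC b1.mem h1 h3 b1.inn b1.new b2 (by omega)
        exact ⟨Z, b1.mem, z₀, p1, p2, p3, p4, w, l, y.1, y'.1, a.1, a'.1, proj p5, h2.1, proj p6,
          e, b1.xx.1⟩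
    · exfalso
      obtain ⟨D', c₁, m₁, f₁, c₁', b1, b2, b3⟩ := G.n2b a1
      rw [a2, h1] at b2
      obtain rfl := G.id_inj hC b1.mem (congrArg Prod.fst b2)
      have := G.lvl_lt hC b1.inn b1.new
      simp only [Cell.lvl] at this
      omega
  rcases F.eq_empty_or_nonempty with rfl | ⟨ε₀, h₀⟩
  · exact C.el_pos
  · obtain ⟨Z, hZ, z₀, a1, a2, a3, a4, -⟩ := key ε₀ h₀
    have hsub : (F : Set B.Ed) ⊆ B.PS C.x z₀.1 := by
      intro ε hε
      obtain ⟨Z', hZ', z₁, b1, b2, b3, -, b5⟩ := key ε hε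
      obtain ⟨-, rfl⟩ := G.owner_uniq hZ hZ' a1 b1 a2 b2 (a3.trans b3.symm)
      exact b5
    have := Set.ncard_le_ncard hsub (PS_finite _ _)
    rw [Set.ncard_coe_finset] at this
    exact this.trans_lt (PS_card a4)

theorem deep_gain {C : Cell B} (hC : C ∈ σ) {z : B.W} (h : C.In z)
    (hd : C.lvl + 15 * C.el ≤ C.h z) :
    (b C.v).support.card + 13 * C.el ≤ (b (C.φ z)).support.card := by
  classical
  have h1 : 15 * C.el ≤ z.2.support.card := by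
    by_contra hc
    obtain ⟨w, a1, a2⟩ := ags h (by simp only [Cell.el] at hc; omega)
    have := (G.h_walk hC C.in_root a1).1
    rw [G.h_root hC] at this
    omega
  have hi := G.nu_inj hC
  rw [b_cell hb hC h, G.root C hC]
  set β := b C.v
  set ξ := z.2.mapDomain C.ν with hξ
  have hs : ξ.support = z.2.support.image C.ν := Finsupp.mapDomain_support_of_injective hi _
  have h2 := G.w2 hb0 hb hC (z.2.support.filter fun ε => C.ν ε ∈ β.support)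
    (fun ε hε => (Finset.mem_filter.1 hε).2)
  have h3 : (β.support ∩ ξ.support).card = (z.2.support.filter fun ε => C.ν ε ∈ β.support).card := by
    rw [← Finset.card_image_of_injective _ hi]
    congr 1
    ext n
    simp only [hs, Finset.mem_inter, Finset.mem_image, Finset.mem_filter]
    constructor
    · rintro ⟨a, ε, b, rfl⟩; exact ⟨ε, ⟨b, a⟩, rfl⟩
    · rintro ⟨ε, ⟨b, a⟩, rfl⟩; exact ⟨a, ε, b, rfl⟩
  have h4 : (β.support ∪ ξ.support) \ (β.support ∩ ξ.support) ⊆ (β + ξ).support := by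
    intro n hn
    simp only [Finset.mem_sdiff, Finset.mem_union, Finset.mem_inter, Finsupp.mem_support_iff,
      Finsupp.add_apply] at hn ⊢
    by_cases a : β n = 0 <;> by_cases c : ξ n = 0 <;> simp_all
  have h5 := Finset.card_le_card h4
  rw [Finset.card_sdiff_of_subset Finset.inter_subset_union] at h5
  have h6 := Finset.card_union_add_card_inter β.support ξ.support
  have h7 : ξ.support.card = z.2.support.card := by rw [hs, Finset.card_image_of_injective _ hi]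
  omega

theorem proper (R : ℕ) : ∃ H, ∀ u, Ex σ u → (b u).support.card ≤ R → u.ht ≤ H := by
  classical
  obtain ⟨M, hM⟩ := B.diam R
  refine ⟨R * (M + 1), fun u hu hR => ?_⟩
  suffices h : u.ht ≤ (b u).support.card * (M + 1) from h.trans (Nat.mul_le_mul_right _ hR)
  generalize hk : u.ht = k
  induction k using Nat.strong_induction_on generalizing u with
  | _ k ih =>
  subst hk
  by_cases ho : u = U.o
  · subst ho; simp [U.ht]
  obtain ⟨Z, hZ, z, h1, h2, rfl⟩ := G.exists_owner hu ho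
  by_cases hd : Z.lvl + 15 * Z.el ≤ Z.h z
  · have a1 := G.deep_gain hb0 hb hZ h1 hd
    have a2 := Z.el_pos
    have a3 := ih _ (G.lvl_lt hZ h1 h2) _ (Or.inr ⟨Z, hZ, _, Z.in_root, G.root Z hZ⟩)
      (by omega) rfl
    obtain ⟨w, a4, a5⟩ := hM Z.x z (by simp only [Cell.el] at a1; omega) h1
    have a6 := (G.h_walk hZ Z.in_root a4).1
    rw [G.h_root hZ] at a6
    have a7 : ((b Z.v).support.card + 1) * (M + 1) ≤ (b (Z.φ z)).support.card * (M + 1) :=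
      Nat.mul_le_mul_right _ (by omega)
    simp only [Cell.h, Cell.lvl] at a3 a6
    nlinarith
  · obtain ⟨l, z', ⟨e, h3⟩, h4⟩ := G.down Z hZ z h1 h2
    have hu' : Ex σ (Z.φ z') := Or.inr ⟨Z, hZ, z', h1.step ⟨e, h3⟩, rfl⟩
    have a1 : Z.ν e ∉ (b (Z.φ z')).support := by
      intro hn
      obtain ⟨D, c, m, f, c', b1, b2, b3⟩ := G.b1 hb0 hb hu' hn
      have := G.low_first ⟨hZ, h1, h2, h3, h4⟩ (by omega) b1 b2
      simp only [Cell.h] at this h4 b3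
      omega
    have a2 : (b (Z.φ z)).support.card = (b (Z.φ z')).support.card + 1 := by
      rw [hb Z hZ z' (iv l) e z (h1.step ⟨e, h3⟩) h3.symm, Finsupp.support_add_eq,
        Finsupp.support_single _ one_ne_zero, Finset.card_union_of_disjoint,
        Finset.card_singleton]
      · simpa using a1
      · rw [Finsupp.support_single _ one_ne_zero]; simpa using a1
    have a3 := ih _ h4 _ hu' (by omega) rfl
    have a4 := G.step Z hZ z l z' h1 ⟨e, h3⟩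
    simp only [Cell.h] at a3 a4 h4
    rw [a2, add_mul]
    omega

end

end Good

end Pool.Agent.Lib.MP_f40e16_al
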