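import Pool.Agent.Lib.MP_f40e16_al.Attach

set_option autoImplicit false

namespace Pool.Agent.Lib.MP_f40e16_al

open FreeGroup Base

variable {B : Base}

theorem good_sUnion (c : Set (Set (Cell B))) (hc : ∀ σ ∈ c, Good σ) (hch : IsChain (· ⊆ ·) c) :
    Good (⋃₀ c) := by
  have two : ∀ {Q Q' : Cell B}, Q ∈ ⋃₀ c → Q' ∈ ⋃₀ c → ∃ σ, Good σ ∧ σ ⊆ ⋃₀ c ∧ Q ∈ σ ∧ Q' ∈ σ := by
    rintro Q Q' ⟨σ, h1, h2⟩ ⟨σ', h1', h2'⟩
    rcases hch.total h1 h1' with h | h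
    · exact ⟨σ', hc _ h1', Set.subset_sUnion_of_mem h1', h h2, h2'⟩
    · exact ⟨σ, hc _ h1, Set.subset_sUnion_of_mem h1, h2, h h2'⟩
  refine
    { root := ?_, inj := ?_, own := ?_, fold := ?_, uniq := ?_, step := ?_, down := ?_,
      downo := ?_, tree := ?_, old := ?_, lvl_le := ?_, g10 := ?_, pred := ?_, compl := ?_,
      psi := ?_, nu := ?_, nuo := ?_ }
  · intro Q hQ
    obtain ⟨σ, G, -, h, -⟩ := two hQ hQ
    exact G.root Q h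
  · intro Q hQ
    obtain ⟨σ, G, -, h, -⟩ := two hQ hQ
    exact G.inj Q h
  · intro Q hQ z h1
    obtain ⟨σ, G, hs, h, -⟩ := two hQ hQ
    rcases G.own Q h z h1 with h | h | ⟨Q', hQ', h⟩
    · exact Or.inl h
    · exact Or.inr (Or.inl h)
    · exact Or.inr (Or.inr ⟨Q', hs hQ', h⟩)
  · intro Q hQ Q' hQ'
    obtain ⟨σ, G, -, h, h'⟩ := two hQ hQ'
    exact G.fold Q h Q' h'
  · intro Q hQ Q' hQ'
    obtain ⟨σ, G, -, h, h'⟩ := two hQ hQ'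
    exact G.uniq Q h Q' h'
  · intro Q hQ
    obtain ⟨σ, G, -, h, -⟩ := two hQ hQ
    exact G.step Q h
  · intro Q hQ
    obtain ⟨σ, G, -, h, -⟩ := two hQ hQ
    exact G.down Q h
  · intro Q hQ Q' hQ'
    obtain ⟨σ, G, -, h, h'⟩ := two hQ hQ'
    exact G.downo Q h Q' h'
  · intro Q hQ
    obtain ⟨σ, G, -, h, -⟩ := two hQ hQ
    exact G.tree Q h
  · intro Q hQ z l z' h1 h2
    obtain ⟨σ, G, hs, h, -⟩ := two hQ hQ
    obtain ⟨Q', hQ', h⟩ := G.old Q h z l z' h1 h2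
    exact ⟨Q', hs hQ', h⟩
  · intro Q hQ
    obtain ⟨σ, G, -, h, -⟩ := two hQ hQ
    exact G.lvl_le Q h
  · intro Q hQ z h1 h2
    obtain ⟨σ, G, hs, h, -⟩ := two hQ hQ
    rcases G.g10 Q h z h1 h2 with h | h | h
    · exact Or.inl h
    · exact Or.inr (Or.inl h)
    · exact Or.inr (Or.inr (h.mono hs))
  · intro Q hQ Q' hQ'
    obtain ⟨σ, G, -, h, h'⟩ := two hQ hQ'
    exact G.pred Q h Q' h'
  · intro Q hQ u y h1 h2
    rcases h1 with rfl | ⟨Q', hQ', h1⟩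
    · obtain ⟨σ, G, hs, h, -⟩ := two hQ hQ
      exact (G.compl Q h _ y (Or.inl rfl) h2).mono hs
    · obtain ⟨σ, G, hs, h, h'⟩ := two hQ hQ'
      exact (G.compl Q h _ y (Or.inr ⟨Q', h', h1⟩) h2).mono hs
  · intro Q hQ Q' hQ'
    obtain ⟨σ, G, -, h, h'⟩ := two hQ hQ'
    exact G.psi Q h Q' h'
  · intro Q hQ Q' hQ'
    obtain ⟨σ, G, -, h, h'⟩ := two hQ hQ'
    exact G.nu Q h Q' h'
  · intro Q hQ
    obtain ⟨σ, G, -, h, -⟩ := two hQ hQ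
    exact G.nuo Q h

theorem exists_complete (B : Base) :
    ∃ σ : Set (Cell B), Good σ ∧ ∀ u x, Ex σ u → Sat σ u x := by
  obtain ⟨σ, hσ⟩ := zorn_subset {σ : Set (Cell B) | Good σ} (fun c hc hch =>
    ⟨⋃₀ c, good_sUnion c hc hch, fun s hs => Set.subset_sUnion_of_mem hs⟩)
  refine ⟨σ, hσ.prop, ?_⟩
  by_contra hn
  push Not at hn
  obtain ⟨u, x, h1, h2⟩ := hn
  obtain ⟨⟨v, y⟩, ⟨a1, a2⟩, a3⟩ := old_wf.has_min {p : U B × B.V | Ex σ p.1 ∧ ¬ Sat σ p.1 p.2}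
    ⟨(u, x), h1, h2⟩
  have A : Att σ v y := ⟨hσ.prop, a1, a2, fun u' y' b1 b2 => by
    by_contra b3
    exact a3 (u', y') ⟨b1, b3⟩ b2⟩
  have := hσ.eq_of_subset A.good_insert (Set.subset_insert _ _)
  have hm : newCell σ v y ∈ σ := this.ge (Set.mem_insert _ _)
  exact a2 ⟨_, hm, (y, 0), Cp.root y, A.phi_T Rch.base, rfl⟩

end Pool.Agent.Lib.MP_f40e16_al
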